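import Mathlib
import Pool.Agent.Lib.MP_04add8_pr.One.Combine
import Pool.Agent.Lib.MP_04add8_pr.Two.Det3

open MeasureTheory ProbabilityTheory Filter Topology
open scoped ENNReal

set_option linter.unusedSectionVars false

namespace Pool.Agent.Lib.MP_04add8_pr

theorem back_det {B : ℝ} (hB : 0 ≤ B) {w : ℝ × ℝ} (h0 : 0 ≤ w.1) (h1 : w.1 ≤ w.2)
    {z : ℕ → ℝ × ℝ} (hz : ∀ k, 0 ≤ (z k).1 ∧ 0 ≤ (z k).2) {n : ℕ}
    (hsmall : ∀ i, 1 ≤ i → i < n + 1 → (z i).1 ≤ B)
    (hgap : (pIter w z (n + 1)).1 + B < (pIter w z (n + 1)).2) :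
    (pIter w z (n + 1)).2 ≤ max (w.1 + (z 0).1) w.2 := by
  set v := pIter w z 1 with hv
  have hadd : pIter w z (n + 1) = pIter v (fun k => z (1 + k)) n := by
    rw [hv, ← pIter_add, add_comm]
  have hord := pIter_ordered h0 h1 z 1
  have hp := D3.phase2 hB v hord.1 hord.2 (z := fun k => z (1 + k)) (fun k => hz _) n
    (fun k hk => hsmall (1 + k) (by omega) (by omega)) n le_rfl
  rw [hadd] at hgap ⊢
  rcases hp.2 with h | h
  · have hA : 0 ≤ sumA (fun k => z (1 + k)) n := Finset.sum_nonneg fun i _ => (hz _).2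
    have hv2 : v.2 ≤ max (w.1 + (z 0).1) w.2 := by
      have e : v = kwStep w (z 0).1 (z 0).2 := by rw [hv]; rfl
      rw [e, kwStep_eq]
      have ht := (hz 0).2
      have hs := (hz 0).1
      simp only
      apply max_le
      · apply max_le
        · exact le_trans (by linarith) (le_max_left _ _)
        · exact (h0.trans h1).trans (le_max_right _ _)
      · apply max_le
        · exact le_trans (by linarith) (le_max_right _ _)
        · exact (h0.trans h1).trans (le_max_right _ _)
    linarith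
  · linarith

end Pool.Agent.Lib.MP_04add8_pr
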