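import Mathlib
import Pool.Agent.Lib.MP_04add8_pr.One.Combine

open MeasureTheory ProbabilityTheory Filter Topology Asymptotics
open scoped ENNReal

set_option linter.unusedSectionVars false

namespace Pool.Agent.Lib.MP_04add8_pr

namespace BetaTwo

open BetaAux

lemma tendsto_exp_second :
    Tendsto (fun x : ℝ => (Real.exp x - 1 - x) / x ^ 2) (𝓝[≠] 0) (𝓝 (1 / 2)) := by
  have h := Real.exp_sub_sum_range_succ_isLittleO_pow 2
  have h1 := (h.mono (nhdsWithin_le_nhds (s := {0}ᶜ))).tendsto_div_nhds_zero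
  have h2 := h1.add_const (1 / 2)
  rw [zero_add] at h2
  refine h2.congr' ?_
  filter_upwards [self_mem_nhdsWithin] with x hx
  have hx : x ≠ 0 := hx
  simp only [Finset.sum_range_succ, Finset.sum_range_zero]
  norm_num
  field_simp
  ring

variable {a : ℝ} {μ ν : Measure ℝ} [IsProbabilityMeasure μ] [IsProbabilityMeasure ν]

lemma exp_neg_le_quad {u : ℝ} (hu : 0 ≤ u) : Real.exp (-u) - 1 + u ≤ u ^ 2 / 2 := by
  have := BetaAux.exp_taylor_nonpos (x := -u) (by linarith)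
  nlinarith

/-- second order behaviour of the Laplace transform -/
lemma tendsto_lap_second (hν0 : ∀ᵐ t ∂ν, 0 ≤ t) (hνi : Integrable (fun t : ℝ => t) ν)
    (hν2 : Integrable (fun t : ℝ => t ^ 2) ν) :
    Tendsto (fun q => (lap ν q - 1 + (∫ t, t ∂ν) * q) / q ^ 2) (𝓝[>] 0)
      (𝓝 ((∫ t, t ^ 2 ∂ν) / 2)) := by
  have h1 : Tendsto (fun q : ℝ => ∫ t, (Real.exp (-(q * t)) - 1 + q * t) / q ^ 2 ∂ν) (𝓝[>] 0)
      (𝓝 (∫ t, t ^ 2 / 2 ∂ν)) := by
    apply tendsto_integral_filter_of_dominated_convergence (fun t => t ^ 2 / 2)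
    · filter_upwards with q
      fun_prop
    · filter_upwards [self_mem_nhdsWithin] with q hq
      have hq : 0 < q := hq
      filter_upwards [hν0] with t ht
      have h2 := exp_neg_le_quad (u := q * t) (by positivity)
      have h3 := Real.add_one_le_exp (-(q * t))
      rw [Real.norm_eq_abs, abs_of_nonneg (by
        apply div_nonneg _ (by positivity); linarith), div_le_iff₀ (by positivity)]
      nlinarith
    · exact hν2.div_const 2
    · filter_upwards [hν0] with t ht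
      rcases ht.eq_or_lt with h0 | h0
      · rw [← h0]
        simp
      · have h4 : Tendsto (fun q : ℝ => -(q * t)) (𝓝[>] 0) (𝓝[≠] 0) := by
          apply tendsto_nhdsWithin_of_tendsto_nhds_of_eventually_within
          · have : Tendsto (fun q : ℝ => -(q * t)) (𝓝 0) (𝓝 (-(0 * t))) := by
              apply Continuous.tendsto
              fun_prop
            rw [zero_mul, neg_zero] at this
            exact this.mono_left nhdsWithin_le_nhds
          · filter_upwards [self_mem_nhdsWithin] with q hq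
            have hq : 0 < q := hq
            have : 0 < q * t := by positivity
            simp only [Set.mem_compl_iff, Set.mem_singleton_iff]
            linarith
        have h5 := (tendsto_exp_second.comp h4).const_mul (t ^ 2)
        have e : t ^ 2 * (1 / 2) = t ^ 2 / 2 := by ring
        rw [e] at h5
        refine h5.congr' ?_
        filter_upwards [self_mem_nhdsWithin] with q hq
        have hq : 0 < q := hq
        simp only [Function.comp]
        field_simp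
        ring
  rw [integral_div] at h1
  refine h1.congr' ?_
  filter_upwards [self_mem_nhdsWithin] with q hq
  have hq : 0 < q := hq
  have e1 : ∫ t, (Real.exp (-(q * t)) - 1 + q * t) ∂ν = lap ν q - 1 + (∫ t, t ∂ν) * q := by
    have i1 : Integrable (fun t : ℝ => Real.exp (-(q * t)) - 1) ν :=
      (integrable_lap hν0 hq.le).sub (integrable_const _)
    have h2 := integral_add i1 (hνi.const_mul q)
    rw [h2, integral_sub (integrable_lap hν0 hq.le) (integrable_const _), integral_const_mul]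
    simp only [lap, integral_const, probReal_univ, smul_eq_mul, mul_one]
    ring
  rw [integral_div, e1]

lemma momPoly_two (hμ1 : (∫ s, s ^ 0 ∂μ) = 1) (β : ℝ) :
    momPoly μ 2 β = 1 + (∫ s, s ∂μ) * β + (∫ s, s ^ 2 ∂μ) * β ^ 2 / 2 := by
  unfold momPoly
  simp only [Finset.sum_range_succ, Finset.sum_range_zero]
  simp

/-- second order expansion of the Cramer root -/
theorem beta_second (ha0 : 0 < a) (ha1 : a < 1)
    (hμ : ∀ x, 0 ≤ x → μ (Set.Ioi x) = ENNReal.ofReal (Real.exp (-(x ^ a))))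
    (hν : ν (Set.Iio 0) = 0) (hνi : Integrable (fun t : ℝ => t) ν)
    (hν2 : Integrable (fun t : ℝ => t ^ 2) ν)
    (hm : 0 < ∫ t, t ∂ν)
    (hgt : (∫ t, t ∂ν) < ∫ s, s ∂μ) (hlt : (∫ s, s ∂μ) < 2 * ∫ t, t ∂ν)
    {η : ℝ} (hη : η = (∫ s, s ∂μ) / ((∫ s, s ∂μ) - ∫ t, t ∂ν)) :
    Tendsto (fun θ => (θ + cramerRoot μ ν 2 θ - η * θ) / θ ^ 2) (𝓝[>] 0)
      (𝓝 (-(((∫ s, s ^ 2 ∂μ) - (∫ s, s ∂μ) ^ 2) * (η - 1) ^ 2 +
        ((∫ t, t ^ 2 ∂ν) - (∫ t, t ∂ν) ^ 2) * η ^ 2) /
          (2 * ((∫ s, s ∂μ) - ∫ t, t ∂ν)))) := by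
  have hν0 := ae_nonneg hν
  set E := ∫ s, s ∂μ with hE
  set m := ∫ t, t ∂ν with hmdef
  set E2 := ∫ s, s ^ 2 ∂μ with hE2
  set T2 := ∫ t, t ^ 2 ∂ν with hT2
  have hd : 0 < E - m := by linarith
  have hlim := beta_limit ha0 ha1 hμ hν hνi hm hgt hlt (K := 2) (by norm_num)
  rw [← hE, ← hmdef, ← hη] at hlim
  obtain ⟨θ0, hθ0, hbasic⟩ := beta_basic ha0 ha1 hμ hν hνi hm hgt hlt (K := 2) (by norm_num)
  set b : ℝ → ℝ := fun θ => cramerRoot μ ν 2 θ / θ with hb
  have hid : Tendsto (fun θ : ℝ => θ) (𝓝[>] (0 : ℝ)) (𝓝 0) :=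
    (continuous_id.tendsto 0).mono_left nhdsWithin_le_nhds
  -- the argument of the Laplace transform
  have hq0 : Tendsto (fun θ : ℝ => cramerRoot μ ν 2 θ + θ) (𝓝[>] 0) (𝓝[>] 0) := by
    apply tendsto_nhdsWithin_of_tendsto_nhds_of_eventually_within
    · have h1 := (hlim.add_const 1).mul hid
      rw [mul_zero] at h1
      refine h1.congr' ?_
      filter_upwards [self_mem_nhdsWithin] with θ hθ
      have hθ : 0 < θ := hθ
      rw [add_mul, div_mul_cancel₀ _ hθ.ne', one_mul]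
    · filter_upwards [self_mem_nhdsWithin] with θ hθ
      have hθ : 0 < θ := hθ
      have := cramerRoot_nonneg (μ := μ) (ν := ν) 2 θ
      exact Set.mem_Ioi.mpr (by linarith)
  have hs := (tendsto_lap_second hν0 hνi hν2).comp hq0
  rw [← hmdef, ← hT2] at hs
  set s : ℝ → ℝ := fun θ => ((fun q => (lap ν q - 1 + m * q) / q ^ 2) ∘
    fun θ => cramerRoot μ ν 2 θ + θ) θ with hsdef
  have hs' : Tendsto s (𝓝[>] 0) (𝓝 (T2 / 2)) := hs
  have hbl : Tendsto b (𝓝[>] 0) (𝓝 (η - 1)) := hlim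
  set Φ : ℝ → ℝ := fun θ => -((E2 * b θ ^ 2 / 2 - E * m * b θ * (b θ + 1) +
      s θ * (b θ + 1) ^ 2) + θ * (E * b θ * s θ * (b θ + 1) ^ 2 - m * (b θ + 1) * E2 *
        b θ ^ 2 / 2) + θ ^ 2 * (E2 * b θ ^ 2 * s θ * (b θ + 1) ^ 2 / 2)) / (E - m) with hΦ
  have hΦlim : Tendsto Φ (𝓝[>] 0) (𝓝 (-((E2 * (η - 1) ^ 2 / 2 - E * m * (η - 1) *
      ((η - 1) + 1) + T2 / 2 * ((η - 1) + 1) ^ 2) + 0 * (E * (η - 1) * (T2 / 2) *
      ((η - 1) + 1) ^ 2 - m * ((η - 1) + 1) * E2 * (η - 1) ^ 2 / 2) +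
      0 ^ 2 * (E2 * (η - 1) ^ 2 * (T2 / 2) * ((η - 1) + 1) ^ 2 / 2)) / (E - m))) := by
    have hb1 := hbl.add_const 1
    refine Tendsto.div_const (Tendsto.neg (Tendsto.add (Tendsto.add (Tendsto.add (Tendsto.sub
      ?_ ?_) ?_) ?_) ?_)) _
    · exact ((hbl.pow 2).const_mul E2).div_const 2
    · exact (hbl.const_mul (E * m)).mul hb1
    · exact hs'.mul (hb1.pow 2)
    · refine hid.mul (Tendsto.sub ?_ ?_)
      · exact ((hbl.const_mul E).mul hs').mul (hb1.pow 2)
      · exact (((hb1.const_mul m).mul_const E2).mul (hbl.pow 2)).div_const 2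
    · exact (hid.pow 2).mul ((((hbl.pow 2).const_mul E2).mul hs').mul (hb1.pow 2)
        |>.div_const 2)
  have hval : -((E2 * (η - 1) ^ 2 / 2 - E * m * (η - 1) *
      ((η - 1) + 1) + T2 / 2 * ((η - 1) + 1) ^ 2) + 0 * (E * (η - 1) * (T2 / 2) *
      ((η - 1) + 1) ^ 2 - m * ((η - 1) + 1) * E2 * (η - 1) ^ 2 / 2) +
      0 ^ 2 * (E2 * (η - 1) ^ 2 * (T2 / 2) * ((η - 1) + 1) ^ 2 / 2)) / (E - m) =
      -((E2 - E ^ 2) * (η - 1) ^ 2 + (T2 - m ^ 2) * η ^ 2) / (2 * (E - m)) := by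
    have h0 : E * (η - 1) - m * η = 0 := by
      rw [hη]; field_simp; ring
    have h1 : (E * (η - 1) - m * η) ^ 2 = 0 := by rw [h0]; ring
    field_simp
    nlinarith
  rw [hval] at hΦlim
  refine hΦlim.congr' ?_
  have hev : ∀ᶠ θ : ℝ in 𝓝[>] 0, θ < θ0 :=
    Filter.Eventually.filter_mono nhdsWithin_le_nhds (gt_mem_nhds hθ0)
  filter_upwards [hev, self_mem_nhdsWithin] with θ hθ1 hθ
  have hθ : 0 < θ := hθ
  obtain ⟨g1, g2, -⟩ := hbasic θ hθ hθ1
  set β := cramerRoot μ ν 2 θ with hβ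
  have hβ0 : 0 ≤ β := hθ.le.trans g1
  have hq : 0 < β + θ := by positivity
  rw [momPoly_two (by simp)] at g2
  rw [← hE, ← hE2] at g2
  have hsθ : s θ = (lap ν (β + θ) - 1 + m * (β + θ)) / (β + θ) ^ 2 := rfl
  have hL : lap ν (β + θ) = 1 - m * (β + θ) + s θ * (β + θ) ^ 2 := by
    rw [hsθ]; field_simp; ring
  have hbθ : β = b θ * θ := by
    rw [hb]; simp only; rw [← hβ]; field_simp
  rw [hL] at g2
  change Φ θ = (θ + β - η * θ) / θ ^ 2
  have h0 : (E - m) * (η - 1) = m := by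
    rw [hη]; field_simp; ring
  rw [hΦ]
  simp only
  rw [hbθ] at g2 ⊢
  generalize s θ = S at g2 ⊢
  generalize b θ = B at g2 ⊢
  have key : (E - m) * (B - (η - 1)) * θ + ((E2 * B ^ 2 / 2 - E * m * B * (B + 1) +
      S * (B + 1) ^ 2) * θ ^ 2 + (E * B * S * (B + 1) ^ 2 - m * (B + 1) * E2 *
        B ^ 2 / 2) * θ ^ 3 + (E2 * B ^ 2 * S * (B + 1) ^ 2 / 2) * θ ^ 4) = 0 := by
    linear_combination g2 - θ * h0
  rw [div_eq_div_iff hd.ne' (by positivity)]
  linear_combination (-1) * key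

end BetaTwo

end Pool.Agent.Lib.MP_04add8_pr
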