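import Mathlib
import Pool.Agent.Lib.MP_04add8_pr.One.Combine

/-!
# LinGen: the linear exponential potential, general form
-/

open MeasureTheory ProbabilityTheory Filter Topology
open scoped ENNReal

set_option linter.unusedSectionVars false

namespace Pool.Agent.Lib.MP_04add8_pr

section stoch

variable {a : ℝ} {μ ν : Measure ℝ} [IsProbabilityMeasure μ] [IsProbabilityMeasure ν]

theorem lin_gen (ha0 : 0 < a) (ha1 : a < 1)
    (hμ : ∀ x, 0 ≤ x → μ (Set.Ioi x) = ENNReal.ofReal (Real.exp (-(x ^ a))))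
    (hν : ν (Set.Iio 0) = 0) (hνi : Integrable (fun t : ℝ => t) ν)
    (hm : 0 < ∫ t, t ∂ν)
    (hgt : (∫ t, t ∂ν) < ∫ s, s ∂μ) {b : ℝ} (hb : 0 < b) (hb1 : b < 1)
    (hbm : (∫ s, s ∂μ) < (1 + b) * ∫ t, t ∂ν) :
    ∃ R δ : ℝ, 0 < R ∧ 0 < δ ∧ ∀ K : ℝ, 0 < K → ∃ β1 C x0 : ℝ, 0 < β1 ∧ 0 ≤ C ∧ 0 < x0 ∧
      ∀ β : ℝ, 0 < β → β ≤ β1 → ∀ x, x0 ≤ x → ∀ v : ℝ × ℝ, 0 ≤ v.1 → v.1 ≤ v.2 →
        ∀ (n : ℕ) (Y : ℝ),
        (noise μ ν) (allLe (β * x) n ∩ {z | Y ≤ bigA b R (pIter v z n)}) ≤
          ENNReal.ofReal (C * (n + 1) *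
            Real.exp (-(K * x ^ (a - 1) * (Y - max (bigA b R v - δ * n) 0)))) := by
  set E1 := ∫ s, s ∂μ with hE1
  set E2 := ∫ s, s ^ 2 ∂μ with hE2
  set m := ∫ t, t ∂ν with hmdef
  have hE2nn : 0 ≤ E2 := integral_nonneg fun s => by positivity
  -- choose M
  obtain ⟨M, hM1, hM0⟩ : ∃ M : ℝ, E1 < (1 + b) * ∫ t, min t M ∂ν ∧ 0 ≤ M := by
    have h1 : Tendsto (fun n : ℕ => (1 + b) * ∫ t, min t (n : ℝ) ∂ν) atTop
        (𝓝 ((1 + b) * m)) := (tendsto_integral_min hν hνi).const_mul _
    obtain ⟨n, hn⟩ := (h1.eventually (lt_mem_nhds hbm)).exists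
    exact ⟨n, hn, by positivity⟩
  set m' := ∫ t, min t M ∂ν with hm'
  have hm'm : m' ≤ m := by
    apply integral_mono_ae (min_integrable hν hM0) hνi
    filter_upwards with t
    exact min_le_left _ _
  have hEm' : 0 < E1 - m' := by linarith
  set δ := (m' - (E1 - m') / b) / 2 with hδ
  have hδ0 : 0 < δ := by
    rw [hδ]
    have : (E1 - m') / b < m' := by
      rw [div_lt_iff₀ hb]; linarith
    linarith
  -- choose R
  set R := (E2 + M ^ 2 + 1) / (2 * b * δ) with hR
  have hR0 : 0 < R := by positivity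
  have hRδ : (E2 + M ^ 2) / (2 * b * R) ≤ δ := by
    rw [div_le_iff₀ (by positivity), hR]
    have : δ * (2 * b * ((E2 + M ^ 2 + 1) / (2 * b * δ))) = E2 + M ^ 2 + 1 := by
      field_simp
    rw [this]; linarith
  have hincr : ∀ q : ℝ, 0 ≤ q → q ≤ 1 →
      ∫ p : ℝ × ℝ, incr b R M q p.1 p.2 ∂(μ.prod ν) ≤ -δ := by
    intro q hq0 hq1
    have hint := (integral_incr (ν := ν) ha0 hμ hν hM0 b R q).2
    rw [hint]
    have h5 : q / b * (E1 - m') ≤ 1 / b * (E1 - m') := by gcongr
    have h6 : -m' + 1 / b * (E1 - m') = -(2 * δ) := by rw [hδ]; ring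
    linarith
  -- choose L
  have hb2 : 0 < 1 - b ^ 2 := by nlinarith
  set L := M + R / (1 - b ^ 2) with hL
  have hLM : M ≤ L := by
    have : 0 < R / (1 - b ^ 2) := by positivity
    rw [hL]; linarith
  have hL0 : 0 ≤ L := hM0.trans hLM
  have hcond : ∀ v, L - M ≤ v → b ^ 2 * (v ^ 2 + R ^ 2) ≤ v ^ 2 := by
    intro v hv
    have h0 : R / (1 - b ^ 2) ≤ v := by rw [hL] at hv; linarith
    have h1 : R ≤ (1 - b ^ 2) * v := by
      rw [div_le_iff₀ hb2] at h0
      linarith
    have hv0 : 0 < v := lt_of_lt_of_le (by positivity) h0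
    have h2 : R ^ 2 ≤ ((1 - b ^ 2) * v) ^ 2 := by gcongr
    nlinarith [sq_nonneg (b * v), mul_pos hb2 (by positivity : 0 < v ^ 2)]
  set I := ∫ s, (M + (s + M) / b) ^ 2 * Real.exp (s ^ a / 2) ∂μ with hI
  have hI0 : 0 ≤ I := integral_nonneg fun s => by positivity
  refine ⟨R, δ / 2, hR0, by positivity, ?_⟩
  intro K hK
  -- choose b1
  set b1 := (b / (2 * K)) ^ (1 / (1 - a)) with hb1def
  have h1a : 0 < 1 - a := by linarith
  have hb1pow : b1 ^ (1 - a) = b / (2 * K) := by
    rw [hb1def, ← Real.rpow_mul (by positivity)]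
    have : 1 / (1 - a) * (1 - a) = 1 := by field_simp
    rw [this, Real.rpow_one]
  -- choose x0
  set S := 2 * I / δ + M * (1 + 1 / b) + δ / 2 + 1 with hS
  have hS0 : 0 < S := by positivity
  have hrp : Tendsto (fun x : ℝ => x ^ (a - 1)) atTop (𝓝 0) := by
    have := tendsto_rpow_neg_atTop (y := 1 - a) (by linarith)
    simpa using this
  obtain ⟨x0, hx0⟩ := ((hrp.eventually (ge_mem_nhds
    (show 0 < 1 / (K * S) by positivity)))).exists_forall_of_atTop
  set C := 1 + 2 * Real.exp (L + (L + R) / b) with hC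
  have hC0 : 0 < C := by positivity
  refine ⟨b1, C, max x0 1, by positivity, by positivity, by positivity, ?_⟩
  intro β hβ hβb1 x hx v hv0 hv1 n Y
  have hx1 : 1 ≤ x := (le_max_right _ _).trans hx
  have hx0' : 0 < x := by linarith
  set θ := K * x ^ (a - 1) with hθdef
  have hθ0 : 0 < θ := by positivity
  have hθS : θ * S ≤ 1 := by
    have h1 := hx0 x ((le_max_left _ _).trans hx)
    calc θ * S = K * S * x ^ (a - 1) := by rw [hθdef]; ring
      _ ≤ K * S * (1 / (K * S)) := by gcongr
      _ = 1 := by field_simp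
  have hpos1 : 0 ≤ 2 * I / δ := by positivity
  have hpos2 : 0 ≤ M * (1 + 1 / b) := by positivity
  have hs1 : θ * (M * (1 + 1 / b)) ≤ 1 := by
    refine le_trans ?_ hθS
    gcongr
    rw [hS]; linarith
  have hs3 : θ * (δ / 2) ≤ 1 := by
    refine le_trans ?_ hθS
    gcongr
    rw [hS]; linarith
  have hθ1 : θ ≤ 1 := by
    refine le_trans ?_ hθS
    have : θ * 1 ≤ θ * S := by
      gcongr
      rw [hS]; linarith
    linarith
  have hs2 : θ * I ≤ δ / 2 := by
    have h1 : θ * (2 * I / δ) ≤ 1 := by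
      refine le_trans ?_ hθS
      gcongr
      rw [hS]; linarith
    have h2 : θ * (2 * I / δ) = (θ * I) * (2 / δ) := by ring
    rw [h2, ← le_div_iff₀ (by positivity)] at h1
    refine h1.trans (le_of_eq ?_)
    field_simp
  have hθB : ∀ s, 0 < s → s ≤ β * x → θ * (s / b) ≤ s ^ a / 2 := by
    intro s hs hsB
    have h1 : s / x ≤ β := by rw [div_le_iff₀ hx0']; exact hsB
    have h2 : x ^ (a - 1) * s = s ^ a * (s / x) ^ (1 - a) := by
      rw [Real.div_rpow hs.le hx0'.le]
      have e1 : s = s ^ a * s ^ (1 - a) := by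
        rw [← Real.rpow_add hs]; simp
      have e2 : x ^ (a - 1) = (x ^ (1 - a))⁻¹ := by
        rw [← Real.rpow_neg hx0'.le]; congr 1; ring
      rw [e2]
      conv_lhs => rw [e1]
      field_simp
    have h3 : (s / x) ^ (1 - a) ≤ b1 ^ (1 - a) := by
      have : s / x ≤ b1 := h1.trans hβb1
      gcongr
    rw [hb1pow] at h3
    calc θ * (s / b) = K / b * (x ^ (a - 1) * s) := by rw [hθdef]; ring
      _ = K / b * (s ^ a * (s / x) ^ (1 - a)) := by rw [h2]
      _ ≤ K / b * (s ^ a * (b / (2 * K))) := by gcongr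
      _ = s ^ a / 2 := by field_simp
  -- the potential
  set Φ : ℝ × ℝ → ℝ≥0∞ := fun w => ENNReal.ofReal (Real.exp (θ * bigA b R w)) with hΦ
  have hΦm : Measurable Φ := by
    rw [hΦ]
    unfold bigA
    fun_prop
  have hρ : ENNReal.ofReal (1 - θ * (δ / 2)) ≤ 1 := by
    rw [← ENNReal.ofReal_one]
    apply ENNReal.ofReal_le_ofReal
    have : 0 ≤ θ * (δ / 2) := by positivity
    linarith
  have hiter := lp_iter (μ := μ) (ν := ν) hΦm hρ (B := β * x)
    (fun w hw0 hw1 => lp_drift ha0 ha1 hμ hν hb hb1 hR0 hM0 hincr hLM hcond hθ0.le hθ1 hθB hs1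
      hs2 hs3 hw0 hw1) n v hv0 hv1
  -- Markov
  have hAm : Measurable fun z : ℕ → ℝ × ℝ => bigA b R (pIter v z n) := by
    have h1 : Measurable (bigA b R) := by
      unfold bigA
      fun_prop
    exact h1.comp ((measurable_pIter n).comp (measurable_const.prodMk measurable_id))
  have hmark : (noise μ ν) (allLe (β * x) n ∩ {z | Y ≤ bigA b R (pIter v z n)}) ≤
      ENNReal.ofReal (Real.exp (-(θ * Y))) *
        ∫⁻ z, (allLe (β * x) n).indicator (fun z => Φ (pIter v z n)) z ∂(noise μ ν) := by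
    have hms : MeasurableSet (allLe (β * x) n ∩ {z | Y ≤ bigA b R (pIter v z n)}) := by
      apply (measurableSet_allLe _ _).inter
      exact measurableSet_le measurable_const hAm
    have hmi : Measurable fun z : ℕ → ℝ × ℝ =>
        (allLe (β * x) n).indicator (fun z => Φ (pIter v z n)) z :=
      (hΦm.comp ((measurable_pIter n).comp (measurable_const.prodMk measurable_id))).indicator
        (measurableSet_allLe _ _)
    rw [← lintegral_const_mul _ hmi, ← lintegral_indicator_one hms]
    apply lintegral_mono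
    intro z
    beta_reduce
    by_cases hz : z ∈ allLe (β * x) n ∩ {z | Y ≤ bigA b R (pIter v z n)}
    · rw [Set.indicator_of_mem hz, Set.indicator_of_mem hz.1]
      have h1 : Y ≤ bigA b R (pIter v z n) := hz.2
      have h4 : θ * Y ≤ θ * bigA b R (pIter v z n) := by gcongr
      rw [hΦ, ← ENNReal.ofReal_mul (Real.exp_pos _).le, ← Real.exp_add]
      change (1 : ℝ≥0∞) ≤ _
      rw [ENNReal.one_le_ofReal]
      apply Real.one_le_exp
      linarith
    · rw [Set.indicator_of_notMem hz]
      exact zero_le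
  refine hmark.trans ?_
  -- final computation
  have hpow : (1 - θ * (δ / 2)) ^ n ≤ Real.exp (-(θ * (δ / 2 * n))) := by
    have e1 : 1 - θ * (δ / 2) ≤ Real.exp (-(θ * (δ / 2))) := by
      have := Real.add_one_le_exp (-(θ * (δ / 2)))
      linarith
    calc (1 - θ * (δ / 2)) ^ n ≤ (Real.exp (-(θ * (δ / 2)))) ^ n := by
          apply pow_le_pow_left₀ (by linarith) e1
      _ = Real.exp (-(θ * (δ / 2 * n))) := by
          rw [← Real.exp_nat_mul]
          congr 1
          ring
  calc ENNReal.ofReal (Real.exp (-(θ * Y))) *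
        ∫⁻ z, (allLe (β * x) n).indicator (fun z => Φ (pIter v z n)) z ∂(noise μ ν)
      ≤ ENNReal.ofReal (Real.exp (-(θ * Y))) *
        (ENNReal.ofReal (1 - θ * (δ / 2)) ^ n * Φ v +
          n * ENNReal.ofReal (2 * Real.exp (L + (L + R) / b))) := by
        gcongr
    _ = ENNReal.ofReal (Real.exp (-(θ * Y)) *
        ((1 - θ * (δ / 2)) ^ n * Real.exp (θ * bigA b R v) +
          n * (2 * Real.exp (L + (L + R) / b)))) := by
        have hn1 : 0 ≤ (1 - θ * (δ / 2)) ^ n := pow_nonneg (by linarith) n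
        rw [hΦ, ← ENNReal.ofReal_pow (by linarith), ← ENNReal.ofReal_mul hn1,
          ← ENNReal.ofReal_natCast n, ← ENNReal.ofReal_mul (by positivity),
          ← ENNReal.ofReal_add (by positivity) (by positivity),
          ← ENNReal.ofReal_mul (by positivity)]
    _ ≤ _ := by
        apply ENNReal.ofReal_le_ofReal
        set G := max (bigA b R v - δ / 2 * n) 0 with hG
        have hG0 : 0 ≤ G := le_max_right _ _
        have e1 : (1 - θ * (δ / 2)) ^ n * Real.exp (θ * bigA b R v) ≤ Real.exp (θ * G) := by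
          calc (1 - θ * (δ / 2)) ^ n * Real.exp (θ * bigA b R v)
              ≤ Real.exp (-(θ * (δ / 2 * n))) * Real.exp (θ * bigA b R v) := by
                gcongr
            _ = Real.exp (θ * (bigA b R v - δ / 2 * n)) := by
                rw [← Real.exp_add]
                congr 1
                ring
            _ ≤ _ := by
                apply Real.exp_le_exp.mpr
                gcongr
                exact le_max_left _ _
        have e2 : 1 ≤ Real.exp (θ * G) := Real.one_le_exp (by positivity)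
        have e3 : (n : ℝ) * (2 * Real.exp (L + (L + R) / b)) ≤
            n * (2 * Real.exp (L + (L + R) / b)) * Real.exp (θ * G) := by
          have : 0 ≤ (n : ℝ) * (2 * Real.exp (L + (L + R) / b)) := by positivity
          nlinarith
        have e4 : (1 - θ * (δ / 2)) ^ n * Real.exp (θ * bigA b R v) +
            n * (2 * Real.exp (L + (L + R) / b)) ≤ C * (n + 1) * Real.exp (θ * G) := by
          have hn0 : (0 : ℝ) ≤ n := Nat.cast_nonneg n
          have e5 : Real.exp (θ * G) + n * (2 * Real.exp (L + (L + R) / b)) * Real.exp (θ * G) ≤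
              C * (n + 1) * Real.exp (θ * G) := by
            have e6 : 0 ≤ Real.exp (θ * G) := (Real.exp_pos _).le
            have e7 : 1 + n * (2 * Real.exp (L + (L + R) / b)) ≤ C * (n + 1) := by
              rw [hC]
              have := Real.exp_pos (L + (L + R) / b)
              nlinarith
            nlinarith
          linarith
        calc Real.exp (-(θ * Y)) *
              ((1 - θ * (δ / 2)) ^ n * Real.exp (θ * bigA b R v) +
                n * (2 * Real.exp (L + (L + R) / b)))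
            ≤ Real.exp (-(θ * Y)) * (C * (n + 1) * Real.exp (θ * G)) := by
              apply mul_le_mul_of_nonneg_left e4 (Real.exp_pos _).le
          _ = C * (n + 1) * (Real.exp (-(θ * Y)) * Real.exp (θ * G)) := by ring
          _ = _ := by
              rw [← Real.exp_add]
              congr 2
              ring

end stoch

end Pool.Agent.Lib.MP_04add8_pr
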