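import Mathlib
import Pool.Agent.Lib.MP_04add8_pr.One.BadBig

open MeasureTheory ProbabilityTheory Filter Topology
open scoped ENNReal

set_option linter.unusedSectionVars false

namespace Pool.Agent.Lib.MP_04add8_pr

/-- the cost dominates the power of the linear potential -/
lemma PairTail_le_cost {a b R : ℝ} (ha0 : 0 < a) (ha1 : a < 1) (hb : 0 < b)
    (hθ : (1 + 1 / b) ^ a ≤ 2) {w : ℝ × ℝ} (h0 : 0 ≤ w.1) (h1 : w.1 ≤ w.2) :
    (w.2 + w.1 / b) ^ a ≤ cost a b R w := by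
  have hw2 : 0 ≤ w.2 := h0.trans h1
  unfold cost
  apply le_min
  · have h2 : w.2 + w.1 / b ≤ bigA b R w := by
      unfold bigA
      have h3 : w.1 ≤ √(w.1 ^ 2 + R ^ 2) := by
        apply Real.le_sqrt_of_sq_le; nlinarith [sq_nonneg R]
      have h4 : w.1 / b ≤ √(w.1 ^ 2 + R ^ 2) / b := by gcongr
      linarith
    gcongr
  · have h2 := BadBig_one ha0 ha1 hb h0 h1
    have h3 : ((1 + 1 / b) ^ a - 1) * w.1 ^ a ≤ 1 * w.1 ^ a := by
      have : 0 ≤ w.1 ^ a := by positivity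
      gcongr
      linarith
    linarith

section stoch

variable {a : ℝ} {μ ν : Measure ℝ} [IsProbabilityMeasure μ] [IsProbabilityMeasure ν]

theorem pair_tail (ha0 : 0 < a) (ha1 : a < 1)
    (hμ : ∀ x, 0 ≤ x → μ (Set.Ioi x) = ENNReal.ofReal (Real.exp (-(x ^ a))))
    (hν : ν (Set.Iio 0) = 0) (hνi : Integrable (fun t : ℝ => t) ν)
    (hgt : (∫ t, t ∂ν) < ∫ s, s ∂μ) {b : ℝ} (hb : 0 < b) (hb1 : b < 1)
    (hbm : (∫ s, s ∂μ) < (1 + b) * ∫ t, t ∂ν) (hθ : (1 + 1 / b) ^ a ≤ 2)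
    {lam : ℝ} (hl2 : 1 / 2 ≤ lam) (hl1 : lam < 1) :
    ∃ C : ℝ, 0 ≤ C ∧ ∀ π : Measure (ℝ × ℝ), IsStationaryKW μ ν π → ∀ Y : ℝ,
      (π.prod (noise μ ν)) {q | Y ≤ (q.1.2 + q.1.1 / b) ^ a + (q.2 0).1 ^ a} ≤
        ENNReal.ofReal (C * Real.exp (-(lam * Y))) := by
  obtain ⟨R, k, hR, hk, hdr⟩ := drift_uniform ha0 ha1 hμ hν hνi hgt hb hb1 hbm
  obtain ⟨CL, hCL, hmean⟩ := BadBig_mean ha0 ha1 hb hR hk hdr hl2 hl1
  have hl0 : 0 < lam := by linarith
  have hl1' : 0 < 1 - lam := by linarith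
  refine ⟨CL * (1 / (1 - lam)), by positivity, ?_⟩
  intro π hπ Y
  have hprob : IsProbabilityMeasure π := hπ.1
  set B : Set ((ℝ × ℝ) × (ℕ → ℝ × ℝ)) :=
    {q | Y ≤ (q.1.2 + q.1.1 / b) ^ a + (q.2 0).1 ^ a} with hB
  have hBm : MeasurableSet B := by
    refine measurableSet_le measurable_const ?_
    fun_prop
  have hcm := measurable_cost a b R
  have hint : ∫⁻ z : ℕ → ℝ × ℝ, ENNReal.ofReal (Real.exp (lam * (z 0).1 ^ a)) ∂(noise μ ν) ≤
      ENNReal.ofReal (1 / (1 - lam)) := by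
    rw [lintegral_noise_cons (by fun_prop)]
    have h1 : ∀ (p : ℝ × ℝ) (z : ℕ → ℝ × ℝ), gcons p z 0 = p := fun p z => rfl
    simp only [h1, lintegral_const, measure_univ, mul_one]
    rw [lintegral_prod _ (by fun_prop)]
    simp only [lintegral_const, measure_univ, mul_one]
    exact weibull_lintegral_exp ha0 hμ hl0.le hl1
  rw [Measure.prod_apply hBm]
  have hpoint : ∀ᵐ w ∂π, (noise μ ν) (Prod.mk w ⁻¹' B) ≤
      ENNReal.ofReal (Real.exp (-(lam * Y))) * (ENNReal.ofReal (Real.exp (lam * cost a b R w)) *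
        ENNReal.ofReal (1 / (1 - lam))) := by
    filter_upwards [hπ.ae_ordered] with w hw
    have hpre : MeasurableSet (Prod.mk w ⁻¹' B) := measurable_prodMk_left hBm
    have h1 : (noise μ ν) (Prod.mk w ⁻¹' B) ≤
        ∫⁻ z : ℕ → ℝ × ℝ, ENNReal.ofReal (Real.exp (-(lam * Y))) *
          (ENNReal.ofReal (Real.exp (lam * cost a b R w)) *
          ENNReal.ofReal (Real.exp (lam * (z 0).1 ^ a))) ∂(noise μ ν) := by
      rw [← lintegral_indicator_one hpre]
      apply lintegral_mono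
      intro z
      by_cases hz : z ∈ Prod.mk w ⁻¹' B
      · simp only
        rw [Set.indicator_of_mem hz, Pi.one_apply]
        have hz' : Y ≤ (w.2 + w.1 / b) ^ a + (z 0).1 ^ a := hz
        have h2 := PairTail_le_cost (R := R) ha0 ha1 hb hθ hw.1 hw.2
        rw [← ENNReal.ofReal_mul (by positivity), ← ENNReal.ofReal_mul (by positivity),
          ← Real.exp_add, ← Real.exp_add, ENNReal.one_le_ofReal, Real.one_le_exp_iff]
        have h3 : lam * Y ≤ lam * (cost a b R w + (z 0).1 ^ a) := by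
          refine mul_le_mul_of_nonneg_left ?_ hl0.le
          linarith
        linarith
      · simp only
        rw [Set.indicator_of_notMem hz]
        exact zero_le
    refine h1.trans ?_
    rw [lintegral_const_mul _ (by fun_prop), lintegral_const_mul _ (by fun_prop)]
    gcongr
  refine (lintegral_mono_ae hpoint).trans ?_
  rw [lintegral_const_mul _ (by fun_prop), lintegral_mul_const _ (by fun_prop)]
  calc ENNReal.ofReal (Real.exp (-(lam * Y))) *
        ((∫⁻ w, ENNReal.ofReal (Real.exp (lam * cost a b R w)) ∂π) *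
          ENNReal.ofReal (1 / (1 - lam)))
      ≤ ENNReal.ofReal (Real.exp (-(lam * Y))) *
        (ENNReal.ofReal CL * ENNReal.ofReal (1 / (1 - lam))) := by
        gcongr
        exact hmean π hπ
    _ = ENNReal.ofReal (CL * (1 / (1 - lam)) * Real.exp (-(lam * Y))) := by
        rw [← ENNReal.ofReal_mul (by positivity), ← ENNReal.ofReal_mul (by positivity)]
        congr 1
        ring

end stoch

end Pool.Agent.Lib.MP_04add8_pr
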