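import Mathlib
import Pool.Agent.Lib.MP_04add8_pr.One.Combine
import Pool.Agent.Lib.MP_04add8_pr.Crit.LinGen
import Pool.Agent.Lib.MP_04add8_pr.Crit.BackDet
import Pool.Agent.Lib.MP_04add8_pr.Crit.PairTail

/-!
# CritBack: how the chain gets close to `(0, x)`
-/

open MeasureTheory ProbabilityTheory Filter Topology
open scoped ENNReal

set_option linter.unusedSectionVars false

namespace Pool.Agent.Lib.MP_04add8_pr

namespace CB

lemma measurable_bigA (b R : ℝ) : Measurable (bigA b R) := by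
  unfold bigA
  fun_prop

lemma bigA_ge {b R : ℝ} (hb : 0 < b) (w : ℝ × ℝ) : w.2 ≤ bigA b R w := by
  unfold bigA
  have : 0 ≤ √(w.1 ^ 2 + R ^ 2) / b := by positivity
  linarith

lemma bigA_le {b R : ℝ} (hb : 0 < b) (hR : 0 < R) {w : ℝ × ℝ} (h0 : 0 ≤ w.1) :
    bigA b R w ≤ w.2 + w.1 / b + R / b := by
  unfold bigA
  have h1 : √(w.1 ^ 2 + R ^ 2) ≤ w.1 + R := by
    apply Real.sqrt_le_iff.mpr
    constructor
    · linarith
    · nlinarith
  have h2 : √(w.1 ^ 2 + R ^ 2) / b ≤ (w.1 + R) / b := by gcongr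
  rw [add_div] at h2
  linarith

lemma rpow_add_ge {a u y : ℝ} (ha0 : 0 < a) (ha1 : a < 1) (hu : 0 ≤ u) (hy : 0 ≤ y) :
    (u + y) ^ a ≤ u ^ a + y ^ a :=
  Real.rpow_add_le_add_rpow hu hy ha0.le ha1.le

/-- the last index below `n` satisfying a property -/
lemma exists_last {P : ℕ → Prop} {n : ℕ} (h : ∃ k < n, P k) :
    ∃ k < n, P k ∧ ∀ j, k < j → j < n → ¬ P j := by
  classical
  obtain ⟨k0, hk0, hPk0⟩ := h
  have hne : ((Finset.range n).filter P).Nonempty := ⟨k0, by simp [hk0, hPk0]⟩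
  have hmem := ((Finset.range n).filter P).max'_mem hne
  rw [Finset.mem_filter, Finset.mem_range] at hmem
  refine ⟨((Finset.range n).filter P).max' hne, hmem.1, hmem.2, ?_⟩
  intro j hj hjn hPj
  have hj2 : j ∈ (Finset.range n).filter P := by simp [hjn, hPj]
  have := ((Finset.range n).filter P).le_max' j hj2
  omega

section det

variable {a b R δ εm κ β ε g x : ℝ}

/-- the deterministic case analysis -/
lemma cases_back (ha0 : 0 < a) (ha1 : a < 1) (hb : 0 < b) (hb1 : b < 1) (hR : 0 < R)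
    (hεm : 0 < εm) (hκ0 : 0 < κ) (hκ1 : κ ≤ 1 / 4)
    (hβ0 : 0 < β) (hβ1 : β ≤ 1 / 4) (hε0 : 0 < ε) (hε1 : ε ≤ 1 / 4) (hεκ : ε ≤ κ)
    (hεm' : ε ≤ εm) (hεβ : ε ≤ β ^ a / 2) (hx : 0 < x) (n : ℕ)
    (hn : (1 + κ / 2) * x + R / b ≤ (1 - ε - κ) * x + δ * n)
    (hg1 : 1 + g ≤ 1 + β ^ a / 2) (hg2 : 1 + g ≤ (1 + εm) ^ a) (hg3 : 1 + g ≤ (1 + κ / 2) ^ a)
    {w : ℝ × ℝ} {z : ℕ → ℝ × ℝ} (h0 : 0 ≤ w.1) (h1 : w.1 ≤ w.2)
    (hz : ∀ k, 0 ≤ (z k).1 ∧ 0 ≤ (z k).2)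
    (hq1 : (pIter w z n).1 ≤ ε * x) (hq2 : (1 - ε) * x ≤ (pIter w z n).2)
    (hq3 : ¬ ∃ k < n, (pIter w z k).2 ≤ 2 * εm * x ∧ β * x < (z k).1 ∧
            ∀ j, k < j → j < n → (z j).1 ≤ β * x) :
    (z ∈ allLe (β * x) n ∧ (1 - ε) * x ≤ bigA b R (pIter w z n) ∧
      max (bigA b R w - δ * n) 0 ≤ (1 - ε - κ) * x) ∨
    ∃ k < n + 1, (1 + g) * x ^ a ≤
      ((pIter w z k).2 + (pIter w z k).1 / b) ^ a + (z k).1 ^ a := by
  have hxa : 0 < x ^ a := by positivity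
  by_cases hall : z ∈ allLe (β * x) n
  · by_cases hA : max (bigA b R w - δ * n) 0 ≤ (1 - ε - κ) * x
    · exact Or.inl ⟨hall, hq2.trans (bigA_ge hb _), hA⟩
    · right
      refine ⟨0, Nat.succ_pos _, ?_⟩
      push Not at hA
      have h2 : 0 ≤ (1 - ε - κ) * x := by
        have : 0 ≤ 1 - ε - κ := by linarith
        positivity
      have h3 : (1 - ε - κ) * x < bigA b R w - δ * n := by
        rcases lt_max_iff.1 hA with h | h
        · exact h
        · linarith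
      have h4 := bigA_le hb hR h0
      have h5 : (1 + κ / 2) * x ≤ w.2 + w.1 / b := by linarith
      have h6 : ((1 + κ / 2) * x) ^ a ≤ (w.2 + w.1 / b) ^ a := by gcongr
      rw [Real.mul_rpow (by positivity) hx.le] at h6
      have h7 : 0 ≤ (z 0).1 ^ a := Real.rpow_nonneg (hz 0).1 a
      have h8 : (1 + g) * x ^ a ≤ (1 + κ / 2) ^ a * x ^ a := by gcongr
      rw [pIter_zero]
      linarith
  · right
    have hex : ∃ k < n, β * x < (z k).1 := by
      by_contra hcon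
      push Not at hcon
      exact hall hcon
    obtain ⟨k, hkn, hkP, hkl⟩ := exists_last hex
    push Not at hkl
    have hlow : 2 * εm * x < (pIter w z k).2 := by
      by_contra hcon
      push Not at hcon
      exact hq3 ⟨k, hkn, hcon, hkP, hkl⟩
    refine ⟨k, Nat.lt_succ_of_lt hkn, ?_⟩
    obtain ⟨n', rfl⟩ : ∃ n', n = k + (n' + 1) := ⟨n - k - 1, by omega⟩
    have ho := pIter_ordered h0 h1 z k
    set W := pIter w z k with hW
    have hadd : pIter w z (k + (n' + 1)) = pIter W (fun i => z (k + i)) (n' + 1) :=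
      pIter_add w z k (n' + 1)
    rw [hadd] at hq1 hq2
    have hgap : (pIter W (fun i => z (k + i)) (n' + 1)).1 + β * x <
        (pIter W (fun i => z (k + i)) (n' + 1)).2 := by
      have : (ε + β) * x < (1 - ε) * x := by
        apply mul_lt_mul_of_pos_right _ hx
        linarith
      nlinarith
    have hbd := back_det (by positivity : 0 ≤ β * x) ho.1 ho.2 (z := fun i => z (k + i))
      (fun i => hz (k + i)) (n := n')
      (fun i hi1 hi2 => hkl (k + i) (by omega) (by omega)) hgap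
    have hmx : (1 - ε) * x ≤ max (W.1 + (z k).1) W.2 := hq2.trans hbd
    have hU1 : W.1 ≤ W.1 / b := by
      rw [le_div_iff₀ hb]
      nlinarith [ho.1]
    have hU0 : 0 ≤ W.1 / b := by
      have := ho.1
      positivity
    have hzk : 0 ≤ (z k).1 := (hz k).1
    have hW2 : 0 ≤ W.2 := ho.1.trans ho.2
    rcases le_max_iff.1 hmx with h | h
    · -- the sum is large
      have e1 : (1 + εm) * x ≤ (W.2 + W.1 / b) + (z k).1 := by
        have : (1 - ε) * x + 2 * εm * x ≤ (W.2 + W.1 / b) + (z k).1 := by linarith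
        have e2 : (1 + εm) * x ≤ (1 - ε) * x + 2 * εm * x := by nlinarith
        linarith
      have e3 : ((1 + εm) * x) ^ a ≤ ((W.2 + W.1 / b) + (z k).1) ^ a := by gcongr
      rw [Real.mul_rpow (by positivity) hx.le] at e3
      have e4 := rpow_add_ge (u := W.2 + W.1 / b) (y := (z k).1) ha0 ha1 (by linarith) hzk
      have e5 : (1 + g) * x ^ a ≤ (1 + εm) ^ a * x ^ a := by gcongr
      linarith
    · -- the maximum was large already
      have e1 : (1 - ε) * x ≤ W.2 + W.1 / b := by linarith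
      have e2 : ((1 - ε) * x) ^ a ≤ (W.2 + W.1 / b) ^ a := by
        have : 0 ≤ (1 - ε) * x := by
          have : 0 ≤ 1 - ε := by linarith
          positivity
        gcongr
      rw [Real.mul_rpow (by linarith) hx.le] at e2
      have e3 : (1 - ε) ≤ (1 - ε) ^ a := by
        have := Real.rpow_le_rpow_of_exponent_ge (x := 1 - ε) (by linarith) (by linarith) ha1.le
        rwa [Real.rpow_one] at this
      have e4 : (β * x) ^ a ≤ (z k).1 ^ a := by gcongr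
      rw [Real.mul_rpow hβ0.le hx.le] at e4
      have e5 : (1 + g) * x ^ a ≤ (1 + β ^ a / 2) * x ^ a := by gcongr
      have e6 : (1 - ε) * x ^ a ≤ (1 - ε) ^ a * x ^ a := by gcongr
      have e7 : ε * x ^ a ≤ β ^ a / 2 * x ^ a := by gcongr
      nlinarith

end det

section stoch

variable {a : ℝ} {μ ν : Measure ℝ} [IsProbabilityMeasure μ] [IsProbabilityMeasure ν]

/-- a pointwise bound for small jobs, integrated over the stationary law -/
lemma lin_int {π : Measure (ℝ × ℝ)} (hπ : IsStationaryKW μ ν π) {b R δ B C Θ Y Z : ℝ} {n : ℕ}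
    (hΘ : 0 ≤ Θ) (hC : 0 ≤ C)
    (h : ∀ v : ℝ × ℝ, 0 ≤ v.1 → v.1 ≤ v.2 →
      (noise μ ν) (allLe B n ∩ {z | Y ≤ bigA b R (pIter v z n)}) ≤
          ENNReal.ofReal (C * (n + 1) *
            Real.exp (-(Θ * (Y - max (bigA b R v - δ * n) 0))))) :
    (π.prod (noise μ ν)) {q | q.2 ∈ allLe B n ∧ Y ≤ bigA b R (pIter q.1 q.2 n) ∧
      max (bigA b R q.1 - δ * n) 0 ≤ Z} ≤
      ENNReal.ofReal (C * (n + 1) * Real.exp (-(Θ * (Y - Z)))) := by
  have hp : IsProbabilityMeasure π := hπ.1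
  have hmS : MeasurableSet {q : (ℝ × ℝ) × (ℕ → ℝ × ℝ) | q.2 ∈ allLe B n ∧
      Y ≤ bigA b R (pIter q.1 q.2 n) ∧ max (bigA b R q.1 - δ * n) 0 ≤ Z} := by
    have hA1 : Measurable fun q : (ℝ × ℝ) × (ℕ → ℝ × ℝ) => bigA b R (pIter q.1 q.2 n) :=
      (measurable_bigA b R).comp (measurable_pIter n)
    have hA2 : Measurable fun q : (ℝ × ℝ) × (ℕ → ℝ × ℝ) => bigA b R q.1 :=
      (measurable_bigA b R).comp measurable_fst
    have hA3 : Measurable fun q : (ℝ × ℝ) × (ℕ → ℝ × ℝ) => max (bigA b R q.1 - δ * n) 0 :=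
      (hA2.sub measurable_const).max measurable_const
    have hs1 : MeasurableSet {q : (ℝ × ℝ) × (ℕ → ℝ × ℝ) | q.2 ∈ allLe B n} :=
      measurable_snd (measurableSet_allLe _ _)
    have hs2 : MeasurableSet {q : (ℝ × ℝ) × (ℕ → ℝ × ℝ) | Y ≤ bigA b R (pIter q.1 q.2 n)} :=
      measurableSet_le measurable_const hA1
    have hs3 : MeasurableSet {q : (ℝ × ℝ) × (ℕ → ℝ × ℝ) | max (bigA b R q.1 - δ * n) 0 ≤ Z} :=
      measurableSet_le hA3 measurable_const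
    exact hs1.inter (hs2.inter hs3)
  rw [Measure.prod_apply hmS]
  have hpt : ∀ᵐ w ∂π, (noise μ ν) (Prod.mk w ⁻¹' {q : (ℝ × ℝ) × (ℕ → ℝ × ℝ) | q.2 ∈ allLe B n ∧
      Y ≤ bigA b R (pIter q.1 q.2 n) ∧ max (bigA b R q.1 - δ * n) 0 ≤ Z}) ≤
      ENNReal.ofReal (C * (n + 1) * Real.exp (-(Θ * (Y - Z)))) := by
    filter_upwards [hπ.ae_ordered] with w hw
    by_cases hwZ : max (bigA b R w - δ * n) 0 ≤ Z
    · refine le_trans (measure_mono ?_) ((h w hw.1 hw.2).trans (ENNReal.ofReal_le_ofReal ?_))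
      · rintro z ⟨hz1, hz2, _⟩
        exact ⟨hz1, hz2⟩
      · gcongr
    · have : (Prod.mk w ⁻¹' {q : (ℝ × ℝ) × (ℕ → ℝ × ℝ) | q.2 ∈ allLe B n ∧
          Y ≤ bigA b R (pIter q.1 q.2 n) ∧ max (bigA b R q.1 - δ * n) 0 ≤ Z}) = ∅ := by
        ext z
        simp only [Set.mem_preimage, Set.mem_ofPred_eq, Set.mem_empty_iff_false, iff_false]
        rintro ⟨_, _, h3⟩
        exact hwZ h3
      rw [this, measure_empty]
      exact zero_le
  refine (lintegral_mono_ae hpt).trans ?_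
  rw [lintegral_const, measure_univ, mul_one]

/-- a pair bound at some time below `n` -/
lemma pair_union {π : Measure (ℝ × ℝ)} (hπ : IsStationaryKW μ ν π) {b Y : ℝ} {T : ℝ≥0∞}
    (h : (π.prod (noise μ ν)) {q | Y ≤ (q.1.2 + q.1.1 / b) ^ a + (q.2 0).1 ^ a} ≤ T) (n : ℕ) :
    (π.prod (noise μ ν)) {q | ∃ k < n, Y ≤
      ((pIter q.1 q.2 k).2 + (pIter q.1 q.2 k).1 / b) ^ a + (q.2 k).1 ^ a} ≤ n * T := by
  have hp : IsProbabilityMeasure π := hπ.1
  have hset : {q : (ℝ × ℝ) × (ℕ → ℝ × ℝ) | ∃ k < n, Y ≤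
      ((pIter q.1 q.2 k).2 + (pIter q.1 q.2 k).1 / b) ^ a + (q.2 k).1 ^ a} =
      ⋃ k ∈ Finset.range n, pathShift k ⁻¹' {q | Y ≤ (q.1.2 + q.1.1 / b) ^ a +
        (q.2 0).1 ^ a} := by
    ext q
    simp [pathShift]
  have hm : MeasurableSet {q : (ℝ × ℝ) × (ℕ → ℝ × ℝ) | Y ≤ (q.1.2 + q.1.1 / b) ^ a +
        (q.2 0).1 ^ a} := by
    refine measurableSet_le measurable_const ?_
    fun_prop
  rw [hset]
  refine (measure_biUnion_finset_le _ _).trans ?_
  have : ∀ k ∈ Finset.range n, (π.prod (noise μ ν)) (pathShift k ⁻¹' {q | Y ≤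
      (q.1.2 + q.1.1 / b) ^ a + (q.2 0).1 ^ a}) ≤ T := by
    intro k _
    rw [(hπ.measurePreserving_path k).measure_preimage hm.nullMeasurableSet]
    exact h
  refine (Finset.sum_le_sum this).trans ?_
  rw [Finset.sum_const, Finset.card_range, nsmul_eq_mul]

end stoch

end CB

section stoch

variable {a : ℝ} {μ ν : Measure ℝ} [IsProbabilityMeasure μ] [IsProbabilityMeasure ν]

open CB in
theorem crit_back (ha0 : 0 < a) (ha1 : a < 1)
    (hμ : ∀ x, 0 ≤ x → μ (Set.Ioi x) = ENNReal.ofReal (Real.exp (-(x ^ a))))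
    (hν : ν (Set.Iio 0) = 0) (hνi : Integrable (fun t : ℝ => t) ν)
    (hm : 0 < ∫ t, t ∂ν)
    (hgt : (∫ t, t ∂ν) < ∫ s, s ∂μ) (hlt : (∫ s, s ∂μ) < 2 * ∫ t, t ∂ν)
    (h2 : ((∫ s, s ∂μ) / ((∫ s, s ∂μ) - ∫ t, t ∂ν)) ^ a = 2)
    {εm εw : ℝ} (hεm : 0 < εm) (hεm8 : εm ≤ 1 / 8) (hεw : 0 < εw) :
    ∃ β0 : ℝ, 0 < β0 ∧ ∀ β : ℝ, 0 < β → β ≤ β0 → ∃ ε c : ℝ, 0 < ε ∧ 0 < c ∧
      ∀ᶠ x : ℝ in atTop, ∀ π : Measure (ℝ × ℝ), IsStationaryKW μ ν π →
        (π.prod (noise μ ν)) {q | (pIter q.1 q.2 ⌊εw * x⌋₊).1 ≤ ε * x ∧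
          (1 - ε) * x ≤ (pIter q.1 q.2 ⌊εw * x⌋₊).2 ∧
          ¬ ∃ k < ⌊εw * x⌋₊, (pIter q.1 q.2 k).2 ≤ 2 * εm * x ∧ β * x < (q.2 k).1 ∧
            ∀ j, k < j → j < ⌊εw * x⌋₊ → (q.2 j).1 ≤ β * x} ≤
          ENNReal.ofReal (Real.exp (-((1 + c) * x ^ a))) := by
  obtain ⟨b, hb, hb1, hbm⟩ := exists_b hm hgt hlt
  have hEm : 0 < (∫ s, s ∂μ) - ∫ t, t ∂ν := by linarith
  have hθ : (1 + 1 / b) ^ a ≤ 2 := by
    rw [← h2]
    apply Real.rpow_le_rpow (by positivity) _ ha0.le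
    rw [le_div_iff₀ hEm]
    have : (1 + 1 / b) * ((∫ s, s ∂μ) - ∫ t, t ∂ν) =
        ((∫ s, s ∂μ) - ∫ t, t ∂ν) + ((∫ s, s ∂μ) - ∫ t, t ∂ν) / b := by ring
    rw [this]
    have h3 : ((∫ s, s ∂μ) - ∫ t, t ∂ν) / b ≤ ∫ t, t ∂ν := by
      rw [div_le_iff₀ hb]
      linarith
    linarith
  obtain ⟨R, δ, hR, hδ, hlin⟩ := lin_gen ha0 ha1 hμ hν hνi hm hgt hb hb1 hbm
  set κ := min (δ * εw / 4) (1 / 4) with hκ
  have hκ0 : 0 < κ := lt_min (by positivity) (by norm_num)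
  have hκ1 : κ ≤ 1 / 4 := min_le_right _ _
  have hκ2 : 4 * κ ≤ δ * εw := by
    have := min_le_left (δ * εw / 4) (1 / 4)
    linarith
  obtain ⟨β1, C1, x1, hβ1, hC1, hx1, hL⟩ := hlin (2 / κ) (by positivity)
  refine ⟨min β1 (1 / 4), lt_min hβ1 (by norm_num), ?_⟩
  intro β hβ hββ
  have hββ1 : β ≤ β1 := hββ.trans (min_le_left _ _)
  have hβ4 : β ≤ 1 / 4 := hββ.trans (min_le_right _ _)
  have hβa : 0 < β ^ a := by positivity
  -- the gain
  set g := min (β ^ a / 2) (min ((1 + εm) ^ a - 1) ((1 + κ / 2) ^ a - 1)) with hg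
  have hg0 : 0 < g := by
    refine lt_min (by positivity) (lt_min ?_ ?_)
    · have := Real.one_lt_rpow (show 1 < 1 + εm by linarith) ha0
      linarith
    · have := Real.one_lt_rpow (show 1 < 1 + κ / 2 by linarith) ha0
      linarith
  have hg1 : 1 + g ≤ 1 + β ^ a / 2 := by
    have := min_le_left (β ^ a / 2) (min ((1 + εm) ^ a - 1) ((1 + κ / 2) ^ a - 1))
    linarith
  have hg2 : 1 + g ≤ (1 + εm) ^ a := by
    have := (min_le_right (β ^ a / 2) (min ((1 + εm) ^ a - 1) ((1 + κ / 2) ^ a - 1))).trans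
      (min_le_left _ _)
    linarith
  have hg3 : 1 + g ≤ (1 + κ / 2) ^ a := by
    have := (min_le_right (β ^ a / 2) (min ((1 + εm) ^ a - 1) ((1 + κ / 2) ^ a - 1))).trans
      (min_le_right _ _)
    linarith
  set lam := (1 + g / 2) / (1 + g) with hlam
  have hlam1 : lam < 1 := by
    rw [hlam, div_lt_one (by positivity)]; linarith
  have hlam2 : 1 / 2 ≤ lam := by
    rw [hlam, le_div_iff₀ (by positivity)]; linarith
  have hlamg : lam * (1 + g) = 1 + g / 2 := by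
    rw [hlam]; field_simp
  obtain ⟨C2, hC2, hP⟩ := pair_tail ha0 ha1 hμ hν hνi hgt hb hb1 hbm hθ hlam2 hlam1
  set ε := min (min κ εm) (β ^ a / 2) with hε
  have hε0 : 0 < ε := lt_min (lt_min hκ0 hεm) (by positivity)
  have hεκ : ε ≤ κ := (min_le_left _ _).trans (min_le_left _ _)
  have hεm' : ε ≤ εm := (min_le_left _ _).trans (min_le_right _ _)
  have hεβ : ε ≤ β ^ a / 2 := min_le_right _ _
  have hε4 : ε ≤ 1 / 4 := hεκ.trans hκ1
  set g' := min (g / 2) 1 with hg'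
  have hg'0 : 0 < g' := lt_min (by positivity) (by norm_num)
  refine ⟨ε, g' / 2, hε0, by positivity, ?_⟩
  -- polynomial factors
  have hpoly := (tendsto_rpow_mul_exp_neg_rpow ha0 (show 0 < g' / 2 by positivity) 1).const_mul
    ((C1 + C2) * (εw + 1))
  rw [mul_zero] at hpoly
  have hbig : ∀ᶠ x : ℝ in atTop, R / b + δ ≤ κ / 2 * x := by
    filter_upwards [eventually_ge_atTop ((R / b + δ) / (κ / 2))] with x hx
    rw [div_le_iff₀ (by positivity)] at hx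
    linarith
  filter_upwards [hpoly.eventually_le_const (show (0 : ℝ) < 1 by norm_num), hbig,
    eventually_ge_atTop 1, eventually_ge_atTop x1] with x hxp hxb hx1' hxx π hπ
  have hp : IsProbabilityMeasure π := hπ.1
  have hx0 : 0 < x := by linarith
  have hxa : 0 < x ^ a := by positivity
  set n := ⌊εw * x⌋₊ with hn
  have hn1 : (n : ℝ) ≤ εw * x := Nat.floor_le (by positivity)
  have hn2 : εw * x < n + 1 := Nat.lt_floor_add_one _
  have hcond : (1 + κ / 2) * x + R / b ≤ (1 - ε - κ) * x + δ * n := by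
    have e1 : δ * (εw * x - 1) ≤ δ * n := by
      gcongr; linarith
    have e2 : 4 * κ * x ≤ δ * εw * x := by gcongr
    have e3 : ε * x ≤ κ * x := by gcongr
    nlinarith
  -- inclusion
  have hsub : ∀ᵐ q ∂(π.prod (noise μ ν)), q ∈ {q : (ℝ × ℝ) × (ℕ → ℝ × ℝ) |
      (pIter q.1 q.2 n).1 ≤ ε * x ∧ (1 - ε) * x ≤ (pIter q.1 q.2 n).2 ∧
      ¬ ∃ k < n, (pIter q.1 q.2 k).2 ≤ 2 * εm * x ∧ β * x < (q.2 k).1 ∧
        ∀ j, k < j → j < n → (q.2 j).1 ≤ β * x} →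
      q ∈ {q : (ℝ × ℝ) × (ℕ → ℝ × ℝ) | q.2 ∈ allLe (β * x) n ∧
        (1 - ε) * x ≤ bigA b R (pIter q.1 q.2 n) ∧
        max (bigA b R q.1 - δ * n) 0 ≤ (1 - ε - κ) * x} ∪
      {q | ∃ k < n + 1, (1 + g) * x ^ a ≤
        ((pIter q.1 q.2 k).2 + (pIter q.1 q.2 k).1 / b) ^ a + (q.2 k).1 ^ a} := by
    filter_upwards [ae_path ha0 hμ hν hπ] with q hq hmem
    obtain ⟨hm1, hm2, hm3⟩ := hmem
    exact cases_back ha0 ha1 hb hb1 hR hεm hκ0 hκ1 hβ hβ4 hε0 hε4 hεκ hεm' hεβ hx0 n hcond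
      hg1 hg2 hg3 hq.1.1 hq.1.2 hq.2 hm1 hm2 hm3
  have hlint := lin_int hπ (b := b) (R := R) (δ := δ) (B := β * x) (C := C1)
    (Θ := 2 / κ * x ^ (a - 1)) (Y := (1 - ε) * x) (Z := (1 - ε - κ) * x) (n := n)
    (by positivity) hC1 (fun v hv0 hv1 => hL β hβ hββ1 x hxx v hv0 hv1 n _)
  have hpair := pair_union (a := a) hπ (b := b) (hP π hπ ((1 + g) * x ^ a)) (n + 1)
  have hexp1 : 2 / κ * x ^ (a - 1) * ((1 - ε) * x - (1 - ε - κ) * x) = 2 * x ^ a := by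
    have : x ^ a = x ^ (a - 1) * x := by
      rw [Real.rpow_sub_one hx0.ne']; field_simp
    rw [this]
    field_simp
    ring
  have hexp2 : lam * ((1 + g) * x ^ a) = (1 + g / 2) * x ^ a := by
    rw [← mul_assoc, hlamg]
  rw [hexp1] at hlint
  rw [hexp2] at hpair
  refine (measure_mono_ae hsub).trans ((measure_union_le _ _).trans ?_)
  refine (add_le_add hlint hpair).trans ?_
  rw [← ENNReal.ofReal_natCast (n + 1), ← ENNReal.ofReal_mul (by positivity),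
    ← ENNReal.ofReal_add (by positivity) (by positivity)]
  apply ENNReal.ofReal_le_ofReal
  have f1 : Real.exp (-(2 * x ^ a)) ≤ Real.exp (-((1 + g') * x ^ a)) := by
    apply Real.exp_le_exp.mpr
    have : g' ≤ 1 := min_le_right _ _
    nlinarith
  have f2 : Real.exp (-((1 + g / 2) * x ^ a)) ≤ Real.exp (-((1 + g') * x ^ a)) := by
    apply Real.exp_le_exp.mpr
    have : g' ≤ g / 2 := min_le_left _ _
    nlinarith
  have f3 : Real.exp (-((1 + g') * x ^ a)) = Real.exp (-(g' / 2 * x ^ a)) *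
      Real.exp (-((1 + g' / 2) * x ^ a)) := by
    rw [← Real.exp_add]
    congr 1
    ring
  have f4 : (n : ℝ) + 1 ≤ (εw + 1) * x := by nlinarith
  rw [Real.rpow_one] at hxp
  push_cast
  calc C1 * (↑n + 1) * Real.exp (-(2 * x ^ a)) +
        (↑n + 1) * (C2 * Real.exp (-((1 + g / 2) * x ^ a)))
      ≤ C1 * (↑n + 1) * Real.exp (-((1 + g') * x ^ a)) +
        (↑n + 1) * (C2 * Real.exp (-((1 + g') * x ^ a))) := by gcongr
    _ = (C1 + C2) * (↑n + 1) * Real.exp (-((1 + g') * x ^ a)) := by ring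
    _ ≤ (C1 + C2) * ((εw + 1) * x) * Real.exp (-((1 + g') * x ^ a)) := by gcongr
    _ = ((C1 + C2) * (εw + 1) * (x * Real.exp (-(g' / 2 * x ^ a)))) *
        Real.exp (-((1 + g' / 2) * x ^ a)) := by rw [f3]; ring
    _ ≤ 1 * Real.exp (-((1 + g' / 2) * x ^ a)) := by gcongr
    _ = _ := one_mul _

end stoch

end Pool.Agent.Lib.MP_04add8_pr
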