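import Mathlib
import Pool.Agent.Lib.MP_04add8_pr.One.Combine

open MeasureTheory ProbabilityTheory Filter Topology
open scoped ENNReal

set_option linter.unusedSectionVars false

namespace Pool.Agent.Lib.MP_04add8_pr

/-- lower bound for the sum over the time since the big job -/
noncomputable def lowU (a : ℝ) (μ ν : Measure ℝ) [IsProbabilityMeasure μ]
    [IsProbabilityMeasure ν] (x B θ τ : ℝ) (M : ℕ) : ℝ≥0∞ :=
  ∑ n ∈ Finset.range M,
    ν (Set.Iic τ) * ENNReal.ofReal (Real.exp (-(wG a θ + θ * (B + τ)))) * midOne μ ν x B θ n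

variable {a : ℝ} {μ ν : Measure ℝ} [IsProbabilityMeasure μ] [IsProbabilityMeasure ν]

lemma lower_core_sum (ha0 : 0 < a) (ha1 : a < 1)
    (hμ : ∀ x, 0 ≤ x → μ (Set.Ioi x) = ENNReal.ofReal (Real.exp (-(x ^ a))))
    (hν : ν (Set.Iio 0) = 0) {x θ β B τ t D h η : ℝ} {N J : ℕ} (hx : 0 < x) (hθ : 0 < θ)
    (hh : 0 < h) (hD : 0 < D) (ht : 0 < t) (ht4 : t ≤ 1 / 4) (hB : 0 ≤ B) (hBθ : θ * B ≤ t)
    (hBx : B ≤ x / 2) (hτ : 0 ≤ τ) (hντ : ENNReal.ofReal (1 - t) ≤ ν (Set.Iic τ))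
    (hθτ : θ * τ ≤ t) (hθβ : θ ≤ β) (hβB : β * B ≤ η * t) (hηt : η * t ≤ 1)
    (hQ : ENNReal.ofReal ((1 - 2 * t) / (D * h)) ≤ ∑ n ∈ Finset.range J, lvlA μ ν B θ n)
    (hQ2 : ∑ n ∈ Finset.range (N + J), lvlA μ ν B θ n ≤ ENNReal.ofReal (2 / (D * h)))
    (hΦ1 : ENNReal.ofReal (1 - t) ≤ trPhi μ ν B β θ ^ N)
    (hΦ2 : (max 1 (trPhi μ ν B β θ)) ^ N ≤ ENNReal.ofReal (1 + t))
    (hΦ3 : (max 1 (trPhi μ ν B β θ)) ^ (N + J) ≤ ENNReal.ofReal 2)
    (hΦl : trPhi μ ν B (β - θ) θ ^ N ≤ ENNReal.ofReal (Real.exp (-(2 * θ * x))))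
    (hs1 : 2 * Real.exp (-(θ * x)) ≤ t) (hs2 : 4 * Real.exp (-((β - θ) * x / 2)) ≤ t) :
    ENNReal.ofReal (lowC η t * (Real.exp (-(wG a θ + x * (θ + β))) / (D * h))) ≤
      lowU a μ ν x B θ τ (N + J) := by
  have hμ0 : ∀ᵐ s ∂μ, 0 ≤ s := (weibull_ae_pos ha0 hμ).mono fun s hs => hs.le
  have hν0 : ∀ᵐ s ∂ν, 0 ≤ s := ae_nonneg_of_Iio hν
  have hβ0 : 0 ≤ β := hθ.le.trans hθβ
  have hDh : 0 < D * h := by positivity
  set Q := ∑ n ∈ Finset.range J, lvlA μ ν B θ n with hQdef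
  set S := ∑ n ∈ Finset.range (N + J), lvl μ ν B θ n x with hS
  set Mid := ∑ n ∈ Finset.range (N + J), midOne μ ν x B θ n with hMid
  have hQle : Q ≤ ENNReal.ofReal (2 / (D * h)) := by
    refine le_trans ?_ hQ2
    rw [hQdef]
    apply Finset.sum_le_sum_of_subset
    intro i hi
    rw [Finset.mem_range] at hi ⊢
    omega
  -- (1) the level recursion
  have s1 := lvl_lower (μ := μ) (ν := ν) hμ0 hν0 hB hθ.le hβ0 hθ.le N J hx.le (lam := θ)
  rw [← hQdef, ← hS] at s1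
  set A : ℝ := (1 - η * t) * ((1 - 2 * t) / (D * h)) * (1 - t) * Real.exp (-(β * x)) with hA
  have eB : 1 - η * t ≤ Real.exp (-(β * B)) := by
    have := Real.add_one_le_exp (-(β * B))
    linarith
  have s2 : ENNReal.ofReal A ≤ ENNReal.ofReal (Real.exp (-(β * B))) * Q *
        trPhi μ ν B β θ ^ N * ENNReal.ofReal (Real.exp (-(β * x))) := by
    have h1t : 0 ≤ 1 - t := by linarith
    have h2t : 0 ≤ (1 - 2 * t) / (D * h) := by
      apply div_nonneg _ hDh.le; linarith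
    have h3t : 0 ≤ 1 - η * t := by linarith
    rw [hA, ENNReal.ofReal_mul (by positivity), ENNReal.ofReal_mul (by positivity),
      ENNReal.ofReal_mul h3t]
    gcongr
  have s3 : ENNReal.ofReal (Real.exp (-(β * B))) * Q *
        trPhi μ ν B (β - θ) θ ^ N * ENNReal.ofReal (Real.exp (-((β - θ) * x))) ≤
      ENNReal.ofReal (t / (D * h) * Real.exp (-(β * x))) := by
    have e1 : ENNReal.ofReal (Real.exp (-(β * B))) ≤ 1 := by
      rw [← ENNReal.ofReal_one]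
      apply ENNReal.ofReal_le_ofReal
      rw [Real.exp_le_one_iff]
      have : 0 ≤ β * B := by positivity
      linarith
    calc ENNReal.ofReal (Real.exp (-(β * B))) * Q *
        trPhi μ ν B (β - θ) θ ^ N * ENNReal.ofReal (Real.exp (-((β - θ) * x)))
        ≤ 1 * ENNReal.ofReal (2 / (D * h)) * ENNReal.ofReal (Real.exp (-(2 * θ * x))) *
          ENNReal.ofReal (Real.exp (-((β - θ) * x))) := by gcongr
      _ = ENNReal.ofReal (2 / (D * h) * Real.exp (-(2 * θ * x)) *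
          Real.exp (-((β - θ) * x))) := by
          rw [one_mul, ← ENNReal.ofReal_mul (by positivity), ← ENNReal.ofReal_mul (by positivity)]
      _ ≤ _ := by
          apply ENNReal.ofReal_le_ofReal
          have e2 : 2 / (D * h) * Real.exp (-(2 * θ * x)) * Real.exp (-((β - θ) * x)) =
              (2 * Real.exp (-(θ * x))) / (D * h) * Real.exp (-(β * x)) := by
            have e3 : Real.exp (-(2 * θ * x)) * Real.exp (-((β - θ) * x)) =
                Real.exp (-(θ * x)) * Real.exp (-(β * x)) := by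
              rw [← Real.exp_add, ← Real.exp_add]
              congr 1
              ring
            calc 2 / (D * h) * Real.exp (-(2 * θ * x)) * Real.exp (-((β - θ) * x))
                = 2 / (D * h) * (Real.exp (-(2 * θ * x)) * Real.exp (-((β - θ) * x))) := by ring
              _ = _ := by rw [e3]; ring
          rw [e2]
          gcongr
  have s4 : ENNReal.ofReal (A - t / (D * h) * Real.exp (-(β * x))) ≤
      ENNReal.ofReal (1 + t) * S := by
    apply ofReal_sub_le (by positivity)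
    refine s2.trans (s1.trans ?_)
    gcongr
  -- (2) middle part
  have s5 : ENNReal.ofReal (Real.exp (-(θ * x))) * S ≤ Mid +
      ENNReal.ofReal (t / (D * h) * Real.exp (-((β + θ) * x))) := by
    have e1 : ENNReal.ofReal (Real.exp (-(θ * x))) * S ≤ Mid +
        ENNReal.ofReal (Real.exp (-(θ * x / 2))) *
          ∑ n ∈ Finset.range (N + J), lvl μ ν B θ n (3 / 2 * x) := by
      rw [hS, hMid, Finset.mul_sum, Finset.mul_sum, ← Finset.sum_add_distrib]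
      exact Finset.sum_le_sum fun n _ => mid_lower n
    refine e1.trans ?_
    gcongr
    have e2 := lvl_upper (μ := μ) (ν := ν) hθ.le hθβ (le_max_left 1 (trPhi μ ν B β θ))
      (le_max_right 1 (trPhi μ ν B β θ)) (N + J) (3 / 2 * x)
    calc ENNReal.ofReal (Real.exp (-(θ * x / 2))) *
          ∑ n ∈ Finset.range (N + J), lvl μ ν B θ n (3 / 2 * x)
        ≤ ENNReal.ofReal (Real.exp (-(θ * x / 2))) * (ENNReal.ofReal (2 / (D * h)) *
          ENNReal.ofReal 2 * ENNReal.ofReal (Real.exp (-(β * (3 / 2 * x))))) := by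
          gcongr
          exact e2.trans (by gcongr)
      _ = ENNReal.ofReal (Real.exp (-(θ * x / 2)) * (2 / (D * h) * 2 *
          Real.exp (-(β * (3 / 2 * x))))) := by
          rw [← ENNReal.ofReal_mul (by positivity), ← ENNReal.ofReal_mul (by positivity),
            ← ENNReal.ofReal_mul (by positivity)]
      _ ≤ _ := by
          apply ENNReal.ofReal_le_ofReal
          have e3 : Real.exp (-(θ * x / 2)) * (2 / (D * h) * 2 *
              Real.exp (-(β * (3 / 2 * x)))) =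
              (4 * Real.exp (-((β - θ) * x / 2))) / (D * h) * Real.exp (-((β + θ) * x)) := by
            have e4 : Real.exp (-(θ * x / 2)) * Real.exp (-(β * (3 / 2 * x))) =
                Real.exp (-((β - θ) * x / 2)) * Real.exp (-((β + θ) * x)) := by
              rw [← Real.exp_add, ← Real.exp_add]
              congr 1
              ring
            calc Real.exp (-(θ * x / 2)) * (2 / (D * h) * 2 * Real.exp (-(β * (3 / 2 * x))))
                = 4 / (D * h) * (Real.exp (-(θ * x / 2)) *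
                  Real.exp (-(β * (3 / 2 * x)))) := by ring
              _ = _ := by rw [e4]; ring
          rw [e3]
          gcongr
  set A2 : ℝ := Real.exp (-(θ * x)) * (A - t / (D * h) * Real.exp (-(β * x))) with hA2
  set b2 : ℝ := (1 + t) * (t / (D * h) * Real.exp (-((β + θ) * x))) with hb2
  have s6 : ENNReal.ofReal (A2 - b2) ≤ ENNReal.ofReal (1 + t) * Mid := by
    apply ofReal_sub_le (by positivity)
    rw [hA2, ENNReal.ofReal_mul (by positivity)]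
    calc ENNReal.ofReal (Real.exp (-(θ * x))) *
          ENNReal.ofReal (A - t / (D * h) * Real.exp (-(β * x)))
        ≤ ENNReal.ofReal (Real.exp (-(θ * x))) * (ENNReal.ofReal (1 + t) * S) := by gcongr
      _ = ENNReal.ofReal (1 + t) * (ENNReal.ofReal (Real.exp (-(θ * x))) * S) := by ring
      _ ≤ ENNReal.ofReal (1 + t) * (Mid +
          ENNReal.ofReal (t / (D * h) * Real.exp (-((β + θ) * x)))) := by gcongr
      _ = _ := by
          rw [mul_add, ← ENNReal.ofReal_mul (by positivity)]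
  -- (3) the probability
  have s7 : ENNReal.ofReal (1 - t) * ENNReal.ofReal ((1 - 2 * t) * Real.exp (-(wG a θ))) * Mid ≤
      lowU a μ ν x B θ τ (N + J) := by
    unfold lowU
    rw [hMid, Finset.mul_sum]
    apply Finset.sum_le_sum
    intro n _
    have e1 : (1 - 2 * t) * Real.exp (-(wG a θ)) ≤
        Real.exp (-(wG a θ + θ * (B + τ))) := by
      have e2 : Real.exp (-(wG a θ + θ * (B + τ))) =
          Real.exp (-(θ * (B + τ))) * Real.exp (-(wG a θ)) := by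
        rw [← Real.exp_add]; congr 1; ring
      rw [e2]
      have e3 := Real.add_one_le_exp (-(θ * (B + τ)))
      have e4 : 1 - 2 * t ≤ Real.exp (-(θ * (B + τ))) := by
        have : θ * (B + τ) = θ * B + θ * τ := by ring
        linarith
      gcongr
    gcongr
  -- (4) conclusion
  have ht1 : 0 < 1 + t := by linarith
  have s8 : ENNReal.ofReal ((1 - t) * ((1 - 2 * t) * Real.exp (-(wG a θ))) * (A2 - b2)) ≤
      ENNReal.ofReal (1 + t) * lowU a μ ν x B θ τ (N + J) := by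
    have h1t : 0 ≤ 1 - t := by linarith
    have h2t : 0 ≤ 1 - 2 * t := by linarith
    rw [ENNReal.ofReal_mul (by positivity), ENNReal.ofReal_mul h1t]
    calc ENNReal.ofReal (1 - t) * ENNReal.ofReal ((1 - 2 * t) * Real.exp (-(wG a θ))) *
          ENNReal.ofReal (A2 - b2)
        ≤ ENNReal.ofReal (1 - t) * ENNReal.ofReal ((1 - 2 * t) * Real.exp (-(wG a θ))) *
          (ENNReal.ofReal (1 + t) * Mid) := by gcongr
      _ = ENNReal.ofReal (1 + t) * (ENNReal.ofReal (1 - t) *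
          ENNReal.ofReal ((1 - 2 * t) * Real.exp (-(wG a θ))) * Mid) := by ring
      _ ≤ _ := by gcongr
  have e5 : lowC η t * (Real.exp (-(wG a θ + x * (θ + β))) / (D * h)) =
      (1 + t)⁻¹ * ((1 - t) * ((1 - 2 * t) * Real.exp (-(wG a θ))) * (A2 - b2)) := by
    have e6 : Real.exp (-(wG a θ + x * (θ + β))) = Real.exp (-(wG a θ)) *
        (Real.exp (-(θ * x)) * Real.exp (-(β * x))) := by
      rw [← Real.exp_add, ← Real.exp_add]; congr 1; ring
    have e7 : Real.exp (-((β + θ) * x)) = Real.exp (-(θ * x)) * Real.exp (-(β * x)) := by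
      rw [← Real.exp_add]; congr 1; ring
    rw [hA2, hb2, hA, e6, e7]
    unfold lowC
    field_simp
  rw [e5, ENNReal.ofReal_mul (by positivity)]
  calc ENNReal.ofReal (1 + t)⁻¹ *
        ENNReal.ofReal ((1 - t) * ((1 - 2 * t) * Real.exp (-(wG a θ))) * (A2 - b2))
      ≤ ENNReal.ofReal (1 + t)⁻¹ * (ENNReal.ofReal (1 + t) * lowU a μ ν x B θ τ (N + J)) := by gcongr
    _ = lowU a μ ν x B θ τ (N + J) := by
        rw [← mul_assoc, ← ENNReal.ofReal_mul (by positivity), inv_mul_cancel₀ ht1.ne',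
          ENNReal.ofReal_one, one_mul]

lemma lower_point_sum (ha0 : 0 < a) (ha1 : a < 1)
    (hμ : ∀ x, 0 ≤ x → μ (Set.Ioi x) = ENNReal.ofReal (Real.exp (-(x ^ a))))
    (hν : ν (Set.Iio 0) = 0) {x θ β t τ D d η A b C1 C2 : ℝ} {K : ℕ} (hK1 : 1 ≤ K)
    (hη2 : 2 < η) (hd : 0 < d) (hD : 0 < D) (ht : 0 < t) (ht4 : t ≤ 1 / 4) (hηt : η * t ≤ 1)
    (hτ : 0 ≤ τ) (hντ : ENNReal.ofReal (1 - t) ≤ ν (Set.Iic τ)) (hx1 : 1 ≤ x) (hθ : 0 < θ)
    (hC1 : 0 ≤ C1) (hC2 : 0 ≤ C2) (hb0 : 0 < b)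
    (hθh : (a * (η * x) ^ (a - 1)) / 2 ≤ θ ∧ θ ≤ 2 * (a * (η * x) ^ (a - 1)) ∧
      θ ≤ (1 + t / 2) * (a * (η * x) ^ (a - 1)))
    (hβ0 : 0 ≤ β) (hr1 : (1 + (η - 2) / 2) * θ ≤ β) (hr2 : β ≤ η * θ)
    (hθ1 : θ ≤ 1) (hθτ : θ ≤ t / (τ + 1)) (hθη : θ ≤ 1 / (η + 1))
    (hθd : θ ≤ d / (4 * (C1 * η ^ (K + 1) + 1)))
    (hM1a : 4 * t ≤ x * (a * (η * x) ^ (a - 1))) (hM1b : 2 * A ≤ x * (a * (η * x) ^ (a - 1)))
    (hM1c : 2 * t / (b * η) ≤ x * (a * (η * x) ^ (a - 1)))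
    (hM1d : 2 * |Real.log (t / 2)| ≤ x * (a * (η * x) ^ (a - 1)))
    (hM1e : 8 * |Real.log (t / 4)| / (η - 2) ≤ x * (a * (η * x) ^ (a - 1)))
    (hA : 0 < A)
    (hφu : ∀ β' θ' : ℝ, 0 ≤ β' → β' ≤ 4 * η * (η * x) ^ (a - 1) → 0 ≤ θ' →
      trPhi μ ν (b * (η * x)) β' θ' ≤
        ENNReal.ofReal (momPoly μ K β' * lap ν (β' + θ') + C1 * β' ^ (K + 1)))
    (hφl : ∀ B : ℝ, 0 ≤ B → ∀ β θ : ℝ, 0 ≤ β → β ≤ 1 → 0 ≤ θ →
      ENNReal.ofReal (momPoly μ K β * lap ν (β + θ) - C2 * Real.exp (-(B ^ a / 2))) ≤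
        trPhi μ ν B β θ)
    (hroot : momPoly μ K β * lap ν (β + θ) = 1)
    (hslope : ∀ β' : ℝ, 0 ≤ β' → β' ≤ β →
      momPoly μ K β' * lap ν (β' + θ) ≤ 1 - d / 2 * (β - β'))
    (ev3 : Real.exp ((8 / d + 3) * x * (C1 * (4 * η * (η * x) ^ (a - 1)) ^ (K + 1))) ≤ 1 + t)
    (ev4 : (8 / d + 3) * C2 * (x ^ (1 : ℝ) * Real.exp (-((t / (2 * a) * η ^ (1 - a)) ^ a / 2 *
      x ^ (a * (1 - a))))) ≤ t)
    (hQL : ∀ J : ℕ, A ≤ J * θ → ENNReal.ofReal ((1 - t) / (D * θ)) ≤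
        ∑ n ∈ Finset.range J, lvlA μ ν (t / θ) θ n)
    (hQU : ∀ N : ℕ, ∑ n ∈ Finset.range N, lvlA μ ν (b * (η * x)) θ n ≤
      ENNReal.ofReal ((1 + 1) / (D * (a * (η * x) ^ (a - 1)))))
    : ∃ (B : ℝ) (M : ℕ), 0 ≤ B ∧ B ≤ x / 2 ∧
    ENNReal.ofReal (lowC η t * (Real.exp (-(wG a θ + x * (θ + β))) /
      (D * (a * (η * x) ^ (a - 1))))) ≤ lowU a μ ν x B θ τ M := by
  obtain ⟨hθ2h, hθ3h, hθ4h⟩ := hθh
  have hη0 : 0 < η := by linarith
  have hx0 : 0 < x := by linarith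
  have hy0 : 0 < η * x := by positivity
  have hhx : 0 < a * (η * x) ^ (a - 1) := by positivity
  obtain ⟨hBx, hBby, hAθ, hxθ⟩ := B_facts (t := t) (b := b) (η := η) (A := A) hx0 hθ hb0 hη0
    hθ2h hM1a hM1b hM1c
  have hθB : θ * (t / θ) = t := by field_simp
  have hB0 : 0 ≤ t / θ := by positivity
  have h8x : 0 < 8 * x / d := by positivity
  have hNl : 8 * x / d ≤ ⌈8 * x / d⌉₊ := Nat.le_ceil _
  have hNu : (⌈8 * x / d⌉₊ : ℝ) ≤ 8 * x / d + 1 := (Nat.ceil_lt_add_one h8x.le).le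
  have hJl : A / θ ≤ ⌈A / θ⌉₊ := Nat.le_ceil _
  have hJu : (⌈A / θ⌉₊ : ℝ) ≤ A / θ + 1 := (Nat.ceil_lt_add_one (by positivity)).le
  have hNpos : 0 < ⌈8 * x / d⌉₊ := Nat.ceil_pos.mpr h8x
  have hN1 : (1 : ℝ) ≤ ⌈8 * x / d⌉₊ := by exact_mod_cast hNpos
  generalize ⌈8 * x / d⌉₊ = N at hNl hNu hNpos hN1
  generalize ⌈A / θ⌉₊ = J at hJl hJu
  obtain ⟨hNJ, hNle⟩ := NJ_fact hx1 hNu hJu hAθ
  have hβc : β ≤ 4 * η * (η * x) ^ (a - 1) :=
    betac_fact (h := x) ha0 ha1 hη0 hy0 hr2 hθ3h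
  have hΦu : trPhi μ ν (t / θ) β θ ≤ ENNReal.ofReal (1 + C1 * β ^ (K + 1)) := by
    refine (trPhi_mono hBby _ _).trans ?_
    have := hφu β θ hβ0 hβc hθ.le
    rwa [hroot] at this
  have hc1x : 0 ≤ (8 / d + 3) * x := by positivity
  have hpow : ∀ M : ℕ, (M : ℝ) ≤ (8 / d + 3) * x → (max 1 (trPhi μ ν (t / θ) β θ)) ^ M ≤
      ENNReal.ofReal (1 + t) := fun M hM => low_hpow hC1 hβ0 hΦu hM hβc hc1x ev3
  have hΦ1 : ENNReal.ofReal (1 - t) ≤ trPhi μ ν (t / θ) β θ ^ N := by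
    have hβ1' : β ≤ 1 := by
      calc β ≤ η * θ := hr2
        _ ≤ η * (1 / (η + 1)) := by gcongr
        _ ≤ 1 := by rw [mul_one_div, div_le_one (by positivity)]; linarith
    have h6 := hφl (t / θ) hB0 β θ hβ0 hβ1' hθ.le
    rw [hroot] at h6
    refine low_hPhi1 h6 (by positivity) ?_ hN1 ht4
    have h8 := low_B ha0 hη0 hx0 hθ ht hθ3h
    have h10 : C2 * Real.exp (-((t / θ) ^ a / 2)) ≤
        C2 * Real.exp (-((t / (2 * a) * η ^ (1 - a)) ^ a / 2 * x ^ (a * (1 - a)))) := by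
      apply mul_le_mul_of_nonneg_left _ hC2
      apply Real.exp_le_exp.mpr
      linarith
    calc N * (C2 * Real.exp (-((t / θ) ^ a / 2)))
        ≤ ((8 / d + 3) * x) * (C2 * Real.exp (-((t / (2 * a) * η ^ (1 - a)) ^ a / 2 *
          x ^ (a * (1 - a))))) := mul_le_mul hNle h10 (by positivity) hc1x
      _ = (8 / d + 3) * C2 * (x ^ (1 : ℝ) * Real.exp (-((t / (2 * a) * η ^ (1 - a)) ^ a / 2 *
          x ^ (a * (1 - a))))) := by
          rw [Real.rpow_one]; ring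
      _ ≤ t := ev4
  have hθβ : θ ≤ β := by
    have : 0 ≤ (η - 2) / 2 * θ := by
      have : 0 < η - 2 := by linarith
      positivity
    linarith
  have hΦl : trPhi μ ν (t / θ) (β - θ) θ ^ N ≤ ENNReal.ofReal (Real.exp (-(2 * θ * x))) := by
    have hβθ : 0 ≤ β - θ := by linarith
    have h5 := hφu (β - θ) θ hβθ (by linarith) hθ.le
    have h6 := hslope (β - θ) hβθ (by linarith)
    have e1 : β - (β - θ) = θ := by ring
    rw [e1] at h6
    have h7 : C1 * (β - θ) ^ (K + 1) ≤ d / 4 * θ :=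
      low_err hK1 hC1 hη0 hθ hθ1 hd hθd hβθ (by linarith)
    have h8 : trPhi μ ν (t / θ) (β - θ) θ ≤ ENNReal.ofReal (1 - d / 4 * θ) := by
      refine (trPhi_mono hBby _ _).trans (h5.trans (ENNReal.ofReal_le_ofReal ?_))
      linarith
    have h9 : d / 4 * θ ≤ 1 := by
      have h12 := hslope 0 le_rfl hβ0
      have h13 := momPoly_zero_nonneg (ν := ν) ha0 hμ K θ
      rw [sub_zero] at h12
      have h14 : d / 2 * θ ≤ d / 2 * β := by gcongr
      have h15 : 0 < d * θ := by positivity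
      linarith
    exact low_hPhil hd hθ h8 h9 hNl
  have hQ : ENNReal.ofReal ((1 - 2 * t) / (D * (a * (η * x) ^ (a - 1)))) ≤
      ∑ n ∈ Finset.range J, lvlA μ ν (t / θ) θ n :=
    le_trans (ENNReal.ofReal_le_ofReal (Q_fact ht ht4 hθ hhx hD hθ4h))
      (hQL J (by rwa [div_le_iff₀ hθ] at hJl))
  have hQ2 : ∑ n ∈ Finset.range (N + J), lvlA μ ν (t / θ) θ n ≤
      ENNReal.ofReal (2 / (D * (a * (η * x) ^ (a - 1)))) := by
    have h5 := hQU (N + J)
    have e1 : (1 : ℝ) + 1 = 2 := by norm_num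
    rw [e1] at h5
    exact (Finset.sum_le_sum fun n _ => lvlA_mono hBby θ n).trans h5
  have hβB : β * (t / θ) ≤ η * t := by
    calc β * (t / θ) ≤ (η * θ) * (t / θ) := by gcongr
      _ = η * (θ * (t / θ)) := by ring
      _ = η * t := by rw [hθB]
  have hs1 : 2 * Real.exp (-(θ * x)) ≤ t := by
    apply low_exp ht _ two_pos
    have : 2 * |Real.log (t / 2)| ≤ 2 * (x * θ) := hM1d.trans hxθ
    rw [mul_comm θ x]
    exact le_of_mul_le_mul_left this two_pos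
  have hs2 : 4 * Real.exp (-((β - θ) * x / 2)) ≤ t :=
    low_exp ht (s2_fact hx0 hη2 hM1e hxθ hr1) (by norm_num)
  have h2t : ENNReal.ofReal (1 + t) ≤ ENNReal.ofReal 2 :=
    ENNReal.ofReal_le_ofReal (by linarith)
  refine ⟨t / θ, N + J, hB0, hBx, ?_⟩
  exact lower_core_sum (η := η) (D := D) (h := a * (η * x) ^ (a - 1)) (N := N) (J := J) (β := β)
    (B := t / θ) ha0 ha1 hμ hν hx0 hθ hhx hD ht ht4 hB0 hθB.le hBx hτ hντ
    (tau_fact hτ hθ hθτ) hθβ hβB hηt hQ hQ2 hΦ1 (hpow N hNle) ((hpow (N + J) hNJ).trans h2t)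
    hΦl hs1 hs2

/-- **Lower bound**, one big job, as a sum. -/
theorem lower_one_sum (ha0 : 0 < a) (ha1 : a < 1)
    (hμ : ∀ x, 0 ≤ x → μ (Set.Ioi x) = ENNReal.ofReal (Real.exp (-(x ^ a))))
    (hν : ν (Set.Iio 0) = 0) (hνi : Integrable (fun t : ℝ => t) ν)
    (hm : 0 < ∫ t, t ∂ν)
    (hgt : (∫ t, t ∂ν) < ∫ s, s ∂μ) (hlt : (∫ s, s ∂μ) < 2 * ∫ t, t ∂ν)
    {K : ℕ} (hK : 1 < (K + 1) * (1 - a)) {ω : ℝ} (hω : 0 < ω) :
    ∀ᶠ x : ℝ in atTop, ∃ (B θ τ : ℝ) (M : ℕ), 0 ≤ B ∧ B ≤ x / 2 ∧ 0 < θ ∧ 0 ≤ τ ∧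
      ENNReal.ofReal ((1 - ω) * fOne a μ ν K x) ≤ ∑ n ∈ Finset.range M,
        ν (Set.Iic τ) * ENNReal.ofReal (Real.exp (-(wG a θ + θ * (B + τ)))) *
          midOne μ ν x B θ n := by
  have hK1 : 1 ≤ K := by
    by_contra hcon
    have : K = 0 := by omega
    subst this
    norm_num at hK
    linarith
  set E := ∫ s, s ∂μ with hE
  set m := ∫ t, t ∂ν with hmdef
  have hd0 : 0 < E - m := by linarith
  have hη0 : 0 < E / (E - m) := div_pos (by linarith) hd0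
  have hη2 : 2 < E / (E - m) := by
    rw [lt_div_iff₀ hd0]; linarith
  set η := E / (E - m) with hη
  have hD : 0 < 2 * m - E := by linarith
  have h1a : 0 < 1 - a := by linarith
  obtain ⟨t, ht, ht4, hηt, hlow⟩ := exists_t hη0 hω
  obtain ⟨τ, hτ, hντ⟩ := exists_tau (ν := ν) ht
  obtain ⟨A, θ0, hA, hθ0, hQL⟩ := qsum_lower ha0 ha1 hμ hν hνi hlt (δ := t) (ω := t) ht ht
  obtain ⟨κ, hκ, hκ2, hQU⟩ := qsum_upper ha0 ha1 hμ hν hνi hm hgt hlt (ω := 1) one_pos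
  set c : ℝ := 4 * η with hc
  have hc0 : 0 < c := by positivity
  set b : ℝ := (1 / (2 * (4 + c))) ^ (1 / (1 - a)) with hb
  have hb0 : 0 < b := by positivity
  have hba : b ^ (1 - a) = 1 / (2 * (4 + c)) := by
    rw [hb, ← Real.rpow_mul (by positivity), one_div_mul_cancel h1a.ne', Real.rpow_one]
  have hb4 : 4 * b ^ (1 - a) ≤ 1 / 2 := by
    rw [hba, mul_one_div, div_le_div_iff₀ (by positivity) (by norm_num)]
    linarith
  have hcb : c * b ^ (1 - a) ≤ 1 / 2 := by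
    rw [hba, mul_one_div, div_le_div_iff₀ (by positivity) (by norm_num)]
    linarith
  obtain ⟨C1, hC1, hφu⟩ := phi_upper ha0 ha1 hμ hν (ν := ν) K hc0 hb0 hcb
  obtain ⟨C2, hC2, hφl⟩ := phi_lower ha0 ha1 hμ hν (ν := ν) K
  obtain ⟨θ1, hθ1, hbeta⟩ := beta_basic ha0 ha1 hμ hν hνi hm hgt hlt hK1
  obtain ⟨β1, hβ1⟩ := beta_expand ha0 ha1 hμ hν hνi hm hgt hlt hK1
  have hblim := beta_limit ha0 ha1 hμ hν hνi hm hgt hlt hK1
  rw [← hE, ← hmdef, ← hη] at hblim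
  rw [← hE, ← hmdef] at hbeta
  -- range of `θ`
  obtain ⟨θ2, hθ2, hrange⟩ := exists_range hη2 hblim
  set ω' := min (min (t / 2) (1 / 2)) κ with hω'
  have hω'0 : 0 < ω' := lt_min (lt_min (by positivity) (by norm_num)) hκ
  have hopt := opt_exists ha0 ha1 (show 1 < η by linarith) (cramerRoot_nonneg K) hblim hβ1 hω'0
  -- limits
  set Z := min (min θ0 θ1) (min (min θ2 1) (min (t / (τ + 1))
    (min (1 / (η + 1)) ((E - m) / (4 * (C1 * η ^ (K + 1) + 1)))))) with hZ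
  have hZ0 : 0 < Z := by
    refine lt_min (lt_min hθ0 hθ1) (lt_min (lt_min hθ2 one_pos) (lt_min (by positivity)
      (lt_min (by positivity) (by positivity))))
  set M1 : ℝ := max (max (4 * t) (2 * A)) (max (2 * t / (b * η)) (max
    (2 * |Real.log (t / 2)|) (8 * |Real.log (t / 4)| / (η - 2)))) with hM1
  set c1 : ℝ := 8 / (E - m) + 3 with hc1
  have hc10 : 0 < c1 := by positivity
  filter_upwards [hopt, (tendsto_id.const_mul_atTop hη0).eventually (hQU b hb0 hb4),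
    ev_hazard (a := a) ha1 hη0 hZ0, ev_xh ha0 hη0 M1, ev_pow hη0 hK c1 C1 c ht,
    ev_exp ha0 ha1 hη0 ht (c1 * C2), eventually_ge_atTop 1]
    with x hopt hQU ev1 ev2 ev3 ev4 hx1
  obtain ⟨θ, hθ, hθh, -, hR, -, -⟩ := hopt
  have hω'1 : ω' ≤ t / 2 := (min_le_left _ _).trans (min_le_left _ _)
  have hω'2 : ω' ≤ 1 / 2 := (min_le_left _ _).trans (min_le_right _ _)
  have hω'3 : ω' ≤ κ := min_le_right _ _
  have hZ1 : Z ≤ θ0 := (min_le_left _ _).trans (min_le_left _ _)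
  have hZ2 : Z ≤ θ1 := (min_le_left _ _).trans (min_le_right _ _)
  have hZ3 : Z ≤ θ2 := (min_le_right _ _).trans ((min_le_left _ _).trans (min_le_left _ _))
  have hZ4 : Z ≤ 1 := (min_le_right _ _).trans ((min_le_left _ _).trans (min_le_right _ _))
  have hZ5 : Z ≤ t / (τ + 1) := (min_le_right _ _).trans
    ((min_le_right _ _).trans (min_le_left _ _))
  have hZ6 : Z ≤ 1 / (η + 1) := (min_le_right _ _).trans
    ((min_le_right _ _).trans ((min_le_right _ _).trans (min_le_left _ _)))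
  have hZ7 : Z ≤ (E - m) / (4 * (C1 * η ^ (K + 1) + 1)) := (min_le_right _ _).trans
    ((min_le_right _ _).trans ((min_le_right _ _).trans (min_le_right _ _)))
  have hM1a := ((le_max_left (4 * t) (2 * A)).trans (le_max_left _ _)).trans ev2
  have hM1b := ((le_max_right (4 * t) (2 * A)).trans (le_max_left _ _)).trans ev2
  have hM1c : 2 * t / (b * η) ≤ x * (a * (η * x) ^ (a - 1)) :=
    ((le_max_left _ _).trans (le_max_right _ _)).trans ev2
  have hM1d : 2 * |Real.log (t / 2)| ≤ x * (a * (η * x) ^ (a - 1)) :=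
    (((le_max_left _ _).trans (le_max_right _ _)).trans (le_max_right _ _)).trans ev2
  have hM1e : 8 * |Real.log (t / 4)| / (η - 2) ≤ x * (a * (η * x) ^ (a - 1)) :=
    (((le_max_right _ _).trans (le_max_right _ _)).trans (le_max_right _ _)).trans ev2
  have hθZ : θ < Z := lt_of_le_of_lt (theta_facts (by positivity) hω'1 hω'2 hθh).2.1 ev1
  obtain ⟨hb1, hb2, hb3⟩ := hbeta θ hθ (hθZ.trans_le hZ2)
  obtain ⟨hr1, hr2⟩ := hrange θ hθ (hθZ.trans_le hZ3)
  have hθκ : |θ - a * (η * x) ^ (a - 1)| ≤ κ * (a * (η * x) ^ (a - 1)) :=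
    hθh.trans (by gcongr)
  obtain ⟨B, M, hB, hBx, hfin⟩ := lower_point_sum (μ := μ) (ν := ν) (K := K) (b := b) (C1 := C1) (C2 := C2)
    (A := A) (β := cramerRoot μ ν K θ) ha0 ha1 hμ hν hK1 hη2 hd0 hD ht ht4 hηt hτ hντ hx1 hθ
    hC1 hC2 hb0 (theta_facts (by positivity) hω'1 hω'2 hθh) (cramerRoot_nonneg K θ) hr1 hr2
    (hθZ.le.trans hZ4) (hθZ.le.trans hZ5) (hθZ.le.trans hZ6) (hθZ.le.trans hZ7)
    hM1a hM1b hM1c hM1d hM1e hA (hφu (η * x) (by positivity)) hφl hb2 hb3 ev3 ev4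
    (hQL θ hθ (hθZ.trans_le hZ1)) (hQU θ hθκ)
  refine ⟨B, θ, τ, M, hB, hBx, hθ, hτ, ?_⟩
  refine le_trans (ENNReal.ofReal_le_ofReal ?_) hfin
  have e1 : fOne a μ ν K x = Real.exp (-(wG a θ + x * (θ + cramerRoot μ ν K θ))) /
      ((2 * m - E) * (a * (η * x) ^ (a - 1))) := by
    unfold fOne
    rw [hR]
  rw [e1]
  gcongr

end Pool.Agent.Lib.MP_04add8_pr
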