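import Mathlib
import Pool.Agent.Lib.MP_04add8_pr.One.Combine

open MeasureTheory ProbabilityTheory Filter Topology
open scoped ENNReal

set_option linter.unusedSectionVars false

namespace Pool.Agent.Lib.MP_04add8_pr

variable {a : ℝ} {μ ν : Measure ℝ} [IsProbabilityMeasure μ] [IsProbabilityMeasure ν]

/-- **Lower bound** for the two-big-jobs events. -/
theorem lower_two_sum (ha0 : 0 < a) (ha1 : a < 1)
    (hμ : ∀ x, 0 ≤ x → μ (Set.Ioi x) = ENNReal.ofReal (Real.exp (-(x ^ a))))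
    (hν : ν (Set.Iio 0) = 0) (hνi : Integrable (fun t : ℝ => t) ν)
    (hm : 0 < ∫ t, t ∂ν)
    (hgt : (∫ t, t ∂ν) < ∫ s, s ∂μ) (hlt : (∫ s, s ∂μ) < 2 * ∫ t, t ∂ν)
    {η : ℝ} (hη : 0 < η) :
    ∀ᶠ x : ℝ in atTop, ∃ n0 P : ℕ, (P : ℝ) ≤ x ∧ ∀ π : Measure (ℝ × ℝ),
      IsStationaryKW μ ν π →
      ENNReal.ofReal ((2 * (∫ t, t ∂ν) / (2 * (∫ t, t ∂ν) - ∫ s, s ∂μ) ^ 3 - η) *
          (Real.exp (-(x ^ a)) / (a * x ^ (a - 1))) ^ 2) ≤
      ∑ p ∈ Finset.range P ×ˢ Finset.range P,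
        (π.prod (noise μ ν)) (lowEvent x p.1 (n0 + p.2)) := by
  have hμi : Integrable (fun s : ℝ => s) μ := by
    simpa using weibull_integrable_pow ha0 hμ 1 (by norm_num)
  set E := ∫ s, s ∂μ with hE
  set m := ∫ t, t ∂ν with hmdef
  have hE0 : 0 < E := hm.trans hgt
  have hc0 : 0 < 2 * m - E := by linarith
  set K := 2 * m / (2 * m - E) ^ 3 with hK
  obtain ⟨δ, hKδ, hδ8, hδ1, hδ0'⟩ : ∃ δ : ℝ, K - η < lowConst E m δ ∧ 8 * δ < E ∧ δ < 1 / 2 ∧
      δ ∈ Set.Ioi (0 : ℝ) := by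
    have h1 := (tendsto_lowConst hE0 hlt).eventually_const_lt (show K - η < K by linarith)
    have h2 : ∀ᶠ y : ℝ in 𝓝[>] 0, y < E / 8 :=
      Filter.Eventually.filter_mono nhdsWithin_le_nhds (gt_mem_nhds (by positivity))
    have h3 : ∀ᶠ y : ℝ in 𝓝[>] 0, y < 1 / 2 :=
      Filter.Eventually.filter_mono nhdsWithin_le_nhds (gt_mem_nhds (by norm_num))
    obtain ⟨y, y1, y2, y3, y4⟩ := (h1.and (h2.and (h3.and self_mem_nhdsWithin))).exists
    exact ⟨y, y1, by linarith, y3, y4⟩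
  have hδ0 : 0 < δ := hδ0'
  set c1 := 2 * m - E + 3 * δ with hc1
  set c2 := 2 * m - E + (7 + E) * δ with hc2
  have hc10 : 0 < c1 := by positivity
  have hc20 : 0 < c2 := by positivity
  set β := (1 - δ) * (E - 4 * δ) with hβ
  have hβ0 : 0 ≤ β := mul_nonneg (by linarith) (by linarith)
  set L := (1 - δ) ^ 4 * Real.exp (-(12 * δ + c2 * (9 * δ / E))) with hL
  have hL0 : 0 < L := by
    have : 0 < 1 - δ := by linarith
    positivity
  have hE4 : 0 < E - 4 * δ := by linarith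
  have hhaz0 := tendsto_hazard (a := a) ha1
  have hhpos : ∀ᶠ x : ℝ in atTop, 0 < a * x ^ (a - 1) := by
    filter_upwards [eventually_gt_atTop 0] with x hx
    positivity
  have hg1 := geom_sums (c := c1) (α := 1) (β := 0) hc10 hhpos hhaz0 (tendsto_hP ha0 ha1)
  have hg2 := geom_sums (c := c2) (α := 1) (β := β) hc20 hhpos hhaz0 (tendsto_hP ha0 ha1)
  have hprod := (hg1.mul hg2).const_mul L
  have hlimval : L * ((1 / c1 + 0 / c1 ^ 2) * (1 / c2 + β / c2 ^ 2)) = lowConst E m δ := by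
    unfold lowConst
    rw [hL, ← hc1, ← hc2, ← hβ]
    simp
  rw [hlimval] at hprod
  obtain ⟨κ0, hκ0⟩ := good_prob (μ := μ) (ν := ν) hμi hνi hδ0 hδ0
  have hνlim : ∀ᶠ y : ℝ in atTop, ENNReal.ofReal (1 - δ) ≤ ν (Set.Iic y) := by
    have h1 := tendsto_measure_Iic_atTop ν
    rw [measure_univ] at h1
    have h2 : ENNReal.ofReal (1 - δ) < 1 := by
      rw [ENNReal.ofReal_lt_one]; linarith
    exact (h1.eventually_const_lt h2).mono fun y hy => hy.le
  have hkap := tendsto_kappa ha0 ha1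
  filter_upwards [hprod.eventually_const_lt hKδ, hkap.eventually_ge_atTop κ0,
    (hkap.const_mul_atTop hδ0).eventually hνlim,
    (hkap.const_mul_atTop hδ0).eventually_ge_atTop E,
    steps_small ha0 ha1 (E + m + 8) (show 0 < δ / 4 by positivity),
    hhaz0.eventually_le_const (show 0 < δ / E by positivity), eventually_gt_atTop 0,
    eventually_ge_atTop 1]
    with x hfin hxκ hxν hxE hsteps hxh hx hxone
  refine ⟨⌊4 * δ * (1 / (a * x ^ (a - 1))) / (E - 4 * δ)⌋₊ + 1, ⌊x ^ (1 - a / 2)⌋₊, ?_, ?_⟩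
  · refine (Nat.floor_le (by positivity)).trans ?_
    calc x ^ (1 - a / 2) ≤ x ^ (1 : ℝ) :=
          Real.rpow_le_rpow_of_exponent_le hxone (by linarith)
      _ = x := Real.rpow_one x
  intro π hπ
  have hp : IsProbabilityMeasure π := hπ.1
  set h := a * x ^ (a - 1) with hh
  have hh0 : 0 < h := by positivity
  set κ := 1 / h with hκdef
  have hκpos : 0 < κ := by positivity
  have hhκ : h * κ = 1 := by rw [hκdef]; field_simp
  set P := ⌊x ^ (1 - a / 2)⌋₊ with hP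
  have hPx : (P : ℝ) ≤ x ^ (1 - a / 2) := Nat.floor_le (by positivity)
  set n0 := ⌊4 * δ * κ / (E - 4 * δ)⌋₊ + 1 with hn0
  have hn0l : 4 * δ * κ / (E - 4 * δ) < n0 := by
    rw [hn0]; push_cast; exact Nat.lt_floor_add_one _
  have hn0u : (n0 : ℝ) ≤ 4 * δ * κ / (E - 4 * δ) + 1 := by
    rw [hn0]; push_cast
    have := Nat.floor_le (show 0 ≤ 4 * δ * κ / (E - 4 * δ) by positivity)
    linarith
  have hfrac : 4 * δ * κ / (E - 4 * δ) ≤ 8 * δ / E * κ := by
    rw [div_le_iff₀ hE4]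
    have : 8 * δ / E * κ * (E - 4 * δ) = 4 * δ * κ * (2 * (E - 4 * δ) / E) := by
      field_simp; ring
    rw [this]
    have h2 : 1 ≤ 2 * (E - 4 * δ) / E := by
      rw [le_div_iff₀ hE0]; linarith
    have h3 : 0 ≤ 4 * δ * κ := by positivity
    nlinarith
  have hfrac2 : 8 * δ / E * κ ≤ κ := by
    have : 8 * δ / E ≤ 1 := by rw [div_le_one hE0]; linarith
    nlinarith
  have hn0κ : (n0 : ℝ) ≤ κ + 1 := by linarith
  have hn0h : h * n0 ≤ 9 * δ / E := by
    calc h * n0 ≤ h * (8 * δ / E * κ + 1) := by gcongr; linarith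
      _ = 8 * δ / E * (h * κ) + h := by ring
      _ ≤ 8 * δ / E * 1 + δ / E := by rw [hhκ]; linarith
      _ = 9 * δ / E := by ring
  have hn0' : 4 * δ * κ < (E - 4 * δ) * n0 := by
    rw [div_lt_iff₀ hE4] at hn0l
    linarith
  -- bound for all steps
  have hstep : ∀ n1 j : ℕ, n1 < P → j < P →
      (E + m + 8) * ((n1 : ℝ) + ((n0 + j : ℕ) : ℝ) + κ) ≤ δ / 4 * x := by
    intro n1 j hn1 hj
    refine le_trans ?_ hsteps
    have h1 : (n1 : ℝ) ≤ P := by exact_mod_cast hn1.le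
    have h2 : (j : ℝ) ≤ P := by exact_mod_cast hj.le
    push_cast
    exact mul_le_mul_of_nonneg_left (by linarith) (by positivity)
  set Z := (1 + δ) * x with hZ
  have hθ : a * Z ^ (a - 1) = (1 + δ) ^ (a - 1) * h := by
    rw [hZ, Real.mul_rpow (by positivity) hx.le, hh]; ring
  have hθ2 : a * Z ^ (a - 1) ≤ h := by
    rw [hθ]
    have : (1 + δ) ^ (a - 1) ≤ 1 :=
      Real.rpow_le_one_of_one_le_of_nonpos (by linarith) (by linarith)
    nlinarith
  have hθ1 : (1 - δ) * h ≤ a * Z ^ (a - 1) := by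
    rw [hθ]
    have h1 : (1 + δ) ^ (-1 : ℝ) ≤ (1 + δ) ^ (a - 1) :=
      Real.rpow_le_rpow_of_exponent_le (by linarith) (by linarith)
    have h2 : 1 - δ ≤ (1 + δ) ^ (-1 : ℝ) := by
      rw [Real.rpow_neg_one, ← one_div, le_div_iff₀ (by positivity)]
      nlinarith
    gcongr
    linarith
  have h1δ : 0 ≤ 1 - δ := by linarith
  -- each term
  have hterm : ∀ p ∈ Finset.range P ×ˢ Finset.range P,
      ENNReal.ofReal (Real.exp (-(x ^ a)) ^ 2 * L *
        (((1 + 0 * (h * p.1)) * Real.exp (-(c1 * (h * p.1)))) *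
          ((1 + β * (h * p.2)) * Real.exp (-(c2 * (h * p.2)))))) ≤
      (π.prod (noise μ ν)) (lowEvent x p.1 (n0 + p.2)) := by
    rintro ⟨n1, j⟩ hp'
    rw [Finset.mem_product, Finset.mem_range, Finset.mem_range] at hp'
    simp only at hp' ⊢
    have hst := hstep n1 j hp'.1 hp'.2
    have hst4 : (E + m + 8) * ((n1 : ℝ) + ((n0 + j : ℕ) : ℝ) + κ) ≤ x / 4 := by
      refine hst.trans ?_
      have : δ / 4 * x ≤ 1 / 4 * x := by gcongr; linarith
      linarith
    have hle := lower_event (ν := ν) (n1 := n1) (n2 := n0 + j) ha0 hμ hν hx hδ0 (by linarith)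
      hκpos hE0 hm hgt hxE hst4 hπ
    refine le_trans ?_ hle
    have hn1 : (0 : ℝ) ≤ n1 := by positivity
    have hj : (0 : ℝ) ≤ j := by positivity
    have hn0n : (0 : ℝ) ≤ n0 := by positivity
    have hmn : (m + 4) * ((n1 : ℝ) + ((n0 + j : ℕ) : ℝ) + κ) ≤ δ * x := by
      have h1 : (m + 4) * ((n1 : ℝ) + ((n0 + j : ℕ) : ℝ) + κ) ≤
          (E + m + 8) * ((n1 : ℝ) + ((n0 + j : ℕ) : ℝ) + κ) :=
        mul_le_mul_of_nonneg_right (by linarith) (by positivity)
      have h2 : δ / 4 * x ≤ δ * x := by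
        have : 0 < δ * x := by positivity
        linarith
      linarith
    have hEn : E * ((n1 : ℝ) + ((n0 + j : ℕ) : ℝ) + κ) ≤ x / 4 := by
      refine le_trans ?_ hst4
      gcongr
      linarith
    push_cast at hmn hEn
    have hEκ : 0 ≤ E * κ := by positivity
    have hEn1 : 0 ≤ E * n1 := by positivity
    have hEn2 : 0 ≤ E * (n0 + j : ℝ) := by positivity
    have hav : avail E κ δ (n0 + j) = (E - 4 * δ) * j + ((E - 4 * δ) * n0 - 4 * δ * κ) := by
      unfold avail; push_cast; ring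
    have hav0 : 0 < avail E κ δ (n0 + j) := by
      rw [hav]
      have : 0 ≤ (E - 4 * δ) * j := by positivity
      linarith
    have hav1 : avail E κ δ (n0 + j) ≤ E * (n0 + j) := by
      unfold avail
      push_cast
      have : 0 ≤ 4 * δ * (n0 + j + κ : ℝ) := by positivity
      linarith
    have hth1 : x ≤ thr1 x m κ δ n1 (n0 + j) := by
      unfold thr1
      push_cast
      have : 0 ≤ m * (n1 + (n0 + j) : ℝ) := by positivity
      have : 0 ≤ δ * (n1 + (n0 + j) + 4 * κ : ℝ) := by positivity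
      linarith
    have hth2 : x - E * n1 ≤ thr2 x E m κ δ n1 (n0 + j) := by
      unfold thr2
      push_cast
      have : 0 ≤ m * (n0 + j : ℝ) := by positivity
      have : 0 ≤ m * (n1 : ℝ) := by positivity
      have : 0 ≤ 2 * δ * (n1 + (n0 + j) + 2 * κ : ℝ) := by positivity
      linarith
    have hδs : δ * (n1 + (n0 + j) + 4 * κ : ℝ) ≤ 1 * (4 * (n1 + (n0 + j) + κ)) :=
      mul_le_mul (by linarith) (by linarith) (by positivity) (by norm_num)
    have hth1u : thr1 x m κ δ n1 (n0 + j) ≤ Z := by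
      unfold thr1
      push_cast
      rw [hZ]
      have : m * (n1 + (n0 + j) : ℝ) ≤ m * (n1 + (n0 + j) + κ) :=
        mul_le_mul_of_nonneg_left (by linarith) hm.le
      linarith
    have hth2u : thr2 x E m κ δ n1 (n0 + j) ≤ Z := by
      unfold thr2
      push_cast
      rw [hZ]
      have h1 : m * (n0 + j : ℝ) ≤ m * (n1 + (n0 + j) + κ) :=
        mul_le_mul_of_nonneg_left (by linarith) hm.le
      have h2 : 0 ≤ (E - m) * (n1 : ℝ) := by
        have : 0 < E - m := by linarith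
        positivity
      have h3 : 2 * δ * (n1 + (n0 + j) + 2 * κ : ℝ) ≤ 1 * (4 * (n1 + (n0 + j) + κ)) := by
        have : 2 * δ * (n1 + (n0 + j) + 2 * κ : ℝ) = δ * (2 * (n1 + (n0 + j) + 2 * κ)) := by ring
        rw [this]
        exact mul_le_mul (by linarith) (by linarith) (by positivity) (by norm_num)
      linarith
    have htail := twoTail_lower ha0 ha1 hμ hav0 (X1 := thr1 x m κ δ n1 (n0 + j))
      (X2 := thr2 x E m κ δ n1 (n0 + j)) (Z := Z) (by linarith) (by linarith) hth1u hth2u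
    have hnum := numeric_lower (x := x) (κ := κ) (θ := a * Z ^ (a - 1)) (n1 := n1) (n0 := n0)
      (j := j) (m := m) ha0 ha1 hx hδ0 (by linarith) hE0 hm hlt hδ8.le hhκ hθ1 hθ2 hn0'.le hn0h
      (by linarith)
    have hG := hκ0 κ hxκ
    have e4 : Real.exp (-(x ^ a)) ^ 2 * L *
        (((1 + 0 * (h * n1)) * Real.exp (-(c1 * (h * n1)))) *
          ((1 + β * (h * j)) * Real.exp (-(c2 * (h * j))))) =
        (1 - δ) ^ 2 * (1 - δ) ^ 2 * (Real.exp (-(x ^ a)) ^ 2 *
      Real.exp (-(12 * δ + (2 * m - E + (7 + E) * δ) * (9 * δ / E))) *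
      (Real.exp (-((2 * m - E + 3 * δ) * (a * x ^ (a - 1) * n1))) *
        ((1 + (1 - δ) * (E - 4 * δ) * (a * x ^ (a - 1) * j)) *
          Real.exp (-((2 * m - E + (7 + E) * δ) * (a * x ^ (a - 1) * j)))))) := by
      rw [hL]
      ring
    rw [e4]
    calc _ ≤ ENNReal.ofReal ((1 - δ) ^ 2 * (1 - δ) ^ 2 * (
          Real.exp (-(thr1 x m κ δ n1 (n0 + j) ^ a)) * Real.exp (-(thr2 x E m κ δ n1 (n0 + j) ^ a)) *
        ((1 + a * Z ^ (a - 1) * avail E κ δ (n0 + j)) *
          Real.exp (a * Z ^ (a - 1) * avail E κ δ (n0 + j))))) := by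
          apply ENNReal.ofReal_le_ofReal
          gcongr
      _ = ENNReal.ofReal (1 - δ) ^ 2 * ENNReal.ofReal (1 - δ) ^ 2 * ENNReal.ofReal (
          Real.exp (-(thr1 x m κ δ n1 (n0 + j) ^ a)) * Real.exp (-(thr2 x E m κ δ n1 (n0 + j) ^ a)) *
        ((1 + a * Z ^ (a - 1) * avail E κ δ (n0 + j)) *
          Real.exp (a * Z ^ (a - 1) * avail E κ δ (n0 + j)))) := by
          rw [ENNReal.ofReal_mul (by positivity), ENNReal.ofReal_mul (by positivity),
            ENNReal.ofReal_pow h1δ]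
      _ ≤ _ := by
          gcongr
  have hle2 : ENNReal.ofReal (∑ p ∈ Finset.range P ×ˢ Finset.range P,
      (Real.exp (-(x ^ a)) ^ 2 * L *
        (((1 + 0 * (h * p.1)) * Real.exp (-(c1 * (h * p.1)))) *
          ((1 + β * (h * p.2)) * Real.exp (-(c2 * (h * p.2))))))) ≤
      ∑ p ∈ Finset.range P ×ˢ Finset.range P,
        (π.prod (noise μ ν)) (lowEvent x p.1 (n0 + p.2)) := by
    rw [ENNReal.ofReal_sum_of_nonneg]
    · exact Finset.sum_le_sum hterm
    · intro p _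
      positivity
  refine le_trans (ENNReal.ofReal_le_ofReal ?_) hle2
  rw [← Finset.mul_sum]
  have e5 : ∑ p ∈ Finset.range P ×ˢ Finset.range P,
      (((1 + 0 * (h * p.1)) * Real.exp (-(c1 * (h * p.1)))) *
          ((1 + β * (h * p.2)) * Real.exp (-(c2 * (h * p.2))))) =
      (∑ n ∈ Finset.range P, (1 + 0 * (h * n)) * Real.exp (-(c1 * (h * n)))) *
      ∑ n ∈ Finset.range P, (1 + β * (h * n)) * Real.exp (-(c2 * (h * n))) := by
    rw [Finset.sum_mul_sum, Finset.sum_product]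
  rw [e5]
  set S1 := ∑ n ∈ Finset.range P, (1 + 0 * (h * n)) * Real.exp (-(c1 * (h * n))) with hS1
  set S2 := ∑ n ∈ Finset.range P, (1 + β * (h * n)) * Real.exp (-(c2 * (h * n))) with hS2
  have e6 : Real.exp (-(x ^ a)) ^ 2 * L * (S1 * S2) =
      (L * ((h * S1) * (h * S2))) * (Real.exp (-(x ^ a)) / h) ^ 2 := by
    field_simp
  rw [e6]
  have : 0 ≤ (Real.exp (-(x ^ a)) / h) ^ 2 := by positivity
  gcongr

end Pool.Agent.Lib.MP_04add8_pr
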