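import Mathlib
import Pool.Agent.Lib.MP_04add8_pr.One.Combine
import Pool.Agent.Lib.MP_04add8_pr.Crit.LowPt
import Pool.Agent.Lib.MP_04add8_pr.Crit.LowOne
import Pool.Agent.Lib.MP_04add8_pr.Crit.LowTwo
import Pool.Agent.Lib.MP_04add8_pr.Crit.LowBoth

open MeasureTheory ProbabilityTheory Filter Topology
open scoped ENNReal

set_option linter.unusedSectionVars false

namespace Pool.Agent.Lib.MP_04add8_pr

variable {a : ℝ} {μ ν : Measure ℝ} [IsProbabilityMeasure μ] [IsProbabilityMeasure ν]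

/-- **Lower bound**, both scenarios together. -/
theorem lower_crit (ha0 : 0 < a) (ha1 : a < 1)
    (hμ : ∀ x, 0 ≤ x → μ (Set.Ioi x) = ENNReal.ofReal (Real.exp (-(x ^ a))))
    (hν : ν (Set.Iio 0) = 0) (hνi : Integrable (fun t : ℝ => t) ν)
    (hm : 0 < ∫ t, t ∂ν)
    (hgt : (∫ t, t ∂ν) < ∫ s, s ∂μ) (hlt : (∫ s, s ∂μ) < 2 * ∫ t, t ∂ν)
    {K : ℕ} (hK : 1 < (K + 1) * (1 - a)) {ω : ℝ} (hω : 0 < ω) (hω1 : ω < 1)
    (hω2 : ω < 2 * (∫ t, t ∂ν) / (2 * (∫ t, t ∂ν) - ∫ s, s ∂μ) ^ 3) :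
    ∀ᶠ x : ℝ in atTop, ∀ π : Measure (ℝ × ℝ), IsStationaryKW μ ν π →
      ENNReal.ofReal ((1 - ω) * fOne a μ ν K x +
        (2 * (∫ t, t ∂ν) / (2 * (∫ t, t ∂ν) - ∫ s, s ∂μ) ^ 3 - ω) *
          (Real.exp (-(x ^ a)) / (a * x ^ (a - 1))) ^ 2) ≤ π {w | x < w.1} := by
  set E := ∫ s, s ∂μ with hE
  set m := ∫ t, t ∂ν with hmdef
  have hD : 0 < 2 * m - E := by linarith
  set K2 := 2 * m / (2 * m - E) ^ 3 with hK2
  have hlim := (tendsto_rpow_mul_exp_neg_rpow (a := a) (c := (1 / 2) ^ a) ha0 (by positivity) 1)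
  filter_upwards [lower_one_sum ha0 ha1 hμ hν hνi hm hgt hlt hK (show 0 < ω / 2 by positivity),
    lower_two_sum ha0 ha1 hμ hν hνi hm hgt hlt hω,
    hlim.eventually_le_const (show 0 < ω / 2 by positivity), eventually_gt_atTop 0]
    with x h1 h2 hsm hx
  intro π hπ
  have hp : IsProbabilityMeasure π := hπ.1
  obtain ⟨B, θ, τ, M, hB, hBx, hθ, hτ, h1⟩ := h1
  obtain ⟨n0, P, hP, h2⟩ := h2
  have h2' := h2 π hπ
  rw [← hE, ← hmdef, ← hK2] at h2'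
  set Q := Real.exp (-(x ^ a)) / (a * x ^ (a - 1)) with hQ
  have hQ0 : 0 < Q := by positivity
  have hf0 : 0 < fOne a μ ν K x := fOne_pos ha0 hgt hm hlt hx
  have hb := lower_both ha0 hμ hπ hx hBx M P n0
    (fun n => ν (Set.Iic τ) * ENNReal.ofReal (Real.exp (-(wG a θ + θ * (B + τ)))) *
      midOne μ ν x B θ n) (fun n _ w hw0 hw1 => oneBig_lower_pt ha0 ha1 hμ hν hx hB hθ hτ n hw0 hw1)
  refine le_trans ?_ hb
  have hPe : 1 - ω / 2 ≤ 1 - P * Real.exp (-((x / 2) ^ a)) := by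
    have e1 : (x / 2) ^ a = (1 / 2) ^ a * x ^ a := by
      rw [← Real.mul_rpow (by norm_num) hx.le]; congr 1; ring
    rw [e1]
    rw [Real.rpow_one] at hsm
    have : P * Real.exp (-((1 / 2) ^ a * x ^ a)) ≤ x * Real.exp (-((1 / 2) ^ a * x ^ a)) := by
      gcongr
    linarith
  have h1w : 0 ≤ 1 - ω / 2 := by linarith
  have hK2w : 0 ≤ (K2 - ω) * Q ^ 2 := mul_nonneg (by linarith) (by positivity)
  have h1ω : 0 ≤ (1 - ω) * fOne a μ ν K x := mul_nonneg (by linarith) hf0.le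
  rw [ENNReal.ofReal_add h1ω hK2w]
  refine add_le_add ?_ h2'
  calc ENNReal.ofReal ((1 - ω) * fOne a μ ν K x)
      ≤ ENNReal.ofReal ((1 - ω / 2) * ((1 - ω / 2) * fOne a μ ν K x)) := by
        apply ENNReal.ofReal_le_ofReal
        have : (1 - ω) * fOne a μ ν K x ≤ ((1 - ω / 2) * (1 - ω / 2)) * fOne a μ ν K x := by
          gcongr
          nlinarith
        linarith
    _ = ENNReal.ofReal (1 - ω / 2) * ENNReal.ofReal ((1 - ω / 2) * fOne a μ ν K x) := by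
        rw [ENNReal.ofReal_mul h1w]
    _ ≤ _ := by gcongr

end Pool.Agent.Lib.MP_04add8_pr
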