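import Mathlib
import Pool.Agent.Lib.MP_04add8_pr.One.BadBig

open MeasureTheory ProbabilityTheory Filter Topology
open scoped ENNReal

set_option linter.unusedSectionVars false

namespace Pool.Agent.Lib.MP_04add8_pr

section stoch

variable {a : ℝ} {μ ν : Measure ℝ} [IsProbabilityMeasure μ] [IsProbabilityMeasure ν]

/-- the parameter `b` on the critical curve -/
lemma CritPot_exists_b (ha0 : 0 < a) {E m ρ b1 : ℝ} (hm : 0 < m) (hgt : m < E) (hlt : E < 2 * m)
    (hρ : 0 < ρ) (hb1 : (E - m) / m < b1) :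
    ∃ b : ℝ, 0 < b ∧ b < 1 ∧ b ≤ b1 ∧ (E - m) / m < b ∧ E < (1 + b) * m ∧
      (E / (E - m)) ^ a - ρ < (1 + 1 / b) ^ a ∧ (1 + 1 / b) ^ a ≤ (E / (E - m)) ^ a := by
  set r := (E - m) / m with hr
  have hd : 0 < E - m := by linarith
  have hE0 : 0 < E := hm.trans hgt
  have hr0 : 0 < r := by positivity
  have hr1 : r < 1 := by rw [hr, div_lt_one hm]; linarith
  have hr2 : 1 + 1 / r = E / (E - m) := by
    rw [hr]; field_simp; ring
  have hcont : ContinuousAt (fun b : ℝ => (1 + 1 / b) ^ a) r := by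
    apply ContinuousAt.rpow_const
    · fun_prop (disch := exact hr0.ne')
    · right; exact ha0.le
  have hev : ∀ᶠ b in 𝓝[>] r, (E / (E - m)) ^ a - ρ < (1 + 1 / b) ^ a := by
    apply Filter.Eventually.filter_mono nhdsWithin_le_nhds
    apply hcont.eventually
    apply lt_mem_nhds
    change (E / (E - m)) ^ a - ρ < (1 + 1 / r) ^ a
    rw [hr2]
    linarith
  have hev2 : ∀ᶠ b in 𝓝[>] r, b < 1 := by
    apply Filter.Eventually.filter_mono nhdsWithin_le_nhds
    exact gt_mem_nhds hr1
  have hev3 : ∀ᶠ b in 𝓝[>] r, b < b1 := by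
    apply Filter.Eventually.filter_mono nhdsWithin_le_nhds
    exact gt_mem_nhds hb1
  obtain ⟨b, hbθ, hbl1, hbb1, hbr⟩ :=
    (hev.and (hev2.and (hev3.and self_mem_nhdsWithin))).exists
  have hbr' : r < b := hbr
  have hb0 : 0 < b := hr0.trans hbr'
  refine ⟨b, hb0, hbl1, hbb1.le, hbr', ?_, hbθ, ?_⟩
  · have : E - m < b * m := by
      rwa [hr, div_lt_iff₀ hm] at hbr'
    linarith
  · rw [← hr2]
    gcongr

theorem crit_pot (ha0 : 0 < a) (ha1 : a < 1)
    (hμ : ∀ x, 0 ≤ x → μ (Set.Ioi x) = ENNReal.ofReal (Real.exp (-(x ^ a))))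
    (hν : ν (Set.Iio 0) = 0) (hνi : Integrable (fun t : ℝ => t) ν)
    (hm : 0 < ∫ t, t ∂ν)
    (hgt : (∫ t, t ∂ν) < ∫ s, s ∂μ) (hlt : (∫ s, s ∂μ) < 2 * ∫ t, t ∂ν)
    (h2 : ((∫ s, s ∂μ) / ((∫ s, s ∂μ) - ∫ t, t ∂ν)) ^ a = 2)
    {γ β b1 : ℝ} (hγ : 0 < γ) (hβ : 0 < β)
    (hb1 : ((∫ s, s ∂μ) - ∫ t, t ∂ν) / (∫ t, t ∂ν) < b1) :
    ∃ b R δ : ℝ, ((∫ s, s ∂μ) - ∫ t, t ∂ν) / (∫ t, t ∂ν) < b ∧ b ≤ b1 ∧ 0 < R ∧ 0 < δ ∧
      ∀ C : ℝ, ∀ᶠ x : ℝ in atTop, ∀ π : Measure (ℝ × ℝ), IsStationaryKW μ ν π → ∀ n : ℕ,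
        (n : ℝ) ≤ C * x →
        (π.prod (noise μ ν)) {q | β * x < (q.2 0).1 ∧
          cost a b R (kwStep q.1 (q.2 0).1 (q.2 0).2) ≤
            cost a b R q.1 + (q.2 0).1 ^ a - γ * x ^ a ∧ x < (pIter q.1 q.2 (n + 1)).1} ≤
          ENNReal.ofReal (Real.exp (-((2 + δ) * x ^ a))) := by
  set E := ∫ s, s ∂μ with hE
  set m := ∫ t, t ∂ν with hmd
  set η := E / (E - m) with hη
  have hd : 0 < E - m := by linarith
  have hE0 : 0 < E := hm.trans hgt
  have hη0 : 0 < η := by positivity
  set ρ := min γ (β ^ a) / 8 with hρ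
  have hba : 0 < β ^ a := by positivity
  have hρ0 : 0 < ρ := by
    have : 0 < min γ (β ^ a) := lt_min hγ hba
    positivity
  have hρ1 : 8 * ρ ≤ γ := by
    have := min_le_left γ (β ^ a)
    rw [hρ]; linarith
  have hρ2 : 8 * ρ ≤ β ^ a := by
    have := min_le_right γ (β ^ a)
    rw [hρ]; linarith
  obtain ⟨b', hb0', hb1', hbb1, hbr, hbm', hθ1, hθ2⟩ :=
    CritPot_exists_b (a := a) ha0 hm hgt hlt hρ0 hb1
  rw [← hη, h2] at hθ1 hθ2
  set θ := (1 + 1 / b') ^ a with hθ
  have hθ22 : θ ≤ 2 := hθ2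
  obtain ⟨R, k, hR, hk, hdr⟩ := drift_uniform ha0 ha1 hμ hν hνi hgt hb0' hb1' hbm'
  set lam := (2 + 2 * ρ) / (2 + 3 * ρ) with hlam
  have hden : 0 < 2 + 3 * ρ := by positivity
  have hl1 : lam < 1 := by rw [hlam, div_lt_one hden]; linarith
  have hl2 : 1 / 2 ≤ lam := by
    rw [hlam, div_le_div_iff₀ (by norm_num) hden]; linarith
  have hl0 : 0 < lam := by linarith
  have hlmul : lam * (2 + 3 * ρ) = 2 + 2 * ρ := by
    rw [hlam]; field_simp
  obtain ⟨CL, hCL, hmean⟩ := BadBig_mean ha0 ha1 hb0' hR hk hdr hl2 hl1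
  obtain ⟨L, K, hL, hK, hdd⟩ := hdr lam hl2 hl1
  set H : ℝ × ℝ → ℝ≥0∞ := fun w => ENNReal.ofReal (Real.exp (lam * cost a b' R w)) with hH
  have hcm := measurable_cost a b' R
  have hHm : Measurable H := by rw [hH]; fun_prop
  have hdrift : ∀ w : ℝ × ℝ, 0 ≤ w.1 → w.1 ≤ w.2 →
      ∫⁻ p, H (kwStep w p.1 p.2) ∂(μ.prod ν) ≤ H w + ENNReal.ofReal K := by
    intro w h0 h1
    refine le_self_add.trans ((hdd w h0 h1).trans ?_)
    gcongr
    split_ifs
    · exact zero_le
    · exact le_rfl
  have hiter := BadBig_iter (μ := μ) (ν := ν) hHm hdrift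
  have hl1' : 0 < 1 - lam := by linarith
  set C1 := (1 / (1 - lam)) * CL with hC1
  have hC10 : 0 ≤ C1 := by positivity
  refine ⟨b', R, ρ, hbr, hbb1, hR, hρ0, ?_⟩
  intro C
  -- the two exponents
  have hF1 : 2 + 2 * ρ ≤ lam * (θ + γ) := by
    calc 2 + 2 * ρ = lam * (2 + 3 * ρ) := hlmul.symm
      _ ≤ _ := by
        refine mul_le_mul_of_nonneg_left ?_ hl0.le
        linarith
  have hF2 : 2 + 2 * ρ ≤ lam * θ + β ^ a := by
    have h3 : lam * (2 + 3 * ρ) ≤ lam * (θ + 4 * ρ) :=
      mul_le_mul_of_nonneg_left (by linarith) hl0.le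
    have h4 : lam * (4 * ρ) ≤ 1 * (4 * ρ) := by gcongr
    rw [hlmul, mul_add] at h3
    linarith
  -- eventually the polynomial factor is absorbed
  have hev : ∀ᶠ x : ℝ in atTop, (C1 + C * x * K) * Real.exp (-(ρ * x ^ a)) ≤ 1 := by
    have hxa : Tendsto (fun x : ℝ => x ^ a) atTop atTop := tendsto_rpow_atTop ha0
    have h3 : Tendsto (fun x : ℝ => x * Real.exp (-(ρ * x ^ a))) atTop (𝓝 0) := by
      have h4 : ∀ᶠ x : ℝ in atTop, x * Real.exp (-(ρ * x ^ a)) ≤
          ((1 / a) / (ρ / 2)) ^ (1 / a) * Real.exp (-(ρ / 2 * x ^ a)) := by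
        filter_upwards [eventually_gt_atTop 0] with x hx
        have h5 := rpow_le_exp (p := 1 / a) (c := ρ / 2) (u := x ^ a) (by positivity)
          (by positivity) (by positivity)
        have h6 : (x ^ a) ^ (1 / a) = x := by
          rw [← Real.rpow_mul hx.le]
          rw [mul_one_div_cancel ha0.ne', Real.rpow_one]
        rw [h6] at h5
        calc x * Real.exp (-(ρ * x ^ a)) ≤
            (((1 / a) / (ρ / 2)) ^ (1 / a) * Real.exp (ρ / 2 * x ^ a)) *
              Real.exp (-(ρ * x ^ a)) := by gcongr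
          _ = _ := by
              rw [mul_assoc, ← Real.exp_add]
              congr 2
              ring
      have h7 : Tendsto (fun x : ℝ => ((1 / a) / (ρ / 2)) ^ (1 / a) *
          Real.exp (-(ρ / 2 * x ^ a))) atTop (𝓝 0) := by
        have h8 : Tendsto (fun x : ℝ => Real.exp (-(ρ / 2 * x ^ a))) atTop (𝓝 0) :=
          Real.tendsto_exp_neg_atTop_nhds_zero.comp (hxa.const_mul_atTop (by positivity))
        simpa using h8.const_mul _
      refine tendsto_of_tendsto_of_tendsto_of_le_of_le' tendsto_const_nhds h7 ?_ h4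
      filter_upwards [eventually_gt_atTop 0] with x hx
      positivity
    have h9 : Tendsto (fun x : ℝ => Real.exp (-(ρ * x ^ a))) atTop (𝓝 0) :=
      Real.tendsto_exp_neg_atTop_nhds_zero.comp (hxa.const_mul_atTop hρ0)
    have h10 : Tendsto (fun x : ℝ => C1 * Real.exp (-(ρ * x ^ a)) +
        C * K * (x * Real.exp (-(ρ * x ^ a)))) atTop (𝓝 (C1 * 0 + C * K * 0)) :=
      (h9.const_mul _).add (h3.const_mul _)
    rw [mul_zero, mul_zero, add_zero] at h10
    filter_upwards [h10.eventually (ge_mem_nhds zero_lt_one)] with x hx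
    calc (C1 + C * x * K) * Real.exp (-(ρ * x ^ a)) = C1 * Real.exp (-(ρ * x ^ a)) +
        C * K * (x * Real.exp (-(ρ * x ^ a))) := by ring
      _ ≤ 1 := hx
  filter_upwards [hev, eventually_gt_atTop 0] with x hx hx0
  intro π hπ n hn
  have hprob : IsProbabilityMeasure π := hπ.1
  have hxa0 : 0 < x ^ a := by positivity
  -- measurability of the event
  set B : Set ((ℝ × ℝ) × (ℕ → ℝ × ℝ)) := {q | β * x < (q.2 0).1 ∧
          cost a b' R (kwStep q.1 (q.2 0).1 (q.2 0).2) ≤
            cost a b' R q.1 + (q.2 0).1 ^ a - γ * x ^ a ∧ x < (pIter q.1 q.2 (n + 1)).1} with hB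
  have hm2 : Measurable fun q : (ℝ × ℝ) × (ℕ → ℝ × ℝ) => (q.2 0).1 := by fun_prop
  have hm3 : Measurable fun q : (ℝ × ℝ) × (ℕ → ℝ × ℝ) =>
      cost a b' R (kwStep q.1 (q.2 0).1 (q.2 0).2) := by
    have h4 : Measurable fun q : (ℝ × ℝ) × (ℕ → ℝ × ℝ) => (q.1, q.2 0) := by fun_prop
    exact hcm.comp (measurable_kwStep.comp h4)
  have hm4 : Measurable fun q : (ℝ × ℝ) × (ℕ → ℝ × ℝ) =>
      cost a b' R q.1 + (q.2 0).1 ^ a - γ * x ^ a := by
    have h4 : Measurable fun q : (ℝ × ℝ) × (ℕ → ℝ × ℝ) => cost a b' R q.1 :=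
      hcm.comp measurable_fst
    have h5 : Measurable fun q : (ℝ × ℝ) × (ℕ → ℝ × ℝ) => (q.2 0).1 ^ a := hm2.pow_const a
    exact (h4.add h5).sub_const _
  have hBm : MeasurableSet B := by
    refine MeasurableSet.inter ?_ (MeasurableSet.inter ?_ ?_)
    · exact measurableSet_lt measurable_const hm2
    · exact measurableSet_le hm3 hm4
    · exact measurableSet_lt measurable_const (measurable_pIter (n + 1)).fst
  rw [Measure.prod_apply hBm]
  set v := Real.exp (-(lam * θ * x ^ a)) with hv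
  have hv0 : 0 < v := Real.exp_pos _
  -- tail of the chain
  have htail : ∀ u : ℝ × ℝ, 0 ≤ u.1 → u.1 ≤ u.2 →
      (noise μ ν) {z | x < (pIter u z n).1} ≤
        ENNReal.ofReal v * (H u + n * ENNReal.ofReal K) := by
    intro u h0 h1
    have hset : MeasurableSet {z : ℕ → ℝ × ℝ | x < (pIter u z n).1} :=
      measurableSet_lt measurable_const (measurable_pIter_right u n).fst
    have h3 : (noise μ ν) {z | x < (pIter u z n).1} ≤
        ∫⁻ z, ENNReal.ofReal v * H (pIter u z n) ∂(noise μ ν) := by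
      rw [← lintegral_indicator_one hset]
      apply lintegral_mono
      intro z
      by_cases hz : z ∈ {z : ℕ → ℝ × ℝ | x < (pIter u z n).1}
      · rw [Set.indicator_of_mem hz]
        have hz' : x < (pIter u z n).1 := hz
        have h4 := BadBig_cost_lower (R := R) ha0 hb0' hθ22 hx0
          (pIter_ordered h0 h1 z n).2 hz'
        rw [← hθ] at h4
        simp only [Pi.one_apply]
        rw [hH, ← ENNReal.ofReal_mul hv0.le, hv, ← Real.exp_add, ENNReal.one_le_ofReal,
          Real.one_le_exp_iff]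
        have h5 : lam * (θ * x ^ a) ≤ lam * cost a b' R (pIter u z n) := by gcongr
        linarith
      · rw [Set.indicator_of_notMem hz]
        exact zero_le
    refine h3.trans ?_
    have hcomp : Measurable fun z : ℕ → ℝ × ℝ => H (pIter u z n) :=
      hHm.comp (measurable_pIter_right u n)
    rw [lintegral_const_mul _ hcomp]
    gcongr
    exact hiter n u h0 h1
  -- weight of the big job
  set F : ℝ × ℝ → (ℝ × ℝ) → ℝ≥0∞ := fun w p =>
    ENNReal.ofReal (Real.exp (-(lam * γ * x ^ a))) *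
      H w * ENNReal.ofReal (Real.exp (lam * p.1 ^ a)) with hF
  have hpoint : ∀ᵐ w ∂π, (noise μ ν) (Prod.mk w ⁻¹' B) ≤
      ENNReal.ofReal v * (ENNReal.ofReal (Real.exp (-(lam * γ * x ^ a)) *
        (1 / (1 - lam))) * H w +
        n * ENNReal.ofReal K * ENNReal.ofReal (Real.exp (-((β * x) ^ a)))) := by
    filter_upwards [hπ.ae_ordered] with w hw
    have hpre : MeasurableSet (Prod.mk w ⁻¹' B) := measurable_prodMk_left hBm
    have hind : (noise μ ν) (Prod.mk w ⁻¹' B) =
        ∫⁻ z, (Prod.mk w ⁻¹' B).indicator 1 z ∂(noise μ ν) := by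
      rw [lintegral_indicator_one hpre]
    rw [hind, lintegral_noise_cons (measurable_one.indicator hpre)]
    have h3 : ∀ p : ℝ × ℝ, ∫⁻ z, (Prod.mk w ⁻¹' B).indicator (1 : (ℕ → ℝ × ℝ) → ℝ≥0∞)
        (gcons p z) ∂(noise μ ν) ≤
        ENNReal.ofReal v * (F w p + n * ENNReal.ofReal K *
          (Set.Ioi (β * x)).indicator 1 p.1) := by
      intro p
      by_cases hp : β * x < p.1 ∧ cost a b' R (kwStep w p.1 p.2) ≤
          cost a b' R w + p.1 ^ a - γ * x ^ a
      · refine le_trans ?_ ((htail (kwStep w p.1 p.2) (kwStep_fst_nonneg _ _ _)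
          (kwStep_fst_le_snd _ _ _)).trans ?_)
        · have hset : MeasurableSet {z : ℕ → ℝ × ℝ | x < (pIter (kwStep w p.1 p.2) z n).1} :=
            measurableSet_lt measurable_const (measurable_pIter_right _ n).fst
          rw [← lintegral_indicator_one hset]
          apply lintegral_mono
          intro z
          by_cases hz : gcons p z ∈ Prod.mk w ⁻¹' B
          · have hz' : x < (pIter w (gcons p z) (n + 1)).1 := hz.2.2
            rw [pIter_gcons] at hz'
            simp only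
            rw [Set.indicator_of_mem hz, Set.indicator_of_mem (show z ∈
              {z : ℕ → ℝ × ℝ | x < (pIter (kwStep w p.1 p.2) z n).1} from hz')]
            simp
          · simp only
            rw [Set.indicator_of_notMem hz]
            exact zero_le
        · rw [Set.indicator_of_mem (show p.1 ∈ Set.Ioi (β * x) from hp.1)]
          simp only [Pi.one_apply, mul_one]
          gcongr
          rw [hF, hH]
          simp only
          rw [← ENNReal.ofReal_mul (by positivity), ← ENNReal.ofReal_mul (by positivity)]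
          apply ENNReal.ofReal_le_ofReal
          calc Real.exp (lam * cost a b' R (kwStep w p.1 p.2))
              ≤ Real.exp (-(lam * γ * x ^ a) + lam * cost a b' R w + lam * p.1 ^ a) := by
                apply Real.exp_le_exp.mpr
                have h9 : lam * cost a b' R (kwStep w p.1 p.2) ≤
                    lam * (cost a b' R w + p.1 ^ a - γ * x ^ a) :=
                  mul_le_mul_of_nonneg_left hp.2 hl0.le
                refine h9.trans (le_of_eq ?_)
                ring
            _ = _ := by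
                rw [Real.exp_add, Real.exp_add]
      · have hz0 : ∀ z : ℕ → ℝ × ℝ, (Prod.mk w ⁻¹' B).indicator
            (1 : (ℕ → ℝ × ℝ) → ℝ≥0∞) (gcons p z) = 0 := by
          intro z
          have hz : gcons p z ∉ Prod.mk w ⁻¹' B := fun h => hp ⟨h.1, h.2.1⟩
          exact Set.indicator_of_notMem hz _
        simp only [hz0, lintegral_zero]
        exact zero_le
    refine (lintegral_mono h3).trans ?_
    have hFm : Measurable fun p : ℝ × ℝ => F w p := by
      rw [hF]
      fun_prop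
    have him : Measurable fun p : ℝ × ℝ =>
        (Set.Ioi (β * x)).indicator (1 : ℝ → ℝ≥0∞) p.1 :=
      (measurable_one.indicator measurableSet_Ioi).comp measurable_fst
    have hsm : Measurable fun p : ℝ × ℝ => F w p + n * ENNReal.ofReal K *
          (Set.Ioi (β * x)).indicator (1 : ℝ → ℝ≥0∞) p.1 := hFm.add (him.const_mul _)
    rw [lintegral_const_mul _ hsm, lintegral_add_left hFm,
      lintegral_const_mul _ him]
    gcongr
    · -- first part
      have e1 : ∫⁻ p, F w p ∂(μ.prod ν) =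
          ENNReal.ofReal (Real.exp (-(lam * γ * x ^ a))) * H w *
            ∫⁻ s, ENNReal.ofReal (Real.exp (lam * s ^ a)) ∂μ := by
        rw [hF]
        simp only
        rw [lintegral_const_mul _ (by fun_prop), lintegral_prod _ (by fun_prop)]
        simp
      rw [e1]
      have h11 := weibull_lintegral_exp ha0 hμ hl0.le hl1
      calc _ ≤ ENNReal.ofReal (Real.exp (-(lam * γ * x ^ a))) * H w *
            ENNReal.ofReal (1 / (1 - lam)) := by gcongr
        _ = _ := by
            rw [mul_right_comm, ← ENNReal.ofReal_mul (by positivity)]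
    · -- second part
      have e2 : ∫⁻ p, (Set.Ioi (β * x)).indicator (1 : ℝ → ℝ≥0∞) p.1 ∂(μ.prod ν) =
          μ (Set.Ioi (β * x)) := by
        rw [lintegral_prod _ him.aemeasurable]
        simp only [lintegral_const, measure_univ, mul_one]
        rw [lintegral_indicator_one measurableSet_Ioi]
      rw [e2, hμ (β * x) (by positivity)]
  refine (lintegral_mono_ae hpoint).trans ?_
  rw [lintegral_const_mul _ (by fun_prop), lintegral_add_right _ measurable_const,
    lintegral_const_mul _ hHm, lintegral_const, measure_univ, mul_one]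
  have hmeanπ := hmean π hπ
  have hnn : (n : ℝ≥0∞) = ENNReal.ofReal n := (ENNReal.ofReal_natCast n).symm
  rw [hnn]
  calc ENNReal.ofReal v * (ENNReal.ofReal (Real.exp (-(lam * γ * x ^ a)) *
        (1 / (1 - lam))) * ∫⁻ w, H w ∂π +
        ENNReal.ofReal n * ENNReal.ofReal K * ENNReal.ofReal (Real.exp (-((β * x) ^ a))))
      ≤ ENNReal.ofReal v * (ENNReal.ofReal (Real.exp (-(lam * γ * x ^ a)) *
        (1 / (1 - lam))) * ENNReal.ofReal CL +
        ENNReal.ofReal n * ENNReal.ofReal K * ENNReal.ofReal (Real.exp (-((β * x) ^ a)))) := by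
        gcongr
    _ = ENNReal.ofReal (v * (Real.exp (-(lam * γ * x ^ a)) *
        (1 / (1 - lam)) * CL + n * K * Real.exp (-((β * x) ^ a)))) := by
        rw [← ENNReal.ofReal_mul (by positivity),
          ← ENNReal.ofReal_mul (by positivity), ← ENNReal.ofReal_mul (by positivity),
          ← ENNReal.ofReal_add (by positivity)
          (by positivity), ← ENNReal.ofReal_mul hv0.le]
    _ ≤ _ := by
        apply ENNReal.ofReal_le_ofReal
        have e3 : (β * x) ^ a = β ^ a * x ^ a := Real.mul_rpow hβ.le hx0.le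
        have e5 : v * Real.exp (-(lam * γ * x ^ a)) =
            Real.exp (-(lam * (θ + γ) * x ^ a)) := by
          rw [hv, ← Real.exp_add]; congr 1; ring
        have e6 : v * Real.exp (-((β * x) ^ a)) = Real.exp (-((lam * θ + β ^ a) * x ^ a)) := by
          rw [hv, e3, ← Real.exp_add]; congr 1; ring
        have h12 : Real.exp (-(lam * (θ + γ) * x ^ a)) ≤
            Real.exp (-((2 + 2 * ρ) * x ^ a)) := by
          apply Real.exp_le_exp.mpr
          have : (2 + 2 * ρ) * x ^ a ≤ lam * (θ + γ) * x ^ a := by gcongr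
          linarith
        have h13 : Real.exp (-((lam * θ + β ^ a) * x ^ a)) ≤
            Real.exp (-((2 + 2 * ρ) * x ^ a)) := by
          apply Real.exp_le_exp.mpr
          have : (2 + 2 * ρ) * x ^ a ≤ (lam * θ + β ^ a) * x ^ a := by gcongr
          linarith
        have hCx : 0 ≤ C * x := (Nat.cast_nonneg n).trans hn
        have e7 : Real.exp (-((2 + 2 * ρ) * x ^ a)) = Real.exp (-(ρ * x ^ a)) *
            Real.exp (-((2 + ρ) * x ^ a)) := by
          rw [← Real.exp_add]
          congr 1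
          ring
        calc v * (Real.exp (-(lam * γ * x ^ a)) *
              (1 / (1 - lam)) * CL + n * K * Real.exp (-((β * x) ^ a)))
            = C1 * (v * Real.exp (-(lam * γ * x ^ a))) +
              n * K * (v * Real.exp (-((β * x) ^ a))) := by rw [hC1]; ring
          _ ≤ C1 * Real.exp (-((2 + 2 * ρ) * x ^ a)) +
              C * x * K * Real.exp (-((2 + 2 * ρ) * x ^ a)) := by
              rw [e5, e6]; gcongr
          _ = ((C1 + C * x * K) * Real.exp (-(ρ * x ^ a))) *
              Real.exp (-((2 + ρ) * x ^ a)) := by rw [e7]; ring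
          _ ≤ 1 * Real.exp (-((2 + ρ) * x ^ a)) := by gcongr
          _ = _ := one_mul _

end stoch

end Pool.Agent.Lib.MP_04add8_pr
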