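import Mathlib
import Pool.Agent.Lib.MP_04add8_pr.One.Combine

open MeasureTheory ProbabilityTheory Filter Topology
open scoped ENNReal

set_option linter.unusedSectionVars false

namespace Pool.Agent.Lib.MP_04add8_pr

/-- increments of a strictly concave power decrease strictly -/
lemma GainStrict_incr {a q M d : ℝ} (ha0 : 0 < a) (ha1 : a < 1) (hq : 0 ≤ q) (hqM : q < M)
    (hd : 0 < d) : (M + d) ^ a + q ^ a < M ^ a + (q + d) ^ a := by
  have hc := Real.strictConcaveOn_rpow ha0 ha1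
  set D := M + d - q with hD
  have hD0 : 0 < D := by rw [hD]; linarith
  have hl1 : 0 < d / D := by positivity
  have hl2 : 0 < (M - q) / D := div_pos (by linarith) hD0
  have hl3 : d / D + (M - q) / D = 1 := by
    rw [← add_div, div_eq_one_iff_eq hD0.ne', hD]; ring
  have hl3' : (M - q) / D + d / D = 1 := by rw [add_comm]; exact hl3
  have hqm : q ∈ Set.Ici (0 : ℝ) := hq
  have hMm : M + d ∈ Set.Ici (0 : ℝ) := by
    change 0 ≤ M + d
    linarith
  have hne : q ≠ M + d := by linarith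
  have h1 := hc.2 hqm hMm hne hl1 hl2 hl3
  have h2 := hc.2 hqm hMm hne hl2 hl1 hl3'
  simp only [smul_eq_mul] at h1 h2
  have e1 : d / D * q + (M - q) / D * (M + d) = M := by
    field_simp
    rw [hD]; ring
  have e2 : (M - q) / D * q + d / D * (M + d) = q + d := by
    field_simp
    rw [hD]; ring
  rw [e1] at h1
  rw [e2] at h2
  have e3 : d / D * q ^ a + (M - q) / D * (M + d) ^ a + ((M - q) / D * q ^ a +
      d / D * (M + d) ^ a) = (d / D + (M - q) / D) * (q ^ a + (M + d) ^ a) := by ring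
  rw [hl3, one_mul] at e3
  linarith

lemma GainStrict_one {a b q M : ℝ} (ha0 : 0 < a) (ha1 : a < 1) (hb : 0 < b) (hq : 0 < q)
    (hqM : q < M) : (M + q / b) ^ a < M ^ a + ((1 + 1 / b) ^ a - 1) * q ^ a := by
  have h := GainStrict_incr ha0 ha1 hq.le hqM (d := q / b) (by positivity)
  have e : (q + q / b) ^ a = (1 + 1 / b) ^ a * q ^ a := by
    rw [← Real.mul_rpow (by positivity) hq.le]
    congr 1
    ring
  rw [e] at h
  linarith

/-- the scaled cost, with `c = 1 / b` -/
noncomputable def gsF (a c r s p q : ℝ) : ℝ :=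
  min ((q + c * √(p ^ 2 + r ^ 2)) ^ a) (p ^ a + q ^ a + s)

/-- the scaled gain -/
noncomputable def gsG (a : ℝ) (z : ℝ × ℝ × ℝ) (k : ℝ × ℝ × ℝ) : ℝ :=
  gsF a z.1 z.2.1 z.2.2 k.1 k.2.1 + k.2.2 ^ a -
    gsF a z.1 z.2.1 z.2.2 (min (k.1 + k.2.2) k.2.1) (max (k.1 + k.2.2) k.2.1)

lemma gsG_continuous {a : ℝ} (ha0 : 0 < a) :
    Continuous (fun p : (ℝ × ℝ × ℝ) × (ℝ × ℝ × ℝ) => gsG a p.1 p.2) := by
  unfold gsG gsF
  have hr : Continuous (fun x : ℝ => x ^ a) := Real.continuous_rpow_const ha0.le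
  apply Continuous.sub
  · apply Continuous.add
    · apply Continuous.min
      · exact hr.comp (by fun_prop)
      · exact ((hr.comp (by fun_prop)).add (hr.comp (by fun_prop))).add (by fun_prop)
    · exact hr.comp (by fun_prop)
  · apply Continuous.min
    · exact hr.comp (by fun_prop)
    · exact ((hr.comp (by fun_prop)).add (hr.comp (by fun_prop))).add (by fun_prop)

lemma gsF_eq {a b R x : ℝ} (hx : 0 < x) (hb : 0 < b) {p q : ℝ} (hp : 0 ≤ p)
    (hq : 0 ≤ q) : cost a b R (p, q) = x ^ a * gsF a (1 / b) (R / x) (x ^ (-a)) (p / x) (q / x) := by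
  unfold cost gsF bigA
  simp only
  rw [mul_min_of_nonneg _ _ (by positivity : (0 : ℝ) ≤ x ^ a)]
  congr 1
  · rw [← Real.mul_rpow hx.le (by positivity)]
    congr 1
    have h1 : √((p / x) ^ 2 + (R / x) ^ 2) = √(p ^ 2 + R ^ 2) / x := by
      rw [div_pow, div_pow, ← add_div, Real.sqrt_div (by positivity), Real.sqrt_sq hx.le]
    rw [h1]
    field_simp
  · have h1 : p ^ a = x ^ a * (p / x) ^ a := by
      rw [← Real.mul_rpow hx.le (by positivity)]
      congr 1
      field_simp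
    have h2 : q ^ a = x ^ a * (q / x) ^ a := by
      rw [← Real.mul_rpow hx.le (by positivity)]
      congr 1
      field_simp
    have h3 : x ^ a * x ^ (-a) = 1 := by
      rw [← Real.rpow_add hx, add_neg_cancel, Real.rpow_zero]
    rw [mul_add, mul_add, ← h1, ← h2, h3]

/-- positivity of the scaled gain in the limit -/
lemma gsG_pos {a b0 : ℝ} (ha0 : 0 < a) (ha1 : a < 1) (hb0 : 0 < b0) (hb01 : b0 < 1)
    (hcrit : (1 + 1 / b0) ^ a = 2) {u1 u2 v : ℝ} (h0 : 0 ≤ u1) (h1 : u1 ≤ u2) (h2 : 0 < u2)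
    (hv : 0 < v) (hne : 0 < u1 ∨ u2 ≠ v) :
    0 < gsG a (1 / b0, 0, 0) (u1, u2, v) := by
  have hib : 1 < 1 / b0 := by rw [lt_div_iff₀ hb0]; linarith
  set c := 1 / b0 with hc
  have hc0 : 0 < c := by linarith
  have hdiv : ∀ z : ℝ, z / b0 = c * z := fun z => by rw [hc]; ring
  unfold gsG gsF
  simp only
  set mn := min (u1 + v) u2 with hmn
  set mx := max (u1 + v) u2 with hmx
  have hmn0 : 0 ≤ mn := le_min (by linarith) h2.le
  have hmx0 : 0 ≤ mx := h2.le.trans (le_max_right _ _)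
  set U := u2 + c * u1 with hU
  have hU0 : 0 < U := by rw [hU]; positivity
  have hUu : u2 ≤ U := by rw [hU]; nlinarith
  -- the cost before
  have hcost0 : U ^ a ≤ min ((u2 + c * √(u1 ^ 2 + 0 ^ 2)) ^ a) (u1 ^ a + u2 ^ a + 0) := by
    apply le_min
    · have : √(u1 ^ 2 + 0 ^ 2) = u1 := by
        rw [zero_pow two_ne_zero, add_zero, Real.sqrt_sq h0]
      rw [this]
    · have h := BadBig_one ha0 ha1 hb0 h0 h1
      rw [hcrit, hdiv] at h
      rw [hU]
      linarith
  -- the cost after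
  have hcost1 : min ((mx + c * √(mn ^ 2 + 0 ^ 2)) ^ a) (mn ^ a + mx ^ a + 0) ≤
      (mx + c * mn) ^ a := by
    refine (min_le_left _ _).trans ?_
    have : √(mn ^ 2 + 0 ^ 2) = mn := by
      rw [zero_pow two_ne_zero, add_zero, Real.sqrt_sq hmn0]
    rw [this]
  have hkey : mx + c * mn ≤ max U v + c * min U v := by
    rcases le_total (u1 + v) u2 with h | h
    · rw [hmx, hmn, max_eq_right h, min_eq_left h]
      have hsU : v ≤ U := by linarith
      rw [max_eq_left hsU, min_eq_right hsU, hU]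
      linarith
    · rw [hmx, hmn, max_eq_left h, min_eq_right h]
      rcases le_total v U with hsU | hsU
      · rw [max_eq_left hsU, min_eq_right hsU, hU]
        nlinarith
      · rw [max_eq_right hsU, min_eq_left hsU, hU]
        have h3 : u1 ≤ c * u1 := by nlinarith
        have h4 : c * u1 ≤ c * (c * u1) := by nlinarith
        nlinarith
  have hsum : (max U v) ^ a + (min U v) ^ a = U ^ a + v ^ a := by
    rcases le_total U v with h | h
    · rw [max_eq_right h, min_eq_left h]; ring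
    · rw [max_eq_left h, min_eq_right h]
  have hmid : (mx + c * mn) ^ a < U ^ a + v ^ a := by
    rcases eq_or_ne U v with hUv | hUv
    · have hu1 : 0 < u1 := by
        rcases hne with h | h
        · exact h
        · rcases h0.eq_or_lt with h3 | h3
          · exfalso
            apply h
            rw [← hUv, hU, ← h3]
            ring
          · exact h3
      have hle : u2 ≤ u1 + v := by rw [← hUv]; linarith
      have hlt : mx + c * mn < U + c * U := by
        rw [hmx, hmn, max_eq_left hle, min_eq_right hle, ← hUv, hU]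
        have h3 : u1 < c * u1 := by nlinarith
        have h4 : c * u1 < c * (c * u1) := by nlinarith
        nlinarith
      have h5 : (mx + c * mn) ^ a < (U + c * U) ^ a :=
        Real.rpow_lt_rpow (by positivity) hlt ha0
      have h6 := BadBig_one ha0 ha1 hb0 hU0.le (le_refl U)
      rw [hcrit, hdiv] at h6
      rw [← hUv]
      linarith
    · have hq : 0 < min U v := lt_min hU0 hv
      have hqM : min U v < max U v := min_lt_max.mpr hUv
      have h6 := GainStrict_one ha0 ha1 hb0 hq hqM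
      rw [hcrit, hdiv] at h6
      have h7 : (mx + c * mn) ^ a ≤ (max U v + c * min U v) ^ a :=
        Real.rpow_le_rpow (by positivity) hkey ha0.le
      linarith
  linarith

lemma GainStrict_cost_mono {a b R : ℝ} (ha : 0 < a) (hb : 0 < b) {u w : ℝ × ℝ}
    (h0 : 0 ≤ u.1) (h0' : 0 ≤ u.2) (h1 : u.1 ≤ w.1)
    (h2 : u.2 ≤ w.2) : cost a b R u ≤ cost a b R w := by
  unfold cost
  have hA := bigA_mono (R := R) hb h0 h1 h2
  have hA0 : 0 ≤ bigA b R u := by
    unfold bigA
    positivity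
  gcongr

theorem gain_strict {a b0 : ℝ} (ha0 : 0 < a) (ha1 : a < 1) (hb0 : 0 < b0) (hb01 : b0 < 1)
    (hcrit : (1 + 1 / b0) ^ a = 2) {ε e β D : ℝ} (hε : 0 < ε) (he : 0 < e) (hβ : 0 < β)
    (hD : 0 < D) :
    ∃ γ b1 : ℝ, 0 < γ ∧ b0 < b1 ∧ ∀ b : ℝ, b0 ≤ b → b ≤ b1 → ∀ R : ℝ, 0 ≤ R →
      ∃ x0 : ℝ, 0 < x0 ∧ ∀ x, x0 ≤ x → ∀ w : ℝ × ℝ, 0 ≤ w.1 → w.1 ≤ w.2 → ∀ y t : ℝ, 0 ≤ t →
        e * x ≤ w.2 → w.2 ≤ D * x → β * x ≤ y → y ≤ D * x →
        cost a b R w + y ^ a - γ * x ^ a ≤ cost a b R (kwStep w y t) →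
        w.1 ≤ ε * x ∧ |w.2 - y| ≤ ε * x := by
  set KK : Set (ℝ × ℝ × ℝ) := {k | 0 ≤ k.1 ∧ k.1 ≤ k.2.1 ∧ k.2.1 ≤ D ∧ e ≤ k.2.1 ∧ β ≤ k.2.2 ∧
    k.2.2 ≤ D ∧ (ε ≤ k.1 ∨ ε ≤ |k.2.1 - k.2.2|)} with hKK
  have hclosed : IsClosed KK := by
    rw [hKK]
    simp only [Set.setOf_and, Set.setOf_or]
    refine IsClosed.inter ?_ (IsClosed.inter ?_ (IsClosed.inter ?_ (IsClosed.inter ?_
      (IsClosed.inter ?_ (IsClosed.inter ?_ (IsClosed.union ?_ ?_))))))
    all_goals exact isClosed_le (by fun_prop) (by fun_prop)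
  have hcompact : IsCompact KK := by
    apply IsCompact.of_isClosed_subset
      (isCompact_Icc (a := ((0, 0, 0) : ℝ × ℝ × ℝ)) (b := (D, D, D))) hclosed
    intro k hk
    obtain ⟨k1, k2, k3, k4, k5, k6, -⟩ := hk
    exact ⟨⟨k1, ⟨k1.trans k2, by
      change (0 : ℝ) ≤ k.2.2
      linarith⟩⟩, ⟨k2.trans k3, ⟨k3, k6⟩⟩⟩
  have hcont := gsG_continuous ha0
  have hposK : ∀ k ∈ KK, 0 < gsG a (1 / b0, 0, 0) k := by
    intro k hk
    obtain ⟨k1, k2, k3, k4, k5, k6, k7⟩ := hk
    apply gsG_pos ha0 ha1 hb0 hb01 hcrit k1 k2 (he.trans_le k4) (hβ.trans_le k5)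
    rcases k7 with h | h
    · left; linarith
    · right
      intro h2
      rw [h2, sub_self, abs_zero] at h
      linarith
  obtain ⟨γ, hγ, hγK⟩ : ∃ γ : ℝ, 0 < γ ∧ ∀ k ∈ KK, γ < gsG a (1 / b0, 0, 0) k := by
    rcases KK.eq_empty_or_nonempty with h | h
    · exact ⟨1, one_pos, fun k hk => by rw [h] at hk; exact absurd hk (Set.notMem_empty _)⟩
    · have hc2 : Continuous (fun k : ℝ × ℝ × ℝ => gsG a (1 / b0, 0, 0) k) :=
        hcont.comp (by fun_prop : Continuous (fun k : ℝ × ℝ × ℝ => (((1 / b0, 0, 0) :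
          ℝ × ℝ × ℝ), k)))
      obtain ⟨k0, hk0, hmin⟩ := hcompact.exists_isMinOn h hc2.continuousOn
      refine ⟨gsG a (1 / b0, 0, 0) k0 / 2, by have := hposK k0 hk0; positivity, ?_⟩
      intro k hk
      have h1 := hposK k0 hk0
      have h2 := hmin hk
      simp only [Set.mem_setOf_eq] at h2
      linarith
  have hev : ∀ᶠ z : ℝ × ℝ × ℝ in 𝓝 (1 / b0, 0, 0), ∀ k ∈ KK, γ < gsG a z k := by
    apply hcompact.eventually_forall_of_forall_eventually
    intro k hk
    exact hcont.continuousAt.eventually (lt_mem_nhds (hγK k hk))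
  have htend : Tendsto (fun z : ℝ × ℝ × ℝ => ((1 / z.1, z.2.1, z.2.2) : ℝ × ℝ × ℝ))
      (𝓝 (b0, 0, 0)) (𝓝 (1 / b0, 0, 0)) := by
    have : ContinuousAt (fun z : ℝ × ℝ × ℝ => ((1 / z.1, z.2.1, z.2.2) : ℝ × ℝ × ℝ))
        (b0, 0, 0) := by
      apply ContinuousAt.prodMk
      · apply ContinuousAt.div continuousAt_const continuousAt_fst hb0.ne'
      · fun_prop
    exact this
  have hev2 := htend.eventually hev
  rw [Metric.eventually_nhds_iff] at hev2
  obtain ⟨ρ, hρ, hball⟩ := hev2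
  refine ⟨γ, b0 + ρ / 2, hγ, by linarith, ?_⟩
  intro b hb0b hbb1 R hR
  have hb : 0 < b := hb0.trans_le hb0b
  have hR1 : ∀ᶠ x : ℝ in atTop, R / x < ρ := by
    have : Tendsto (fun x : ℝ => R / x) atTop (𝓝 0) := tendsto_const_nhds.div_atTop tendsto_id
    exact this.eventually (gt_mem_nhds hρ)
  have hR2 : ∀ᶠ x : ℝ in atTop, x ^ (-a) < ρ :=
    (tendsto_rpow_neg_atTop ha0).eventually (gt_mem_nhds hρ)
  obtain ⟨x0, hx0⟩ := (hR1.and (hR2.and (eventually_gt_atTop 0))).exists_forall_of_atTop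
  refine ⟨max x0 1, lt_max_of_lt_right one_pos, ?_⟩
  intro x hx w hw0 hw1 y t ht hew hwD hβy hyD hcost
  obtain ⟨hx1, hx2, hxpos⟩ := hx0 x ((le_max_left _ _).trans hx)
  have hz : ∀ k ∈ KK, γ < gsG a (1 / b, R / x, x ^ (-a)) k := by
    apply hball (y := (b, R / x, x ^ (-a)))
    rw [Prod.dist_eq, Prod.dist_eq]
    simp only [max_lt_iff]
    refine ⟨?_, ?_, ?_⟩
    · rw [Real.dist_eq, abs_lt]
      constructor <;> linarith
    · rw [Real.dist_eq, sub_zero, abs_of_nonneg (by positivity)]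
      exact hx1
    · rw [Real.dist_eq, sub_zero, abs_of_nonneg (by positivity)]
      exact hx2
  by_contra hcon
  have hy0 : 0 ≤ y := le_trans (by positivity) hβy
  have hw2 : 0 ≤ w.2 := hw0.trans hw1
  have hmem : (w.1 / x, w.2 / x, y / x) ∈ KK := by
    refine ⟨by simp only; positivity, ?_, ?_, ?_, ?_, ?_, ?_⟩
    · simp only; gcongr
    · simp only; rw [div_le_iff₀ hxpos]; exact hwD
    · simp only; rw [le_div_iff₀ hxpos]; exact hew
    · simp only; rw [le_div_iff₀ hxpos]; exact hβy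
    · simp only; rw [div_le_iff₀ hxpos]; exact hyD
    · simp only
      rw [not_and_or, not_le, not_le] at hcon
      rcases hcon with h | h
      · left; rw [le_div_iff₀ hxpos]; exact h.le
      · right
        rw [← sub_div, abs_div, abs_of_pos hxpos, le_div_iff₀ hxpos]
        exact h.le
  have h1 := hz _ hmem
  have hstep : cost a b R (kwStep w y t) ≤ cost a b R (min (w.1 + y) w.2, max (w.1 + y) w.2) := by
    rw [kwStep_eq]
    have h1 : max (w.1 + y - t) 0 ≤ w.1 + y := max_le (by linarith) (by linarith)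
    have h2 : max (w.2 - t) 0 ≤ w.2 := max_le (by linarith) hw2
    apply GainStrict_cost_mono ha0 hb
    · exact le_min (le_max_right _ _) (le_max_right _ _)
    · exact (le_max_right _ _).trans (le_max_left _ _)
    · exact min_le_min h1 h2
    · exact max_le_max h1 h2
  have hscale : cost a b R w + y ^ a - cost a b R (min (w.1 + y) w.2, max (w.1 + y) w.2) =
      x ^ a * gsG a (1 / b, R / x, x ^ (-a)) (w.1 / x, w.2 / x, y / x) := by
    have e1 := gsF_eq (a := a) (R := R) hxpos hb hw0 hw2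
    have e2 := gsF_eq (a := a) (R := R) hxpos hb (p := min (w.1 + y) w.2)
      (q := max (w.1 + y) w.2) (le_min (by linarith) hw2) (hw2.trans (le_max_right _ _))
    have e3 : y ^ a = x ^ a * (y / x) ^ a := by
      rw [← Real.mul_rpow hxpos.le (by positivity)]
      congr 1
      field_simp
    have e4 : min (w.1 + y) w.2 / x = min (w.1 / x + y / x) (w.2 / x) := by
      rw [← add_div]
      exact (min_div_div_right hxpos.le _ _).symm
    have e5 : max (w.1 + y) w.2 / x = max (w.1 / x + y / x) (w.2 / x) := by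
      rw [← add_div]
      exact (max_div_div_right hxpos.le _ _).symm
    rw [e4, e5] at e2
    unfold gsG
    simp only
    rw [e2, e3]
    have e6 : cost a b R w = cost a b R (w.1, w.2) := rfl
    rw [e6, e1]
    ring
  have h2 : γ * x ^ a < x ^ a * gsG a (1 / b, R / x, x ^ (-a)) (w.1 / x, w.2 / x, y / x) := by
    rw [mul_comm]
    have : 0 < x ^ a := by positivity
    gcongr
  linarith

end Pool.Agent.Lib.MP_04add8_pr
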