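import Mathlib
import Pool.Agent.Lib.MP_04add8_pr.One.Combine
import Pool.Agent.Lib.MP_04add8_pr.Crit.LinGen
import Pool.Agent.Lib.MP_04add8_pr.Crit.GainStrict
import Pool.Agent.Lib.MP_04add8_pr.Crit.CritPot
import Pool.Agent.Lib.MP_04add8_pr.Crit.PairTail

/-!
# CritFront: the front part of the critical case (helper52)
-/

open MeasureTheory ProbabilityTheory Filter Topology
open scoped ENNReal

set_option linter.unusedSectionVars false

namespace Pool.Agent.Lib.MP_04add8_pr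

/-- comparison of exponentials at infinity -/
lemma CF_ev {a c c' : ℝ} (ha0 : 0 < a) (h : c' < c) (A p : ℝ) {η : ℝ} (hη : 0 < η) :
    ∀ᶠ x : ℝ in atTop, A * x ^ p * Real.exp (-(c * x ^ a)) ≤ η * Real.exp (-(c' * x ^ a)) := by
  have h1 : Tendsto (fun x : ℝ => A * (x ^ p * Real.exp (-((c - c') * x ^ a)))) atTop (𝓝 0) := by
    simpa using (tendsto_rpow_mul_exp_neg_rpow ha0 (sub_pos.2 h) p).const_mul A
  filter_upwards [h1.eventually_le_const hη] with x hx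
  have e : A * x ^ p * Real.exp (-(c * x ^ a)) =
      A * (x ^ p * Real.exp (-((c - c') * x ^ a))) * Real.exp (-(c' * x ^ a)) := by
    have : Real.exp (-(c * x ^ a)) = Real.exp (-((c - c') * x ^ a)) * Real.exp (-(c' * x ^ a)) := by
      rw [← Real.exp_add]; congr 1; ring
    rw [this]; ring
  rw [e]
  gcongr

lemma CF_bigA_le {b R : ℝ} (hb : 0 < b) (hR : 0 ≤ R) {v : ℝ × ℝ} (h0 : 0 ≤ v.1) :
    bigA b R v ≤ v.2 + (v.1 + R) / b := by
  unfold bigA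
  have : √(v.1 ^ 2 + R ^ 2) ≤ v.1 + R := by
    rw [Real.sqrt_le_left (by positivity)]
    nlinarith
  gcongr

lemma CF_le_bigA {b R : ℝ} (hb : 0 < b) {v : ℝ × ℝ} {x : ℝ} (hx : 0 ≤ x) (hx1 : x ≤ v.1)
    (h1 : v.1 ≤ v.2) : (1 + 1 / b) * x ≤ bigA b R v := by
  unfold bigA
  have h2 : x ≤ √(v.1 ^ 2 + R ^ 2) := by
    apply Real.le_sqrt_of_sq_le
    nlinarith [sq_nonneg R]
  have h3 : x / b ≤ √(v.1 ^ 2 + R ^ 2) / b := by gcongr
  have e : (1 + 1 / b) * x = x + x / b := by ring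
  linarith

lemma CF_kwStep_le {w : ℝ × ℝ} {y t c : ℝ} (h0 : 0 ≤ w.1) (hy : 0 ≤ y) (ht : 0 ≤ t)
    (hc : w.1 + y ≤ c) (hc' : w.2 ≤ c) : (kwStep w y t).2 ≤ c := by
  unfold kwStep
  have hc0 : 0 ≤ c := by linarith
  refine max_le (max_le (by linarith) hc0) (max_le (by linarith) hc0)

/-- the linear comparison -/
lemma CF_lin {b R δ ε ε' x n y A : ℝ} (hb : 0 < b) (hb1 : b < 1) (hδ : 0 < δ) (hx : 0 < x)
    (hε : 0 < ε) (hε1 : ε ≤ 1 / 2) (he0 : 0 < ε') (he1 : ε' ≤ ε / 8)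
    (he2 : ε' * (8 * (1 + 1 / b)) ≤ δ * ε)
    (hx1 : R / b ≤ ε / 8 * x) (hx2 : R / b ≤ δ * ε / 4 * x) (hn : 0 ≤ n)
    (hA : A ≤ (y + ε' * x) * (1 + 1 / b) + R / b)
    (hcase : y ≤ (1 - ε / 2) * x ∨ (y ≤ (1 + ε') * x ∧ ε * x < n)) :
    ε / 4 * (1 + 1 / b) * x ≤ (1 + 1 / b) * x - max (A - δ * n) 0 ∨
      δ * ε / 2 * x ≤ (1 + 1 / b) * x - max (A - δ * n) 0 := by
  set p := 1 + 1 / b with hp
  have hp2 : 2 < p := by
    have : 1 < 1 / b := by rw [lt_div_iff₀ hb]; linarith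
    linarith
  have hpx : 0 < p * x := by positivity
  rcases le_total (A - δ * n) 0 with h0 | h0
  · left
    rw [max_eq_right h0]
    have h1 : ε / 4 * (p * x) ≤ 1 * (p * x) := by gcongr; linarith
    linarith
  · rw [max_eq_left h0]
    rcases hcase with hc | ⟨hc, hnn⟩
    · left
      have h1 : (y + ε' * x) * p ≤ ((1 - ε / 2) * x + ε / 8 * x) * p := by
        gcongr
      have h2 : 0 ≤ δ * n := by positivity
      have h3 : ε / 8 * x ≤ ε / 8 * (p * x) := by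
        have : 1 * x ≤ p * x := by gcongr; linarith
        have : x ≤ p * x := by linarith
        gcongr
      have e1 : ((1 - ε / 2) * x + ε / 8 * x) * p = p * x - 3 / 8 * (ε * (p * x)) := by ring
      have e2 : ε / 8 * (p * x) = 1 / 8 * (ε * (p * x)) := by ring
      have e3 : ε / 4 * p * x = 1 / 4 * (ε * (p * x)) := by ring
      rw [e3]
      linarith
    · right
      have h1 : (y + ε' * x) * p ≤ ((1 + ε') * x + ε' * x) * p := by
        gcongr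
      have h2 : δ * (ε * x) ≤ δ * n := by gcongr
      have h3 : ε' * (8 * p) * x ≤ δ * ε * x := by gcongr
      have e1 : ((1 + ε') * x + ε' * x) * p = p * x + 1 / 4 * (ε' * (8 * p) * x) := by ring
      have e2 : δ * ε / 4 * x = 1 / 4 * (δ * ε * x) := by ring
      have e3 : δ * ε / 2 * x = 1 / 2 * (δ * ε * x) := by ring
      have e4 : δ * (ε * x) = δ * ε * x := by ring
      rw [e3]
      linarith

section stoch

variable {a : ℝ} {μ ν : Measure ℝ} [IsProbabilityMeasure μ] [IsProbabilityMeasure ν]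

/-- one slice of the near part -/
lemma CF_slice {b R δ K β C0 x ε ε' : ℝ} (hb : 0 < b) (hb1 : b < 1) (hR : 0 < R)
    (hδ : 0 < δ) (hK : 0 < K) (hC0 : 0 ≤ C0) (hx : 0 < x)
    (hlin : ∀ v : ℝ × ℝ, 0 ≤ v.1 → v.1 ≤ v.2 → ∀ (n : ℕ) (Y : ℝ),
        (noise μ ν) (allLe (β * x) n ∩ {z | Y ≤ bigA b R (pIter v z n)}) ≤
          ENNReal.ofReal (C0 * (n + 1) *
            Real.exp (-(K * x ^ (a - 1) * (Y - max (bigA b R v - δ * n) 0)))))
    (hε : 0 < ε) (hε1 : ε ≤ 1 / 2) (he0 : 0 < ε') (he1 : ε' ≤ ε / 8)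
    (he2 : ε' * (8 * (1 + 1 / b)) ≤ δ * ε)
    (hp1 : 3 ≤ K * (ε / 4 * (1 + 1 / b))) (hp2 : 3 ≤ K * (δ * ε / 2))
    (hx1 : R / b ≤ ε / 8 * x) (hx2 : R / b ≤ δ * ε / 4 * x)
    {w : ℝ × ℝ} (h0 : 0 ≤ w.1) {y t : ℝ} (hy : 0 ≤ y) (ht : 0 ≤ t)
    (hw1 : w.1 ≤ ε' * x) (hw2 : w.2 ≤ y + ε' * x) (n : ℕ)
    (hcase : y ≤ (1 - ε / 2) * x ∨ (y ≤ (1 + ε') * x ∧ ε * x < n)) :
    (noise μ ν) (allLe (β * x) n ∩ {z | x < (pIter (kwStep w y t) z n).1}) ≤
      ENNReal.ofReal (C0 * (n + 1) * Real.exp (-(3 * x ^ a))) := by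
  set v := kwStep w y t with hv
  have hv0 : 0 ≤ v.1 := kwStep_fst_nonneg _ _ _
  have hv1 : v.1 ≤ v.2 := kwStep_fst_le_snd _ _ _
  have hv2 : v.2 ≤ y + ε' * x := CF_kwStep_le h0 hy ht (by linarith) hw2
  have hA : bigA b R v ≤ (y + ε' * x) * (1 + 1 / b) + R / b := by
    refine (CF_bigA_le hb hR.le hv0).trans ?_
    have h3 : (v.1 + R) / b ≤ (y + ε' * x + R) / b := by
      have : v.1 ≤ y + ε' * x := hv1.trans hv2
      gcongr
    have e : (y + ε' * x) * (1 + 1 / b) + R / b = (y + ε' * x) + (y + ε' * x + R) / b := by ring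
    linarith
  have hmain := CF_lin (n := (n : ℝ)) hb hb1 hδ hx hε hε1 he0 he1 he2 hx1 hx2
    (Nat.cast_nonneg n) hA hcase
  have hsub : (allLe (β * x) n ∩ {z | x < (pIter v z n).1}) ⊆
      allLe (β * x) n ∩ {z | (1 + 1 / b) * x ≤ bigA b R (pIter v z n)} := by
    rintro z ⟨hz1, hz2⟩
    refine ⟨hz1, ?_⟩
    have hz2' : x < (pIter v z n).1 := hz2
    exact CF_le_bigA hb hx.le hz2'.le (pIter_ordered hv0 hv1 z n).2
  refine (measure_mono hsub).trans ((hlin v hv0 hv1 n _).trans ?_)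
  apply ENNReal.ofReal_le_ofReal
  have hxa : x ^ (a - 1) * x = x ^ a := by
    rw [← Real.rpow_add_one hx.ne']; congr 1; ring
  have hxa0 : 0 < x ^ (a - 1) := by positivity
  have hexp : 3 * x ^ a ≤ K * x ^ (a - 1) * ((1 + 1 / b) * x - max (bigA b R v - δ * n) 0) := by
    rcases hmain with h | h
    · calc 3 * x ^ a ≤ K * (ε / 4 * (1 + 1 / b)) * x ^ a := by gcongr
        _ = K * x ^ (a - 1) * (ε / 4 * (1 + 1 / b) * x) := by rw [← hxa]; ring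
        _ ≤ _ := by gcongr
    · calc 3 * x ^ a ≤ K * (δ * ε / 2) * x ^ a := by gcongr
        _ = K * x ^ (a - 1) * (δ * ε / 2 * x) := by rw [← hxa]; ring
        _ ≤ _ := by gcongr
  gcongr

/-- the near part -/
lemma CF_near {b R δ K β C0 x ε ε' : ℝ} (hb : 0 < b) (hb1 : b < 1) (hR : 0 < R)
    (hδ : 0 < δ) (hK : 0 < K) (hC0 : 0 ≤ C0) (hx : 0 < x)
    (hlin : ∀ v : ℝ × ℝ, 0 ≤ v.1 → v.1 ≤ v.2 → ∀ (n : ℕ) (Y : ℝ),
        (noise μ ν) (allLe (β * x) n ∩ {z | Y ≤ bigA b R (pIter v z n)}) ≤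
          ENNReal.ofReal (C0 * (n + 1) *
            Real.exp (-(K * x ^ (a - 1) * (Y - max (bigA b R v - δ * n) 0)))))
    (hε : 0 < ε) (hε1 : ε ≤ 1 / 2) (he0 : 0 < ε') (he1 : ε' ≤ ε / 8)
    (he2 : ε' * (8 * (1 + 1 / b)) ≤ δ * ε)
    (hp1 : 3 ≤ K * (ε / 4 * (1 + 1 / b))) (hp2 : 3 ≤ K * (δ * ε / 2))
    (hx1 : R / b ≤ ε / 8 * x) (hx2 : R / b ≤ δ * ε / 4 * x)
    {π : Measure (ℝ × ℝ)} [IsProbabilityMeasure π] (n : ℕ) :
    (π.prod (noise μ ν)) {q | 0 ≤ q.1.1 ∧ 0 ≤ (q.2 0).1 ∧ 0 ≤ (q.2 0).2 ∧ q.1.1 ≤ ε' * x ∧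
      q.1.2 ≤ (q.2 0).1 + ε' * x ∧
      ((q.2 0).1 ≤ (1 - ε / 2) * x ∨ ((q.2 0).1 ≤ (1 + ε') * x ∧ ε * x < n)) ∧
      (∀ i < n, (q.2 (i + 1)).1 ≤ β * x) ∧ x < (pIter q.1 q.2 (n + 1)).1} ≤
      ENNReal.ofReal (C0 * (n + 1) * Real.exp (-(3 * x ^ a))) := by
  set S : Set ((ℝ × ℝ) × (ℕ → ℝ × ℝ)) := {q | 0 ≤ q.1.1 ∧ 0 ≤ (q.2 0).1 ∧ 0 ≤ (q.2 0).2 ∧
      q.1.1 ≤ ε' * x ∧ q.1.2 ≤ (q.2 0).1 + ε' * x ∧
      ((q.2 0).1 ≤ (1 - ε / 2) * x ∨ ((q.2 0).1 ≤ (1 + ε') * x ∧ ε * x < n)) ∧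
      (∀ i < n, (q.2 (i + 1)).1 ≤ β * x) ∧ x < (pIter q.1 q.2 (n + 1)).1} with hS
  have hm1 : Measurable fun q : (ℝ × ℝ) × (ℕ → ℝ × ℝ) => (q.2 0).1 := by fun_prop
  have hm2 : Measurable fun q : (ℝ × ℝ) × (ℕ → ℝ × ℝ) => (q.2 0).2 := by fun_prop
  have hm3 : Measurable fun q : (ℝ × ℝ) × (ℕ → ℝ × ℝ) => q.1.1 := by fun_prop
  have hm4 : Measurable fun q : (ℝ × ℝ) × (ℕ → ℝ × ℝ) => q.1.2 := by fun_prop
  have hSm : MeasurableSet S := by
    refine (measurableSet_le measurable_const hm3).inter ?_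
    refine (measurableSet_le measurable_const hm1).inter ?_
    refine (measurableSet_le measurable_const hm2).inter ?_
    refine (measurableSet_le hm3 measurable_const).inter ?_
    refine (measurableSet_le hm4 (hm1.add_const _)).inter ?_
    refine MeasurableSet.inter ?_ (MeasurableSet.inter ?_ ?_)
    · refine (measurableSet_le hm1 measurable_const).union ?_
      exact (measurableSet_le hm1 measurable_const).inter (MeasurableSet.const _)
    · have : {q : (ℝ × ℝ) × (ℕ → ℝ × ℝ) | ∀ i < n, (q.2 (i + 1)).1 ≤ β * x} =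
          ⋂ i ∈ Finset.range n, {q : (ℝ × ℝ) × (ℕ → ℝ × ℝ) | (q.2 (i + 1)).1 ≤ β * x} := by
        ext q; simp
      have h3 : MeasurableSet {q : (ℝ × ℝ) × (ℕ → ℝ × ℝ) | ∀ i < n, (q.2 (i + 1)).1 ≤ β * x} := by
        rw [this]
        exact Finset.measurableSet_biInter _ fun i _ =>
          measurableSet_le (by fun_prop) measurable_const
      exact h3
    · exact measurableSet_lt measurable_const (measurable_pIter (n + 1)).fst
  rw [Measure.prod_apply hSm]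
  have hslice : ∀ w : ℝ × ℝ, (noise μ ν) (Prod.mk w ⁻¹' S) ≤
      ENNReal.ofReal (C0 * (n + 1) * Real.exp (-(3 * x ^ a))) := by
    intro w
    have hpre : MeasurableSet (Prod.mk w ⁻¹' S) := measurable_prodMk_left hSm
    rw [← lintegral_indicator_one hpre, lintegral_noise_cons (measurable_one.indicator hpre)]
    have hle : ∀ p : ℝ × ℝ, ∫⁻ z, (Prod.mk w ⁻¹' S).indicator (1 : (ℕ → ℝ × ℝ) → ℝ≥0∞)
        (gcons p z) ∂(noise μ ν) ≤
        ENNReal.ofReal (C0 * (n + 1) * Real.exp (-(3 * x ^ a))) := by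
      intro p
      by_cases hp : 0 ≤ w.1 ∧ 0 ≤ p.1 ∧ 0 ≤ p.2 ∧ w.1 ≤ ε' * x ∧ w.2 ≤ p.1 + ε' * x ∧
          (p.1 ≤ (1 - ε / 2) * x ∨ (p.1 ≤ (1 + ε') * x ∧ ε * x < n))
      · obtain ⟨g1, g2, g3, g4, g5, g6⟩ := hp
        refine le_trans ?_ (CF_slice hb hb1 hR hδ hK hC0 hx hlin hε hε1 he0 he1 he2 hp1 hp2
          hx1 hx2 g1 g2 g3 g4 g5 n g6)
        have hset : MeasurableSet (allLe (β * x) n ∩
            {z : ℕ → ℝ × ℝ | x < (pIter (kwStep w p.1 p.2) z n).1}) :=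
          (measurableSet_allLe _ _).inter
            (measurableSet_lt measurable_const (measurable_pIter_right _ n).fst)
        rw [← lintegral_indicator_one hset]
        apply lintegral_mono
        intro z
        by_cases hz : gcons p z ∈ Prod.mk w ⁻¹' S
        · have hz' : (w, gcons p z) ∈ S := hz
          obtain ⟨-, -, -, -, -, -, k1, k2⟩ := hz'
          have k2' : x < (pIter w (gcons p z) (n + 1)).1 := k2
          rw [pIter_gcons] at k2'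
          have k1' : z ∈ allLe (β * x) n := fun i hi => k1 i hi
          simp only
          rw [Set.indicator_of_mem hz, Set.indicator_of_mem (show z ∈ (allLe (β * x) n ∩
            {z : ℕ → ℝ × ℝ | x < (pIter (kwStep w p.1 p.2) z n).1}) from ⟨k1', k2'⟩)]
          simp
        · simp only
          rw [Set.indicator_of_notMem hz]
          exact zero_le
      · have hzero : ∀ z, (Prod.mk w ⁻¹' S).indicator (1 : (ℕ → ℝ × ℝ) → ℝ≥0∞)
            (gcons p z) = 0 := by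
          intro z
          apply Set.indicator_of_notMem
          rintro ⟨k1, k2, k3, k4, k5, k6, -, -⟩
          exact hp ⟨k1, k2, k3, k4, k5, k6⟩
        simp only [hzero, lintegral_zero]
        exact zero_le
    refine (lintegral_mono hle).trans ?_
    rw [lintegral_const, measure_univ, mul_one]
  refine (lintegral_mono hslice).trans ?_
  rw [lintegral_const, measure_univ, mul_one]

/-- a marginal of the path measure -/
lemma CF_marg_fst {π : Measure (ℝ × ℝ)} [IsProbabilityMeasure π] {S : Set (ℝ × ℝ)} :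
    (π.prod (noise μ ν)) {q | q.1 ∈ S} = π S := by
  have h2 : {q : (ℝ × ℝ) × (ℕ → ℝ × ℝ) | q.1 ∈ S} = S ×ˢ Set.univ := by
    ext q; simp
  rw [h2, Measure.prod_prod, measure_univ, mul_one]

lemma CF_marg_job {π : Measure (ℝ × ℝ)} [IsProbabilityMeasure π] {S : Set ℝ}
    (hS : MeasurableSet S) :
    (π.prod (noise μ ν)) {q | (q.2 0).1 ∈ S} = μ S := by
  have h1 := (measurePreserving_eval_infinitePi (fun _ : ℕ => μ.prod ν) 0).measure_preimage
    (s := {p : ℝ × ℝ | p.1 ∈ S}) (measurable_fst hS).nullMeasurableSet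
  have h2 : {q : (ℝ × ℝ) × (ℕ → ℝ × ℝ) | (q.2 0).1 ∈ S} =
      Set.univ ×ˢ (Function.eval 0 ⁻¹' {p : ℝ × ℝ | p.1 ∈ S}) := by
    ext q; simp
  have h3 : {p : ℝ × ℝ | p.1 ∈ S} = S ×ˢ Set.univ := by
    ext q; simp
  rw [h2, Measure.prod_prod, measure_univ, one_mul]
  refine h1.trans ?_
  rw [h3, Measure.prod_prod, measure_univ, mul_one]

theorem crit_front (ha0 : 0 < a) (ha1 : a < 1)
    (hμ : ∀ x, 0 ≤ x → μ (Set.Ioi x) = ENNReal.ofReal (Real.exp (-(x ^ a))))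
    (hν : ν (Set.Iio 0) = 0) (hνi : Integrable (fun t : ℝ => t) ν)
    (hm : 0 < ∫ t, t ∂ν)
    (hgt : (∫ t, t ∂ν) < ∫ s, s ∂μ) (hlt : (∫ s, s ∂μ) < 2 * ∫ t, t ∂ν)
    (h2 : ((∫ s, s ∂μ) / ((∫ s, s ∂μ) - ∫ t, t ∂ν)) ^ a = 2)
    {ε e : ℝ} (hε : 0 < ε) (hε1 : ε ≤ 1 / 2) (he : 0 < e) :
    ∃ β1 : ℝ, 0 < β1 ∧ ∀ β : ℝ, 0 < β → β ≤ β1 → ∃ δ : ℝ, 0 < δ ∧ ∀ C : ℝ,
      ∀ᶠ x : ℝ in atTop, ∀ π : Measure (ℝ × ℝ), IsStationaryKW μ ν π → ∀ n : ℕ,
        (n : ℝ) ≤ C * x →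
        (π.prod (noise μ ν)) (oneBig x (β * x) (β * x) n ∩ {q | e * x < q.1.2 ∧
          ¬ (q.1.1 ≤ ε * x ∧ (1 - ε) * x ≤ q.1.2 ∧ (1 - ε) * x ≤ (q.2 0).1 ∧
            (n : ℝ) ≤ ε * x)}) ≤
          ENNReal.ofReal (Real.exp (-((2 + δ) * x ^ a))) := by
  set E := ∫ s, s ∂μ with hE
  set m := ∫ t, t ∂ν with hmdef
  have hEm : 0 < E - m := by linarith
  -- the parameters
  set b0 := (E - m) / m with hb0def
  have hb00 : 0 < b0 := div_pos hEm hm
  have hb01 : b0 < 1 := by rw [hb0def, div_lt_one hm]; linarith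
  have hcrit : (1 + 1 / b0) ^ a = 2 := by
    rw [← h2]
    congr 1
    rw [hb0def]
    field_simp
    ring
  obtain ⟨bh, hbh, hbh1⟩ := exists_between hb01
  have hbh0 : 0 < bh := hb00.trans hbh
  have hbm : E < (1 + bh) * m := by
    rw [hb0def, div_lt_iff₀ hm] at hbh
    linarith
  have hθ : (1 + 1 / bh) ^ a ≤ 2 := by
    rw [← hcrit]
    have : 1 / bh ≤ 1 / b0 := one_div_le_one_div_of_le hb00 hbh.le
    gcongr
  obtain ⟨Rh, dh, hRh, hdh, hlin⟩ := lin_gen ha0 ha1 hμ hν hνi hm hgt hbh0 hbh1 hbm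
  set p := 1 + 1 / bh with hp
  have hp1 : 1 < p := by
    have : 0 < 1 / bh := by positivity
    linarith
  have hp0 : 0 < p := by linarith
  obtain ⟨ε', he0, he1, he2⟩ : ∃ ε' : ℝ, 0 < ε' ∧ ε' ≤ ε / 8 ∧ ε' * (8 * p) ≤ dh * ε := by
    refine ⟨min (ε / 8) (dh * ε / (8 * p)), lt_min (by positivity) (by positivity),
      min_le_left _ _, ?_⟩
    have : min (ε / 8) (dh * ε / (8 * p)) ≤ dh * ε / (8 * p) := min_le_right _ _
    calc min (ε / 8) (dh * ε / (8 * p)) * (8 * p) ≤ dh * ε / (8 * p) * (8 * p) := by gcongr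
      _ = dh * ε := by field_simp
  obtain ⟨K, hK, hK1, hK2⟩ : ∃ K : ℝ, 0 < K ∧ 3 ≤ K * (ε / 4 * p) ∧ 3 ≤ K * (dh * ε / 2) := by
    refine ⟨max (3 / (ε / 4 * p)) (3 / (dh * ε / 2)), lt_max_of_lt_left (by positivity), ?_, ?_⟩
    · have h3 : 3 / (ε / 4 * p) ≤ max (3 / (ε / 4 * p)) (3 / (dh * ε / 2)) := le_max_left _ _
      calc (3 : ℝ) = 3 / (ε / 4 * p) * (ε / 4 * p) := by field_simp
        _ ≤ _ := by gcongr
    · have h3 : 3 / (dh * ε / 2) ≤ max (3 / (ε / 4 * p)) (3 / (dh * ε / 2)) := le_max_right _ _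
      calc (3 : ℝ) = 3 / (dh * ε / 2) * (dh * ε / 2) := by field_simp
        _ ≤ _ := by gcongr
  obtain ⟨β1, C4, x4, hβ1, hC4, hx4, hlin'⟩ := hlin K hK
  refine ⟨β1, hβ1, fun β hβ hβle => ?_⟩
  -- the compactness parameters
  set D : ℝ := 4 ^ (1 / a) with hDdef
  have hD0 : 0 < D := by positivity
  have hDa : D ^ a = 4 := by
    rw [hDdef, ← Real.rpow_mul (by norm_num), one_div_mul_cancel ha0.ne', Real.rpow_one]
  obtain ⟨γ, b1, hγ, hb1, hgain⟩ := gain_strict ha0 ha1 hb00 hb01 hcrit he0 he hβ hD0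
  obtain ⟨b, R, δ2, hbgt, hble, hR, hδ2, hpot⟩ :=
    crit_pot ha0 ha1 hμ hν hνi hm hgt hlt h2 hγ hβ hb1
  obtain ⟨x5, hx5, hgain'⟩ := hgain b hbgt.le hble R hR.le
  -- pairs
  set Θ : ℝ := 1 + (1 + ε') ^ a with hΘ
  have hΘ2 : 2 < Θ := by
    have : 1 < (1 + ε') ^ a := Real.one_lt_rpow (by linarith) ha0
    linarith
  set lam : ℝ := (1 + 2 / Θ) / 2 with hlamdef
  have h2Θ : 2 / Θ < 1 := by rw [div_lt_one (by linarith)]; exact hΘ2
  have h2Θ0 : 0 < 2 / Θ := by positivity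
  have hl2 : 1 / 2 ≤ lam := by rw [hlamdef]; linarith
  have hl1 : lam < 1 := by rw [hlamdef]; linarith
  set δ3 : ℝ := (Θ - 2) / 2 with hδ3def
  have hδ3 : 0 < δ3 := by rw [hδ3def]; linarith
  have hlΘ : lam * Θ = 2 + δ3 := by
    have hΘ0 : Θ ≠ 0 := by linarith
    rw [hlamdef, hδ3def]
    field_simp
    ring
  obtain ⟨C3, hC3, hpair⟩ := pair_tail ha0 ha1 hμ hν hνi hgt hbh0 hbh1 hbm hθ hl2 hl1
  obtain ⟨C1, y1, hC1, hy1, htail⟩ := tail_snd ha0 ha1 hμ hν hνi hm hgt hlt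
    (lam := 3 / 4) (by norm_num) (by norm_num)
  obtain ⟨δ, hδ0, hδa, hδb, hδc⟩ : ∃ δ : ℝ, 0 < δ ∧ δ < δ2 ∧ δ < δ3 ∧ δ < 1 := by
    refine ⟨min (min δ2 δ3) 1 / 2, by positivity, ?_, ?_, ?_⟩
    · have h3 : min (min δ2 δ3) 1 ≤ δ2 := (min_le_left _ _).trans (min_le_left _ _)
      linarith
    · have h3 : min (min δ2 δ3) 1 ≤ δ3 := (min_le_left _ _).trans (min_le_right _ _)
      linarith
    · have h3 : min (min δ2 δ3) 1 ≤ 1 := min_le_right _ _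
      linarith
  refine ⟨δ, hδ0, fun C => ?_⟩
  have hη : (0 : ℝ) < 1 / 5 := by norm_num
  have ev1 := CF_ev (c := 3) (c' := 2 + δ) ha0 (by linarith) C1 0 hη
  have ev2 := CF_ev (c := 4) (c' := 2 + δ) ha0 (by linarith) 1 0 hη
  have ev3 := CF_ev (c := 2 + δ2) (c' := 2 + δ) ha0 (by linarith) 1 0 hη
  have ev4 := CF_ev (c := 2 + δ3) (c' := 2 + δ) ha0 (by linarith) C3 0 hη
  have ev5 := CF_ev (c := 3) (c' := 2 + δ) ha0 (by linarith) (C4 * (|C| + 1)) 1 hη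
  have hxR1 : ∀ᶠ x : ℝ in atTop, Rh / bh ≤ ε / 8 * x := by
    have : Tendsto (fun x : ℝ => ε / 8 * x) atTop atTop :=
      tendsto_id.const_mul_atTop (by positivity)
    exact this.eventually_ge_atTop _
  have hxR2 : ∀ᶠ x : ℝ in atTop, Rh / bh ≤ dh * ε / 4 * x := by
    have : Tendsto (fun x : ℝ => dh * ε / 4 * x) atTop atTop :=
      tendsto_id.const_mul_atTop (by positivity)
    exact this.eventually_ge_atTop _
  have hxD : ∀ᶠ x : ℝ in atTop, y1 ≤ D * x := by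
    have : Tendsto (fun x : ℝ => D * x) atTop atTop := tendsto_id.const_mul_atTop hD0
    exact this.eventually_ge_atTop _
  filter_upwards [hpot C, ev1, ev2, ev3, ev4, ev5, hxR1, hxR2, hxD, eventually_ge_atTop x4,
    eventually_ge_atTop x5, eventually_ge_atTop 1] with x hxpot hxe1 hxe2 hxe3 hxe4 hxe5 hxr1 hxr2
    hxd hxx4 hxx5 hxx1
  intro π hπ n hn
  have hprob : IsProbabilityMeasure π := hπ.1
  have hx0 : 0 < x := by linarith
  have hxa0 : 0 < x ^ a := by positivity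
  set S1 : Set ((ℝ × ℝ) × (ℕ → ℝ × ℝ)) := {q | q.1 ∈ {w : ℝ × ℝ | D * x < w.2}} with hS1
  set S2 : Set ((ℝ × ℝ) × (ℕ → ℝ × ℝ)) := {q | (q.2 0).1 ∈ Set.Ioi (D * x)} with hS2
  set S3 : Set ((ℝ × ℝ) × (ℕ → ℝ × ℝ)) := {q | β * x < (q.2 0).1 ∧
          cost a b R (kwStep q.1 (q.2 0).1 (q.2 0).2) ≤
            cost a b R q.1 + (q.2 0).1 ^ a - γ * x ^ a ∧ x < (pIter q.1 q.2 (n + 1)).1} with hS3
  set S4 : Set ((ℝ × ℝ) × (ℕ → ℝ × ℝ)) := {q | Θ * x ^ a ≤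
    (q.1.2 + q.1.1 / bh) ^ a + (q.2 0).1 ^ a} with hS4
  set S5 : Set ((ℝ × ℝ) × (ℕ → ℝ × ℝ)) := {q | 0 ≤ q.1.1 ∧ 0 ≤ (q.2 0).1 ∧ 0 ≤ (q.2 0).2 ∧
      q.1.1 ≤ ε' * x ∧ q.1.2 ≤ (q.2 0).1 + ε' * x ∧
      ((q.2 0).1 ≤ (1 - ε / 2) * x ∨ ((q.2 0).1 ≤ (1 + ε') * x ∧ ε * x < n)) ∧
      (∀ i < n, (q.2 (i + 1)).1 ≤ β * x) ∧ x < (pIter q.1 q.2 (n + 1)).1} with hS5
  -- the five bounds
  have hm1 : (π.prod (noise μ ν)) S1 ≤ ENNReal.ofReal (C1 * Real.exp (-(3 * x ^ a))) := by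
    rw [hS1, CF_marg_fst]
    refine (htail π hπ _ hxd).trans (le_of_eq ?_)
    congr 3
    rw [Real.mul_rpow hD0.le hx0.le, hDa]
    ring
  have hm2 : (π.prod (noise μ ν)) S2 ≤ ENNReal.ofReal (Real.exp (-(4 * x ^ a))) := by
    rw [hS2, CF_marg_job measurableSet_Ioi, hμ _ (by positivity)]
    refine le_of_eq ?_
    congr 3
    rw [Real.mul_rpow hD0.le hx0.le, hDa]
  have hm3 : (π.prod (noise μ ν)) S3 ≤ ENNReal.ofReal (Real.exp (-((2 + δ2) * x ^ a))) :=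
    hxpot π hπ n hn
  have hm4 : (π.prod (noise μ ν)) S4 ≤ ENNReal.ofReal (C3 * Real.exp (-((2 + δ3) * x ^ a))) := by
    refine (hpair π hπ _).trans (le_of_eq ?_)
    congr 3
    rw [← hlΘ]
    ring
  have hm5 : (π.prod (noise μ ν)) S5 ≤
      ENNReal.ofReal (C4 * (n + 1) * Real.exp (-(3 * x ^ a))) :=
    CF_near hbh0 hbh1 hRh hdh hK hC4 hx0 (fun v hv0 hv1 k Y => hlin' β hβ hβle x hxx4 v hv0 hv1
      k Y) hε hε1 he0 he1 he2 hK1 hK2 hxr1 hxr2 n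
  -- the covering
  have hcover : ∀ᵐ q ∂(π.prod (noise μ ν)), q ∈ (oneBig x (β * x) (β * x) n ∩ {q | e * x < q.1.2 ∧
          ¬ (q.1.1 ≤ ε * x ∧ (1 - ε) * x ≤ q.1.2 ∧ (1 - ε) * x ≤ (q.2 0).1 ∧
            (n : ℝ) ≤ ε * x)}) → q ∈ S1 ∪ (S2 ∪ (S3 ∪ (S4 ∪ S5))) := by
    filter_upwards [ae_path ha0 hμ hν hπ] with q hq hqE
    obtain ⟨⟨hq0, hq1⟩, hqz⟩ := hq
    obtain ⟨⟨hbig, hsmall, hend⟩, hqe, hnice⟩ := hqE
    by_cases c1 : D * x < q.1.2
    · exact Or.inl c1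
    right
    by_cases c2 : D * x < (q.2 0).1
    · exact Or.inl c2
    right
    by_cases c3 : cost a b R (kwStep q.1 (q.2 0).1 (q.2 0).2) ≤
            cost a b R q.1 + (q.2 0).1 ^ a - γ * x ^ a
    · exact Or.inl ⟨hbig, c3, hend⟩
    right
    obtain ⟨g1, g2⟩ := hgain' x hxx5 q.1 hq0 hq1 (q.2 0).1 (q.2 0).2 (hqz 0).2
      (le_of_lt hqe) (not_lt.1 c1) hbig.le (not_lt.1 c2) (not_le.1 c3).le
    obtain ⟨g3, g4⟩ := abs_le.1 g2
    by_cases c4 : (1 + ε') * x < (q.2 0).1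
    · left
      show Θ * x ^ a ≤ (q.1.2 + q.1.1 / bh) ^ a + (q.2 0).1 ^ a
      have k1 : x ≤ q.1.2 + q.1.1 / bh := by
        have : 0 ≤ q.1.1 / bh := by positivity
        linarith
      have k2 : x ^ a ≤ (q.1.2 + q.1.1 / bh) ^ a := by gcongr
      have k3 : ((1 + ε') * x) ^ a ≤ (q.2 0).1 ^ a := by
        have := c4.le
        gcongr
      rw [Real.mul_rpow (by linarith) hx0.le] at k3
      rw [hΘ]
      linarith
    · right
      have c4' := not_lt.1 c4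
      refine ⟨hq0, (hqz 0).1, (hqz 0).2, g1, by linarith, ?_, hsmall, hend⟩
      by_contra hcon
      push Not at hcon
      obtain ⟨k1, k2⟩ := hcon
      have k3 := k2 c4'
      have hεx : 0 < ε * x := by positivity
      apply hnice
      refine ⟨?_, ?_, ?_, k3⟩
      · have : ε' * x ≤ ε * x := by
          have : ε' ≤ ε := by linarith
          gcongr
        linarith
      · have h3 : ε' * x ≤ ε / 8 * x := by gcongr
        linarith
      · linarith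
  calc (π.prod (noise μ ν)) (oneBig x (β * x) (β * x) n ∩ {q | e * x < q.1.2 ∧
          ¬ (q.1.1 ≤ ε * x ∧ (1 - ε) * x ≤ q.1.2 ∧ (1 - ε) * x ≤ (q.2 0).1 ∧
            (n : ℝ) ≤ ε * x)})
      ≤ (π.prod (noise μ ν)) (S1 ∪ (S2 ∪ (S3 ∪ (S4 ∪ S5)))) := measure_mono_ae hcover
    _ ≤ (π.prod (noise μ ν)) S1 + ((π.prod (noise μ ν)) S2 + ((π.prod (noise μ ν)) S3 +
          ((π.prod (noise μ ν)) S4 + (π.prod (noise μ ν)) S5))) := by
        refine (measure_union_le _ _).trans (add_le_add le_rfl ?_)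
        refine (measure_union_le _ _).trans (add_le_add le_rfl ?_)
        refine (measure_union_le _ _).trans (add_le_add le_rfl ?_)
        exact measure_union_le _ _
    _ ≤ ENNReal.ofReal (C1 * Real.exp (-(3 * x ^ a))) +
          (ENNReal.ofReal (Real.exp (-(4 * x ^ a))) +
          (ENNReal.ofReal (Real.exp (-((2 + δ2) * x ^ a))) +
          (ENNReal.ofReal (C3 * Real.exp (-((2 + δ3) * x ^ a))) +
          ENNReal.ofReal (C4 * (n + 1) * Real.exp (-(3 * x ^ a)))))) := by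
        gcongr
    _ = ENNReal.ofReal (C1 * Real.exp (-(3 * x ^ a)) + (Real.exp (-(4 * x ^ a)) +
          (Real.exp (-((2 + δ2) * x ^ a)) + (C3 * Real.exp (-((2 + δ3) * x ^ a)) +
          C4 * (n + 1) * Real.exp (-(3 * x ^ a)))))) := by
        rw [← ENNReal.ofReal_add (by positivity) (by positivity),
          ← ENNReal.ofReal_add (by positivity) (by positivity),
          ← ENNReal.ofReal_add (by positivity) (by positivity),
          ← ENNReal.ofReal_add (by positivity) (by positivity)]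
    _ ≤ ENNReal.ofReal (Real.exp (-((2 + δ) * x ^ a))) := by
        apply ENNReal.ofReal_le_ofReal
        rw [Real.rpow_zero, mul_one] at hxe1 hxe2 hxe3 hxe4
        rw [Real.rpow_one] at hxe5
        have hn1 : (n : ℝ) + 1 ≤ (|C| + 1) * x := by
          have : C * x ≤ |C| * x := by
            have := le_abs_self C
            gcongr
          linarith
        have h5 : C4 * (n + 1) * Real.exp (-(3 * x ^ a)) ≤
            C4 * (|C| + 1) * x * Real.exp (-(3 * x ^ a)) := by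
          have : C4 * ((n : ℝ) + 1) ≤ C4 * (|C| + 1) * x := by
            rw [mul_assoc]
            gcongr
          gcongr
        linarith

end stoch

end Pool.Agent.Lib.MP_04add8_pr
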