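import Mathlib
import Pool.Agent.Lib.MP_04add8_pr.One.Combine

open MeasureTheory ProbabilityTheory Filter Topology
open scoped ENNReal

set_option linter.unusedSectionVars false

namespace Pool.Agent.Lib.MP_04add8_pr

variable {a : ℝ} {μ ν : Measure ℝ} [IsProbabilityMeasure μ] [IsProbabilityMeasure ν]

lemma noise_zero (c : ℝ) : (noise μ ν) {z | c ≤ (z 0).1} = μ (Set.Ici c) := by
  have hm : MeasurableSet {z : ℕ → ℝ × ℝ | c ≤ (z 0).1} :=
    measurableSet_le measurable_const (by fun_prop)
  rw [← lintegral_indicator_one hm, lintegral_noise_cons (measurable_one.indicator hm)]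
  have e : ∀ p : ℝ × ℝ, ∫⁻ z, ({z : ℕ → ℝ × ℝ | c ≤ (z 0).1}).indicator
      (1 : (ℕ → ℝ × ℝ) → ℝ≥0∞) (gcons p z) ∂(noise μ ν) =
      (Set.Ici c).indicator (1 : ℝ → ℝ≥0∞) p.1 := by
    intro p
    have e1 : ∀ z : ℕ → ℝ × ℝ, ({z : ℕ → ℝ × ℝ | c ≤ (z 0).1}).indicator
      (1 : (ℕ → ℝ × ℝ) → ℝ≥0∞) (gcons p z) = (Set.Ici c).indicator (1 : ℝ → ℝ≥0∞) p.1 := by
      intro z
      by_cases hp : c ≤ p.1
      · rw [Set.indicator_of_mem (by exact hp), Set.indicator_of_mem (by exact hp)]
        rfl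
      · rw [Set.indicator_of_notMem (by exact hp), Set.indicator_of_notMem (by exact hp)]
    simp only [e1, lintegral_const, measure_univ, mul_one]
  simp only [e]
  have him : Measurable fun p : ℝ × ℝ => (Set.Ici c).indicator (1 : ℝ → ℝ≥0∞) p.1 :=
    (measurable_one.indicator measurableSet_Ici).comp measurable_fst
  rw [lintegral_prod _ him.aemeasurable]
  simp only [lintegral_const, measure_univ, mul_one]
  rw [lintegral_indicator_one measurableSet_Ici]

theorem indep_next {π : Measure (ℝ × ℝ)} [IsProbabilityMeasure π] {n : ℕ}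
    {S : Set ((ℝ × ℝ) × (ℕ → ℝ × ℝ))} (hS : MeasurableSet S)
    (hdep : ∀ (w : ℝ × ℝ) (z z' : ℕ → ℝ × ℝ), (∀ k < n, z k = z' k) →
      (w, z) ∈ S → (w, z') ∈ S) (c : ℝ) :
    (π.prod (noise μ ν)) (S ∩ {q | c ≤ (q.2 n).1}) ≤
      (π.prod (noise μ ν)) S * μ (Set.Ici c) := by
  have hm : MeasurableSet {q : (ℝ × ℝ) × (ℕ → ℝ × ℝ) | c ≤ (q.2 n).1} :=
    measurableSet_le measurable_const (by fun_prop)
  rw [Measure.prod_apply (hS.inter hm), Measure.prod_apply hS,
    ← lintegral_mul_const' _ _ (measure_ne_top _ _)]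
  apply lintegral_mono
  intro w
  simp only
  have hSw : MeasurableSet (Prod.mk w ⁻¹' S) := measurable_prodMk_left hS
  have hSm : MeasurableSet (Prod.mk w ⁻¹' (S ∩ {q | c ≤ (q.2 n).1})) :=
    measurable_prodMk_left (hS.inter hm)
  rw [← lintegral_indicator_one hSm, lintegral_noise_cat n (measurable_one.indicator hSm)]
  calc ∫⁻ z, ∫⁻ z', (Prod.mk w ⁻¹' (S ∩ {q | c ≤ (q.2 n).1})).indicator
        (1 : (ℕ → ℝ × ℝ) → ℝ≥0∞) (cat n z z') ∂(noise μ ν) ∂(noise μ ν)
      ≤ ∫⁻ z, (Prod.mk w ⁻¹' S).indicator (1 : (ℕ → ℝ × ℝ) → ℝ≥0∞) z * μ (Set.Ici c)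
          ∂(noise μ ν) := by
        apply lintegral_mono
        intro z
        simp only
        by_cases hz : z ∈ Prod.mk w ⁻¹' S
        · rw [Set.indicator_of_mem hz, Pi.one_apply, one_mul, ← noise_zero (μ := μ) (ν := ν),
            ← lintegral_indicator_one (measurableSet_le measurable_const (by fun_prop))]
          apply lintegral_mono
          intro z'
          simp only
          by_cases h : cat n z z' ∈ Prod.mk w ⁻¹' (S ∩ {q | c ≤ (q.2 n).1})
          · have h2 : c ≤ (cat n z z' n).1 := h.2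
            have e := cat_add n 0 z z'
            rw [add_zero] at e
            rw [e] at h2
            rw [Set.indicator_of_mem h, Set.indicator_of_mem (by exact h2)]
            exact le_rfl
          · rw [Set.indicator_of_notMem h]
            exact zero_le
        · have : ∀ z', (Prod.mk w ⁻¹' (S ∩ {q | c ≤ (q.2 n).1})).indicator
              (1 : (ℕ → ℝ × ℝ) → ℝ≥0∞) (cat n z z') = 0 := by
            intro z'
            apply Set.indicator_of_notMem
            intro h
            apply hz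
            exact hdep w (cat n z z') z (fun k hk => cat_lt z z' hk) h.1
          simp only [this, lintegral_zero]
          exact zero_le
    _ = (noise μ ν) (Prod.mk w ⁻¹' S) * μ (Set.Ici c) := by
        rw [lintegral_mul_const' _ _ (measure_ne_top _ _), lintegral_indicator_one hSw]

end Pool.Agent.Lib.MP_04add8_pr
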