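import Mathlib
import Pool.Agent.Lib.MP_04add8_pr.One.Combine
import Pool.Agent.Lib.MP_04add8_pr.Crit.CritBack
import Pool.Agent.Lib.MP_04add8_pr.Crit.SumSmall
import Pool.Agent.Lib.MP_04add8_pr.Crit.Indep

open MeasureTheory ProbabilityTheory Filter Topology
open scoped ENNReal

set_option linter.unusedSectionVars false

namespace Pool.Agent.Lib.MP_04add8_pr

variable {a : ℝ} {μ ν : Measure ℝ} [IsProbabilityMeasure μ] [IsProbabilityMeasure ν]

/-- the nice event -/
def niceEvent (x β ε : ℝ) (n : ℕ) : Set ((ℝ × ℝ) × (ℕ → ℝ × ℝ)) :=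
  oneBig x (β * x) (β * x) n ∩
    {q | q.1.1 ≤ ε * x ∧ (1 - ε) * x ≤ q.1.2 ∧ (1 - ε) * x ≤ (q.2 0).1}

/-- the exceptional event of `crit_back` -/
def niceBad (x b ε εm : ℝ) (n0 : ℕ) : Set ((ℝ × ℝ) × (ℕ → ℝ × ℝ)) :=
  {q | (pIter q.1 q.2 n0).1 ≤ ε * x ∧ (1 - ε) * x ≤ (pIter q.1 q.2 n0).2 ∧
    ¬ ∃ k < n0, (pIter q.1 q.2 k).2 ≤ 2 * εm * x ∧ b * x < (q.2 k).1 ∧
      ∀ j, k < j → j < n0 → (q.2 j).1 ≤ b * x}

/-- many small jobs with a large sum -/
def niceSum (x b εm : ℝ) (n : ℕ) : Set (ℕ → ℝ × ℝ) :=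
  allLe (b * x) n ∩ {z | εm * x < sumS z n}

lemma measurableSet_niceSum (x b εm : ℝ) (n : ℕ) : MeasurableSet (niceSum x b εm n) :=
  (measurableSet_allLe _ _).inter (measurableSet_lt measurable_const (measurable_sumS n))

lemma measurableSet_niceEvent (x β ε : ℝ) (n : ℕ) : MeasurableSet (niceEvent x β ε n) := by
  refine (measurableSet_oneBig _ _ _ _).inter ?_
  have h1 : MeasurableSet {q : (ℝ × ℝ) × (ℕ → ℝ × ℝ) | q.1.1 ≤ ε * x} :=
    measurableSet_le (by fun_prop) measurable_const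
  have h2 : MeasurableSet {q : (ℝ × ℝ) × (ℕ → ℝ × ℝ) | (1 - ε) * x ≤ q.1.2} :=
    measurableSet_le measurable_const (by fun_prop)
  have h3 : MeasurableSet {q : (ℝ × ℝ) × (ℕ → ℝ × ℝ) | (1 - ε) * x ≤ (q.2 0).1} :=
    measurableSet_le measurable_const (by fun_prop)
  exact h1.inter (h2.inter h3)

lemma measurableSet_niceBad (x b ε εm : ℝ) (n0 : ℕ) : MeasurableSet (niceBad x b ε εm n0) := by
  have h1 : MeasurableSet {q : (ℝ × ℝ) × (ℕ → ℝ × ℝ) | (pIter q.1 q.2 n0).1 ≤ ε * x} :=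
    measurableSet_le (measurable_pIter n0).fst measurable_const
  have h2 : MeasurableSet {q : (ℝ × ℝ) × (ℕ → ℝ × ℝ) | (1 - ε) * x ≤ (pIter q.1 q.2 n0).2} :=
    measurableSet_le measurable_const (measurable_pIter n0).snd
  have h3 : MeasurableSet {q : (ℝ × ℝ) × (ℕ → ℝ × ℝ) |
      ∃ k < n0, (pIter q.1 q.2 k).2 ≤ 2 * εm * x ∧ b * x < (q.2 k).1 ∧
      ∀ j, k < j → j < n0 → (q.2 j).1 ≤ b * x} := by
    have e : {q : (ℝ × ℝ) × (ℕ → ℝ × ℝ) |
        ∃ k < n0, (pIter q.1 q.2 k).2 ≤ 2 * εm * x ∧ b * x < (q.2 k).1 ∧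
        ∀ j, k < j → j < n0 → (q.2 j).1 ≤ b * x} =
        ⋃ k, ⋃ (_ : k < n0), ({q | (pIter q.1 q.2 k).2 ≤ 2 * εm * x} ∩
          ({q | b * x < (q.2 k).1} ∩
            ⋂ j, ⋂ (_ : k < j), ⋂ (_ : j < n0), {q | (q.2 j).1 ≤ b * x})) := by
      ext q
      simp only [Set.mem_iUnion, Set.mem_inter_iff, Set.mem_iInter, Set.mem_ofPred_eq,
        exists_prop]
    rw [e]
    refine MeasurableSet.iUnion fun k => MeasurableSet.iUnion fun _ => ?_
    refine (measurableSet_le (measurable_pIter k).snd measurable_const).inter ?_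
    refine (measurableSet_lt measurable_const (by fun_prop)).inter ?_
    refine MeasurableSet.iInter fun j => MeasurableSet.iInter fun _ =>
      MeasurableSet.iInter fun _ => ?_
    exact measurableSet_le (by fun_prop) measurable_const
  exact h1.inter (h2.inter h3.compl)

/-- the deterministic inclusion -/
lemma nice_cover {x β b ε ε' εm : ℝ} (hx : 0 < x) (hβb : β ≤ b) (hε' : ε' ≤ ε)
    (hε4 : ε' ≤ 1 / 4) (hb4 : b ≤ 1 / 4) (n0 n : ℕ) :
    pathShift n0 ⁻¹' niceEvent x β ε' n ⊆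
      ((niceBad x b ε εm n0 ∩ {q | (1 - ε') * x ≤ (q.2 n0).1}) ∪
      (⋃ k ∈ Finset.range n0, pathShift (k + 1) ⁻¹' (Prod.snd ⁻¹' niceSum x b εm (n0 - 1 - k)))) ∪
      (pathShift (n0 + 1) ⁻¹' (Prod.snd ⁻¹' niceSum x b εm n) ∪
      (⋃ k ∈ Finset.range n0, pathShift k ⁻¹' mainEvent x (b * x) εm (n0 - 1 - k) n)) := by
  intro q hq
  obtain ⟨⟨hq1, hq2, hq3⟩, hq4, hq5, hq6⟩ := hq
  have hq1' : β * x < (q.2 n0).1 := hq1
  have hq2' : ∀ i < n, (q.2 (n0 + (i + 1))).1 ≤ β * x := hq2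
  have hq3' : x < (pIter q.1 q.2 (n0 + (n + 1))).1 := by
    rw [pIter_add]; exact hq3
  have hq4' : (pIter q.1 q.2 n0).1 ≤ ε' * x := hq4
  have hq5' : (1 - ε') * x ≤ (pIter q.1 q.2 n0).2 := hq5
  have hq6' : (1 - ε') * x ≤ (q.2 n0).1 := hq6
  have hβx : β * x ≤ b * x := by gcongr
  by_cases hk : ∃ k < n0, (pIter q.1 q.2 k).2 ≤ 2 * εm * x ∧ b * x < (q.2 k).1 ∧
      ∀ j, k < j → j < n0 → (q.2 j).1 ≤ b * x
  · obtain ⟨k, hkn, hk1, hk2, hk3⟩ := hk
    by_cases hs1 : εm * x < sumS (fun i => q.2 (k + 1 + i)) (n0 - 1 - k)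
    · left; right
      simp only [Set.mem_iUnion, Finset.mem_range]
      refine ⟨k, hkn, ?_, hs1⟩
      intro i hi
      exact hk3 (k + 1 + i) (by omega) (by omega)
    · by_cases hs2 : εm * x < sumS (fun i => q.2 (n0 + 1 + i)) n
      · right; left
        refine ⟨?_, hs2⟩
        intro i hi
        have := hq2' i hi
        have e : n0 + (i + 1) = n0 + 1 + i := by omega
        rw [e] at this
        exact this.trans hβx
      · right; right
        simp only [Set.mem_iUnion, Finset.mem_range]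
        refine ⟨k, hkn, ?_⟩
        push Not at hs1 hs2
        have e1 : k + (n0 - 1 - k + 1) = n0 := by omega
        refine ⟨hk1, ⟨hk2, ?_, ?_, ?_⟩, ?_, ?_, ?_⟩
        · intro i hi
          exact hk3 (k + (i + 1)) (by omega) (by omega)
        · show b * x < (q.2 (k + (n0 - 1 - k + 1))).1
          rw [e1]
          calc b * x < (1 - ε') * x := by
                apply mul_lt_mul_of_pos_right _ hx
                linarith
            _ ≤ _ := hq6'
        · intro i hi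
          show (q.2 (k + (n0 - 1 - k + (i + 1) + 1))).1 ≤ b * x
          have e : k + (n0 - 1 - k + (i + 1) + 1) = n0 + (i + 1) := by omega
          rw [e]
          exact (hq2' i hi).trans hβx
        · refine le_trans (le_of_eq ?_) hs1
          unfold sumS
          apply Finset.sum_congr rfl
          intro i _
          show (q.2 (k + (i + 1))).1 = (q.2 (k + 1 + i)).1
          have e : k + (i + 1) = k + 1 + i := by omega
          rw [e]
        · refine le_trans (le_of_eq ?_) hs2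
          unfold sumS
          apply Finset.sum_congr rfl
          intro i _
          show (q.2 (k + (n0 - 1 - k + (i + 1) + 1))).1 = (q.2 (n0 + 1 + i)).1
          have e : k + (n0 - 1 - k + (i + 1) + 1) = n0 + 1 + i := by omega
          rw [e]
        · show x < (pIter (pIter q.1 q.2 k) (fun j => q.2 (k + j)) (n0 - 1 - k + n + 2)).1
          rw [← pIter_add]
          have e : k + (n0 - 1 - k + n + 2) = n0 + (n + 1) := by omega
          rw [e]
          exact hq3'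
  · left; left
    refine ⟨⟨?_, ?_, hk⟩, hq6'⟩
    · exact hq4'.trans (by gcongr)
    · refine le_trans ?_ hq5'
      gcongr

lemma nice_preimage {π : Measure (ℝ × ℝ)} (hπ : IsStationaryKW μ ν π) (k : ℕ)
    {S : Set (ℕ → ℝ × ℝ)} (hS : MeasurableSet S) :
    (π.prod (noise μ ν)) (pathShift k ⁻¹' (Prod.snd ⁻¹' S)) = (noise μ ν) S := by
  have hp : IsProbabilityMeasure π := hπ.1
  rw [(hπ.measurePreserving_path k).measure_preimage (measurable_snd hS).nullMeasurableSet]
  have : (Prod.snd ⁻¹' S : Set ((ℝ × ℝ) × (ℕ → ℝ × ℝ))) = Set.univ ×ˢ S := by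
    ext q; simp
  rw [this, Measure.prod_prod, measure_univ, one_mul]

/-- the sum of the main events, reindexed -/
lemma nice_reindex {π : Measure (ℝ × ℝ)} (hπ : IsStationaryKW μ ν π) (x b εm : ℝ) (n0 M : ℕ) :
    ∑ n ∈ Finset.range M, ∑ k ∈ Finset.range n0,
      (π.prod (noise μ ν)) (pathShift k ⁻¹' mainEvent x (b * x) εm (n0 - 1 - k) n) ≤
    ∑ p ∈ (Finset.range (n0 + M) ×ˢ Finset.range (n0 + M)).filter
        (fun p => p.1 + p.2 + 2 ≤ n0 + M),
      (π.prod (noise μ ν)) (mainEvent x (b * x) εm p.1 p.2) := by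
  have h1 : ∀ n, ∑ k ∈ Finset.range n0,
      (π.prod (noise μ ν)) (pathShift k ⁻¹' mainEvent x (b * x) εm (n0 - 1 - k) n) =
      ∑ j ∈ Finset.range n0, (π.prod (noise μ ν)) (mainEvent x (b * x) εm j n) := by
    intro n
    rw [← Finset.sum_range_reflect (fun j =>
      (π.prod (noise μ ν)) (mainEvent x (b * x) εm j n)) n0]
    apply Finset.sum_congr rfl
    intro k _
    rw [(hπ.measurePreserving_path k).measure_preimage
      (measurableSet_mainEvent _ _ _ _ _).nullMeasurableSet]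
  simp_rw [h1]
  rw [Finset.sum_comm, ← Finset.sum_product']
  apply Finset.sum_le_sum_of_subset
  intro p hp
  rw [Finset.mem_product, Finset.mem_range, Finset.mem_range] at hp
  rw [Finset.mem_filter, Finset.mem_product, Finset.mem_range, Finset.mem_range]
  omega

theorem crit_nice (ha0 : 0 < a) (ha1 : a < 1)
    (hμ : ∀ x, 0 ≤ x → μ (Set.Ioi x) = ENNReal.ofReal (Real.exp (-(x ^ a))))
    (hν : ν (Set.Iio 0) = 0) (hνi : Integrable (fun t : ℝ => t) ν)
    (hm : 0 < ∫ t, t ∂ν)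
    (hgt : (∫ t, t ∂ν) < ∫ s, s ∂μ) (hlt : (∫ s, s ∂μ) < 2 * ∫ t, t ∂ν)
    (h2 : ((∫ s, s ∂μ) / ((∫ s, s ∂μ) - ∫ t, t ∂ν)) ^ a = 2)
    {ω : ℝ} (hω : 0 < ω) :
    ∃ ε β0 : ℝ, 0 < ε ∧ ε ≤ 1 / 2 ∧ 0 < β0 ∧ ∀ β : ℝ, 0 < β → β ≤ β0 →
      ∀ᶠ x : ℝ in atTop, ∀ π : Measure (ℝ × ℝ), IsStationaryKW μ ν π → ∀ M : ℕ,
        (M : ℝ) ≤ ε * x + 1 →
        ∑ n ∈ Finset.range M, (π.prod (noise μ ν)) (oneBig x (β * x) (β * x) n ∩
          {q | q.1.1 ≤ ε * x ∧ (1 - ε) * x ≤ q.1.2 ∧ (1 - ε) * x ≤ (q.2 0).1}) ≤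
        ENNReal.ofReal ((2 * (∫ t, t ∂ν) / (2 * (∫ t, t ∂ν) - ∫ s, s ∂μ) ^ 3 + ω) *
          (Real.exp (-(x ^ a)) / (a * x ^ (a - 1))) ^ 2) := by
  set E := ∫ s, s ∂μ with hE
  set m := ∫ t, t ∂ν with hmdef
  have hE0 : 0 < E := hm.trans hgt
  have hc0 : 0 < 2 * m - E := by linarith
  set K := 2 * m / (2 * m - E) ^ 3 with hK
  have hK0 : 0 < K := by positivity
  obtain ⟨εm, ε4, τ, hεm0, hεm8, hεm8', hε4, hτ, hgtτ, hDA, hDC, hF⟩ :=
    param_exists (η := ω / 3) ha0 ha1 hν hνi hm hgt hlt (by positivity)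
  rw [← hK] at hF
  set F := cA E (∫ t, min t τ ∂ν) ((1 - 4 * εm) ^ (a - 1)) ((1 + ε4) ^ (a - 1)) *
        cC E (∫ t, min t τ ∂ν) ((1 - 4 * εm) ^ (a - 1)) ((1 + ε4) ^ (a - 1)) with hFdef
  -- the slack `η1`
  obtain ⟨η1, hη10, hη1⟩ : ∃ η1 : ℝ, 0 < η1 ∧ (1 + η1) ^ 3 * F ≤ K + ω / 2 := by
    have h3 : Tendsto (fun y : ℝ => (1 + y) ^ 3 * F) (𝓝[>] 0) (𝓝 ((1 + 0) ^ 3 * F)) := by
      apply Tendsto.mono_left _ nhdsWithin_le_nhds
      have : Continuous fun y : ℝ => (1 + y) ^ 3 * F := by fun_prop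
      exact this.tendsto 0
    have h4 : (1 + 0 : ℝ) ^ 3 * F < K + ω / 2 := by
      norm_num
      linarith
    obtain ⟨y, hy1, hy2⟩ := ((h3.eventually_lt_const h4).and self_mem_nhdsWithin).exists
    exact ⟨y, hy2, hy1.le⟩
  obtain ⟨βs, εw0, hβs, hεw0, hsum⟩ := sum_small (ν := ν) ha0 ha1 hμ hεm0
  set εw := min εw0 (ε4 / (4 * τ)) with hεw
  have hεw1 : 0 < εw := lt_min hεw0 (by positivity)
  obtain ⟨βb, hβb, hback⟩ := crit_back ha0 ha1 hμ hν hνi hm hgt hlt h2 hεm0 hεm8 hεw1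
  have h1a : 0 < 1 - a := by linarith
  set b : ℝ := min (min βb βs) (min (1 / 4) ((1 / 8) ^ (1 / (1 - a)))) with hb
  have hb0 : 0 < b := lt_min (lt_min hβb hβs) (lt_min (by norm_num) (by positivity))
  have hbb : b ≤ βb := (min_le_left _ _).trans (min_le_left _ _)
  have hbs : b ≤ βs := (min_le_left _ _).trans (min_le_right _ _)
  have hb14 : b ≤ 1 / 4 := (min_le_right _ _).trans (min_le_left _ _)
  have hb18 : b ≤ (1 / 8) ^ (1 / (1 - a)) := (min_le_right _ _).trans (min_le_right _ _)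
  have hb4 : 4 * b ^ (1 - a) ≤ 1 / 2 := by
    have h3 : b ^ (1 - a) ≤ ((1 / 8 : ℝ) ^ (1 / (1 - a))) ^ (1 - a) :=
      Real.rpow_le_rpow hb0.le hb18 h1a.le
    rw [← Real.rpow_mul (by norm_num), one_div_mul_cancel h1a.ne', Real.rpow_one] at h3
    linarith
  obtain ⟨εs, c, hεs, hc, hbad⟩ := hback b hb0 hbb
  set ε := min (min εs (εw / 2)) (min (1 / 4) (c / 4)) with hε
  have hε0 : 0 < ε := lt_min (lt_min hεs (by positivity)) (lt_min (by norm_num) (by positivity))
  have hεεs : ε ≤ εs := (min_le_left _ _).trans (min_le_left _ _)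
  have hεεw : ε ≤ εw / 2 := (min_le_left _ _).trans (min_le_right _ _)
  have hε14 : ε ≤ 1 / 4 := (min_le_right _ _).trans (min_le_left _ _)
  have hεc : ε ≤ c / 4 := (min_le_right _ _).trans (min_le_right _ _)
  refine ⟨ε, b, hε0, by linarith, hb0, ?_⟩
  intro β hβ0 hβb'
  have hω6 : 0 < ω / 6 := by positivity
  have err1 := small_err ha0 (show 0 < c / 2 by positivity) 1 1 hω6
  have err2 := small_err ha0 (show (0 : ℝ) < 1 by norm_num) (εw + 1) 2 hω6
  have hmain := main_sum ha0 ha1 hμ hν hνi hm hgt hlt hεm0 hεm8 hεm8' hε4 hτ hb0 hb4 hgtτ hDA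
    hDC hη10
  filter_upwards [hmain, hbad, hsum b hb0 hbs, err1, err2, eventually_ge_atTop 2,
    eventually_ge_atTop (2 / εw), eventually_ge_atTop (4 * τ / ε4)]
    with x hmain hbad hsum err1 err2 hx2 hxw hxτ
  intro π hπ M hM
  have hp : IsProbabilityMeasure π := hπ.1
  have hx0 : 0 < x := by linarith
  have hxw' : 2 ≤ εw * x := by
    rw [div_le_iff₀ hεw1] at hxw
    linarith
  have hxτ' : 4 * τ ≤ ε4 * x := by
    rw [div_le_iff₀ hε4] at hxτ
    linarith
  have hxa : 0 < x ^ a := by positivity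
  set n0 := ⌊εw * x⌋₊ with hn0
  have hn0u : (n0 : ℝ) ≤ εw * x := Nat.floor_le (by positivity)
  have hMw : (M : ℝ) ≤ εw * x := by
    have : ε * x ≤ εw / 2 * x := by gcongr
    linarith
  have hMx : (M : ℝ) ≤ x := by
    have : ε * x ≤ 1 / 4 * x := by gcongr
    linarith
  set P := π.prod (noise μ ν) with hP
  set e3 : ℝ≥0∞ := ENNReal.ofReal (Real.exp (-(3 * x ^ a))) with he3
  set e1 : ℝ≥0∞ := ENNReal.ofReal (Real.exp (-((2 + c / 2) * x ^ a))) with he1
  have hss : ∀ n : ℕ, (n : ℝ) ≤ εw * x → ∀ k, P (pathShift k ⁻¹' (Prod.snd ⁻¹'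
      niceSum x b εm n)) ≤ e3 := by
    intro n hn k
    rw [hP, nice_preimage hπ k (measurableSet_niceSum _ _ _ _)]
    refine hsum n (hn.trans ?_)
    have : εw ≤ εw0 := min_le_left _ _
    gcongr
  have hA : P (niceBad x b εs εm n0 ∩ {q | (1 - ε) * x ≤ (q.2 n0).1}) ≤ e1 := by
    have h3 := indep_next (μ := μ) (ν := ν) (π := π) (n := n0)
      (measurableSet_niceBad x b εs εm n0) (by
        intro w z z' hzz hw
        obtain ⟨hw1, hw2, hw3⟩ := hw
        have e0 : ∀ k ≤ n0, pIter w z k = pIter w z' k := fun k hk =>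
          pIter_congr w fun j hj => hzz j (lt_of_lt_of_le hj hk)
        refine ⟨?_, ?_, ?_⟩
        · show (pIter w z' n0).1 ≤ εs * x
          rw [← e0 n0 le_rfl]
          exact hw1
        · show (1 - εs) * x ≤ (pIter w z' n0).2
          rw [← e0 n0 le_rfl]
          exact hw2
        · rintro ⟨k, hk, hk1, hk2, hk3⟩
          apply hw3
          refine ⟨k, hk, ?_, ?_, ?_⟩
          · show (pIter w z k).2 ≤ 2 * εm * x
            rw [e0 k hk.le]
            exact hk1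
          · show b * x < (z k).1
            rw [hzz k hk]
            exact hk2
          · intro j hj1 hj2
            show (z j).1 ≤ b * x
            rw [hzz j hj2]
            exact hk3 j hj1 hj2) ((1 - ε) * x)
    refine h3.trans ?_
    have h4 : P (niceBad x b εs εm n0) ≤ ENNReal.ofReal (Real.exp (-((1 + c) * x ^ a))) :=
      hbad π hπ
    have h5 : μ (Set.Ici ((1 - ε) * x)) ≤ ENNReal.ofReal (Real.exp (-((1 - c / 2) * x ^ a))) := by
      have h6 : 0 ≤ (1 - 2 * ε) * x := by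
        apply mul_nonneg _ hx0.le
        linarith
      refine (measure_mono (t := Set.Ioi ((1 - 2 * ε) * x)) ?_).trans ?_
      · intro y hy
        have hy' : (1 - ε) * x ≤ y := hy
        show (1 - 2 * ε) * x < y
        have : 0 < ε * x := by positivity
        linarith
      · rw [hμ _ h6]
        apply ENNReal.ofReal_le_ofReal
        apply Real.exp_le_exp.mpr
        rw [Real.mul_rpow (by linarith) hx0.le]
        have h7 : 1 - 2 * ε ≤ (1 - 2 * ε) ^ a := by
          calc 1 - 2 * ε = (1 - 2 * ε) ^ (1 : ℝ) := (Real.rpow_one _).symm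
            _ ≤ (1 - 2 * ε) ^ a :=
              Real.rpow_le_rpow_of_exponent_ge (by linarith) (by linarith) ha1.le
        have h8 : 1 - c / 2 ≤ (1 - 2 * ε) ^ a := by linarith
        have h9 : (1 - c / 2) * x ^ a ≤ (1 - 2 * ε) ^ a * x ^ a := by gcongr
        linarith
    calc P (niceBad x b εs εm n0) * μ (Set.Ici ((1 - ε) * x))
        ≤ ENNReal.ofReal (Real.exp (-((1 + c) * x ^ a))) *
          ENNReal.ofReal (Real.exp (-((1 - c / 2) * x ^ a))) := by gcongr
      _ = e1 := by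
        rw [he1, ← ENNReal.ofReal_mul (Real.exp_nonneg _), ← Real.exp_add]
        congr 2
        ring
  have hterm : ∀ n ∈ Finset.range M, P (niceEvent x β ε n) ≤
      (e1 + n0 * e3 + e3) + ∑ k ∈ Finset.range n0,
        P (pathShift k ⁻¹' mainEvent x (b * x) εm (n0 - 1 - k) n) := by
    intro n hn
    rw [Finset.mem_range] at hn
    have hnM : (n : ℝ) ≤ M := by exact_mod_cast hn.le
    have h3 : P (niceEvent x β ε n) = P (pathShift n0 ⁻¹' niceEvent x β ε n) :=
      ((hπ.measurePreserving_path n0).measure_preimage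
        (measurableSet_niceEvent x β ε n).nullMeasurableSet).symm
    rw [h3]
    refine (measure_mono (nice_cover (εm := εm) hx0 hβb' hεεs hε14 hb14 n0 n)).trans ?_
    refine (measure_union_le _ _).trans ?_
    refine (add_le_add (measure_union_le _ _) (measure_union_le _ _)).trans ?_
    have h4 : P (⋃ k ∈ Finset.range n0, pathShift (k + 1) ⁻¹'
        (Prod.snd ⁻¹' niceSum x b εm (n0 - 1 - k))) ≤ n0 * e3 := by
      refine (measure_biUnion_finset_le _ _).trans ?_
      calc ∑ k ∈ Finset.range n0, P (pathShift (k + 1) ⁻¹'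
            (Prod.snd ⁻¹' niceSum x b εm (n0 - 1 - k)))
          ≤ ∑ _k ∈ Finset.range n0, e3 := by
            apply Finset.sum_le_sum
            intro k hk
            apply hss
            refine le_trans ?_ hn0u
            exact_mod_cast (by omega : n0 - 1 - k ≤ n0)
        _ = n0 * e3 := by rw [Finset.sum_const, Finset.card_range, nsmul_eq_mul]
    have h5 : P (pathShift (n0 + 1) ⁻¹' (Prod.snd ⁻¹' niceSum x b εm n)) ≤ e3 :=
      hss n (hnM.trans hMw) _
    have h6 : P (⋃ k ∈ Finset.range n0, pathShift k ⁻¹' mainEvent x (b * x) εm (n0 - 1 - k) n) ≤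
        ∑ k ∈ Finset.range n0, P (pathShift k ⁻¹' mainEvent x (b * x) εm (n0 - 1 - k) n) :=
      measure_biUnion_finset_le _ _
    calc _ ≤ (e1 + n0 * e3) + (e3 + ∑ k ∈ Finset.range n0,
          P (pathShift k ⁻¹' mainEvent x (b * x) εm (n0 - 1 - k) n)) :=
          add_le_add (add_le_add hA h4) (add_le_add h5 h6)
      _ = _ := by ring
  set Q := Real.exp (-(x ^ a)) / (a * x ^ (a - 1)) with hQ
  have hQ0 : 0 < Q := by positivity
  have t4 := hmain π hπ (n0 + M) (by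
    push_cast
    have h3 : ε * x ≤ εw / 2 * x := by gcongr
    have h4 : εw * τ ≤ ε4 / 4 := by
      have h5 : εw ≤ ε4 / (4 * τ) := min_le_right _ _
      rw [le_div_iff₀ (by positivity)] at h5
      linarith
    have h6 : ((n0 : ℝ) + M) * τ ≤ (εw * x + (εw / 2 * x + 1)) * τ := by
      gcongr
      linarith
    have h7 : (εw * τ) * x ≤ ε4 / 4 * x := by gcongr
    nlinarith)
  have t5 : (M : ℝ≥0∞) * (e1 + n0 * e3 + e3) ≤
      ENNReal.ofReal (ω / 6 * Q ^ 2) + ENNReal.ofReal (ω / 6 * Q ^ 2) := by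
    have h3 : (M : ℝ≥0∞) * (e1 + n0 * e3 + e3) =
        (M : ℝ≥0∞) * e1 + (M : ℝ≥0∞) * ((n0 : ℝ≥0∞) + 1) * e3 := by ring
    rw [h3]
    apply add_le_add
    · rw [he1, ← ENNReal.ofReal_natCast, ← ENNReal.ofReal_mul (by positivity)]
      apply ENNReal.ofReal_le_ofReal
      refine le_trans ?_ err1
      rw [Real.rpow_one, one_mul]
      gcongr
    · have h4 : (M : ℝ≥0∞) * ((n0 : ℝ≥0∞) + 1) = ENNReal.ofReal ((M : ℝ) * ((n0 : ℝ) + 1)) := by
        rw [ENNReal.ofReal_mul (by positivity), ENNReal.ofReal_add (by positivity) (by norm_num),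
          ENNReal.ofReal_natCast, ENNReal.ofReal_natCast, ENNReal.ofReal_one]
      rw [h4, he3, ← ENNReal.ofReal_mul (by positivity)]
      apply ENNReal.ofReal_le_ofReal
      refine le_trans ?_ err2
      have h5 : (M : ℝ) * ((n0 : ℝ) + 1) ≤ (εw + 1) * x ^ (2 : ℝ) := by
        rw [Real.rpow_two]
        calc (M : ℝ) * ((n0 : ℝ) + 1) ≤ x * (εw * x + 1) := by gcongr
          _ ≤ (εw + 1) * x ^ 2 := by nlinarith
      have h6 : (3 : ℝ) = 2 + 1 := by norm_num
      rw [h6]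
      gcongr
  calc ∑ n ∈ Finset.range M, P (niceEvent x β ε n)
      ≤ ∑ n ∈ Finset.range M, ((e1 + n0 * e3 + e3) + ∑ k ∈ Finset.range n0,
        P (pathShift k ⁻¹' mainEvent x (b * x) εm (n0 - 1 - k) n)) := Finset.sum_le_sum hterm
    _ = (M : ℝ≥0∞) * (e1 + n0 * e3 + e3) + ∑ n ∈ Finset.range M, ∑ k ∈ Finset.range n0,
        P (pathShift k ⁻¹' mainEvent x (b * x) εm (n0 - 1 - k) n) := by
        rw [Finset.sum_add_distrib, Finset.sum_const, Finset.card_range, nsmul_eq_mul]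
    _ ≤ (ENNReal.ofReal (ω / 6 * Q ^ 2) + ENNReal.ofReal (ω / 6 * Q ^ 2)) +
        ENNReal.ofReal ((K + ω / 2) * Q ^ 2) := by
        refine add_le_add t5 ((nice_reindex hπ x b εm n0 M).trans (t4.trans ?_))
        apply ENNReal.ofReal_le_ofReal
        gcongr
    _ ≤ ENNReal.ofReal ((K + ω) * Q ^ 2) := by
        rw [← ENNReal.ofReal_add (by positivity) (by positivity),
          ← ENNReal.ofReal_add (by positivity) (by positivity)]
        apply ENNReal.ofReal_le_ofReal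
        have : 0 < ω * Q ^ 2 := by positivity
        nlinarith

end Pool.Agent.Lib.MP_04add8_pr
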