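import Mathlib
import Pool.Agent.Lib.MP_04add8_pr.One.OneUpper

open MeasureTheory ProbabilityTheory Filter Topology
open scoped ENNReal

set_option linter.unusedSectionVars false

namespace Pool.Agent.Lib.MP_04add8_pr

variable {a : ℝ} {μ ν : Measure ℝ} [IsProbabilityMeasure μ] [IsProbabilityMeasure ν]

/-- **Upper bound**, one big job, with the contribution of the states with a large workload
left as a sum. -/
theorem upper_split (ha0 : 0 < a) (ha1 : a < 1)
    (hμ : ∀ x, 0 ≤ x → μ (Set.Ioi x) = ENNReal.ofReal (Real.exp (-(x ^ a))))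
    (hν : ν (Set.Iio 0) = 0) (hνi : Integrable (fun t : ℝ => t) ν)
    (hm : 0 < ∫ t, t ∂ν)
    (hgt : (∫ t, t ∂ν) < ∫ s, s ∂μ) (hlt : (∫ s, s ∂μ) < 2 * ∫ t, t ∂ν)
    (h2 : ((∫ s, s ∂μ) / ((∫ s, s ∂μ) - ∫ t, t ∂ν)) ^ a ≤ 2)
    {K : ℕ} (hK : 1 < (K + 1) * (1 - a)) {ω : ℝ} (hω : 0 < ω) :
    ∃ e b0 C : ℝ, 0 < e ∧ 0 < b0 ∧ 0 < C ∧ ∀ b : ℝ, 0 < b → b ≤ b0 → ∀ᶠ x : ℝ in atTop,
      ∃ N : ℕ, (N : ℝ) ≤ C * x ∧ ∀ π : Measure (ℝ × ℝ), IsStationaryKW μ ν π →
      π {w | x < w.1} ≤ ENNReal.ofReal ((1 + ω) * fOne a μ ν K x) +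
        ∑ n ∈ Finset.range N, (π.prod (noise μ ν))
          (oneBig x (b * x) (b * x) n ∩ {q | e * x < q.1.2}) := by
  have hK1 : 1 ≤ K := by
    by_contra hcon
    have : K = 0 := by omega
    subst this
    norm_num at hK
    linarith
  set E := ∫ s, s ∂μ with hE
  set m := ∫ t, t ∂ν with hmdef
  have hη0 : 0 < E / (E - m) := div_pos (by linarith) (by linarith)
  set η := E / (E - m) with hη
  have hD : 0 < 2 * m - E := by linarith
  -- slack
  obtain ⟨ω0, hω0, hω01⟩ : ∃ ω0 : ℝ, 0 < ω0 ∧ (1 + ω0) * (1 + ω0) ≤ 1 + ω / 2 := by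
    refine ⟨min 1 (ω / 8), lt_min one_pos (by positivity), ?_⟩
    have h3 : min 1 (ω / 8) ≤ 1 := min_le_left _ _
    have h4 : min 1 (ω / 8) ≤ ω / 8 := min_le_right _ _
    have h5 : 0 < min 1 (ω / 8) := lt_min one_pos (by positivity)
    nlinarith
  obtain ⟨ε0, b0, δ1, hε0, hb0, hδ1, hmain⟩ :=
    one_main ha0 ha1 hμ hν hνi hm hgt hlt h2 hK hω0
  -- parameter for `epi`
  have h1a : 0 < 1 - a := by linarith
  set εe : ℝ := (1 / 8) ^ (1 / (1 - a)) / 2 with hεe
  have hεe0 : 0 < εe := by positivity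
  have hεe8 : 8 * (2 * εe) ^ (1 - a) ≤ 1 := by
    have : 2 * εe = (1 / 8) ^ (1 / (1 - a)) := by rw [hεe]; ring
    rw [this, ← Real.rpow_mul (by norm_num), one_div_mul_cancel h1a.ne', Real.rpow_one]
    norm_num
  set e := min (min ε0 εe) (1 / 2) with he
  have he0 : 0 < e := lt_min (lt_min hε0 hεe0) (by norm_num)
  have he1 : e ≤ ε0 := (min_le_left _ _).trans (min_le_left _ _)
  have he2 : e ≤ εe := (min_le_left _ _).trans (min_le_right _ _)
  have he3 : e ≤ 1 / 2 := min_le_right _ _
  obtain ⟨b1, C1, x1, hb1, hC1, hx1, hret⟩ :=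
    return_small ha0 ha1 hμ hν hνi hm hgt hlt (K := 8) (by norm_num)
  obtain ⟨b2, c2, C2, x2, hb2, hc2, hC2, hx2, hno⟩ := no_big ha0 ha1 hμ hν hνi hm hgt hlt
  set C := c2 + 1 with hC
  refine ⟨e, min (min b0 b1) (min b2 e), C, he0, lt_min (lt_min hb0 hb1) (lt_min hb2 he0),
    by positivity, ?_⟩
  intro b hbpos hb
  have hbb0 : b ≤ b0 := hb.trans ((min_le_left _ _).trans (min_le_left _ _))
  have hbb1 : b ≤ b1 := hb.trans ((min_le_left _ _).trans (min_le_right _ _))
  have hbb2 : b ≤ b2 := hb.trans ((min_le_right _ _).trans (min_le_left _ _))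
  have hbe : b ≤ e := hb.trans ((min_le_right _ _).trans (min_le_right _ _))
  set δ := min δ1 (1 / 2) with hδ
  have hδ0 : 0 < δ := lt_min hδ1 (by norm_num)
  have hδδ1 : δ ≤ δ1 := min_le_left _ _
  have hδ1' : δ ≤ 1 := (min_le_right _ _).trans (by norm_num)
  have hepi := epi ha0 ha1 hμ hν hνi hm hgt hlt (rp := 3 / 2) (ε := εe) (by norm_num)
    (by norm_num) hεe0 hεe8 hω0
  have herr1 := err_one ha0 ha1 hμ hν hνi hm hgt hlt hK1 hδ0 (show 0 < ω / 8 by positivity)
    (C + 1) 1
  have herr2 := err_one ha0 ha1 hμ hν hνi hm hgt hlt hK1 hδ0 (show 0 < ω / 8 by positivity)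
    ((C1 + C2) * (C + 1) ^ 3) 3
  filter_upwards [hmain b hbpos hbb0 C, hepi, herr1, herr2, eventually_ge_atTop 1,
    eventually_ge_atTop x1, eventually_ge_atTop x2] with x hmain hepi herr1 herr2 hx1' hxx1
    hxx2
  have hx0 : 0 < x := by linarith
  have hxa : 0 < x ^ a := by positivity
  rw [← hE, ← hmdef, ← hη] at herr1 herr2 hmain
  set f := fOne a μ ν K x with hf
  have hf0 : 0 < f := by
    rw [hf]; unfold fOne
    rw [← hE, ← hmdef, ← hη]
    positivity
  set N := ⌈c2 * x⌉₊ with hN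
  have hNl : c2 * x ≤ N := Nat.le_ceil _
  have hNu : (N : ℝ) ≤ C * x := by
    have := (Nat.ceil_lt_add_one (show 0 ≤ c2 * x by positivity)).le
    rw [hC]
    nlinarith
  have hNu1 : (N : ℝ) + 1 ≤ (C + 1) * x := by nlinarith
  refine ⟨N, hNu, ?_⟩
  intro π hπ
  have hp : IsProbabilityMeasure π := hπ.1
  have hηa : (η * x) ^ a ≤ 2 * x ^ a := by
    rw [Real.mul_rpow hη0.le hx0.le]
    gcongr
  have h4x : Real.exp (-(4 * x ^ a)) ≤ Real.exp (-((1 + δ) * (η * x) ^ a)) := by
    apply Real.exp_le_exp.mpr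
    have h5 : (1 + δ) * (η * x) ^ a ≤ 2 * (2 * x ^ a) := by gcongr; linarith
    linarith
  have hηxa : 0 < (η * x) ^ a := by positivity
  -- one value of `n`
  set S : Set (ℝ × ℝ) := {w | w.2 ≤ e * x} with hS
  have hSm : MeasurableSet S := measurableSet_le measurable_snd measurable_const
  set Rn : ℝ := C1 * (N + 1) ^ 2 * Real.exp (-(4 * x ^ a)) with hRn
  have hRn0 : 0 ≤ Rn := by positivity
  set T : ℕ → ℝ≥0∞ := fun n => (π.prod (noise μ ν))
    (oneBig x (b * x) (b * x) n ∩ {q | e * x < q.1.2}) with hT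
  have hone : ∀ n ∈ Finset.range N, (π.prod (noise μ ν)) (oneBig x (b * x) (b * x) n) ≤
      ∫⁻ w, S.indicator (fun w => mainOne μ ν a x (b * x) n w) w ∂π +
        (ENNReal.ofReal Rn + T n) := by
    intro n hn
    have hnN : (n : ℝ) ≤ N := by exact_mod_cast (Finset.mem_range.mp hn).le
    have hmeas := measurableSet_oneBig x (b * x) (b * x) n
    have hsplit : (π.prod (noise μ ν)) (oneBig x (b * x) (b * x) n) ≤
        (π.prod (noise μ ν)) (oneBig x (b * x) (b * x) n ∩ {q | q.1 ∈ S}) + T n := by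
      rw [hT]
      refine le_trans (measure_mono ?_) (measure_union_le _ _)
      intro q hq
      by_cases hqS : q.1.2 ≤ e * x
      · exact Or.inl ⟨hq, hqS⟩
      · exact Or.inr ⟨hq, not_le.mp hqS⟩
    refine hsplit.trans ?_
    rw [← add_assoc]
    refine add_le_add ?_ le_rfl
    have hm2 : MeasurableSet (oneBig x (b * x) (b * x) n ∩ {q | q.1 ∈ S}) :=
      hmeas.inter (measurable_fst hSm)
    rw [Measure.prod_apply hm2]
    have hpt : ∀ᵐ w ∂π, (noise μ ν) (Prod.mk w ⁻¹' (oneBig x (b * x) (b * x) n ∩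
        {q | q.1 ∈ S})) ≤ S.indicator (fun w => mainOne μ ν a x (b * x) n w) w +
          ENNReal.ofReal Rn := by
      filter_upwards [hπ.ae_ordered] with w hw
      by_cases hwS : w ∈ S
      · rw [Set.indicator_of_mem hwS]
        refine (measure_mono ?_).trans (oneBig_small (e := e * x) ha0 hμ hν hx0.le
          (by positivity) (by gcongr) n ?_ hw.1 hw.2 hwS)
        · intro z hz
          exact hz.1
        · intro v hv0 hv1
          refine (hret b hbpos hbb1 x hxx1 e he0.le v hv0 hv1 n).trans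
            (ENNReal.ofReal_le_ofReal ?_)
          rw [hRn]
          have h5 : Real.exp (-(8 * (1 - e) * x ^ a)) ≤ Real.exp (-(4 * x ^ a)) := by
            apply Real.exp_le_exp.mpr
            have : 4 * x ^ a ≤ 8 * (1 - e) * x ^ a := by gcongr; linarith
            linarith
          gcongr
      · have : Prod.mk w ⁻¹' (oneBig x (b * x) (b * x) n ∩ {q | q.1 ∈ S}) = ∅ := by
          ext z
          simp only [Set.mem_preimage, Set.mem_inter_iff, Set.mem_empty_iff_false, iff_false]
          intro h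
          exact hwS h.2
        rw [this, measure_empty]
        exact zero_le
    refine (lintegral_mono_ae hpt).trans ?_
    rw [lintegral_add_right _ measurable_const, lintegral_const, measure_univ, mul_one]
  -- the main part
  have hmeasM : ∀ n, AEMeasurable (fun w : ℝ × ℝ => S.indicator
      (fun w => mainOne μ ν a x (b * x) n w) w) π := by
    intro n
    refine (Measurable.indicator ?_ hSm).aemeasurable
    unfold mainOne
    apply Measurable.lintegral_prod_right' (f := fun q : (ℝ × ℝ) × (ℕ → ℝ × ℝ) =>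
      (allLe (b * x) n).indicator (fun z => if x < reflW q.1.2 z n then
      ENNReal.ofReal (Real.exp (-((max (2 * x + sumA z n - q.1.1 - reflW q.1.2 z n) 0) ^ a)))
      else 0) q.2)
    have e1 : (fun q : (ℝ × ℝ) × (ℕ → ℝ × ℝ) =>
      (allLe (b * x) n).indicator (fun z => if x < reflW q.1.2 z n then
      ENNReal.ofReal (Real.exp (-((max (2 * x + sumA z n - q.1.1 - reflW q.1.2 z n) 0) ^ a)))
      else 0) q.2) = ({q : (ℝ × ℝ) × (ℕ → ℝ × ℝ) | q.2 ∈ allLe (b * x) n}).indicator
      (fun q => if x < reflW q.1.2 q.2 n then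
      ENNReal.ofReal (Real.exp (-((max (2 * x + sumA q.2 n - q.1.1 - reflW q.1.2 q.2 n) 0) ^ a)))
      else 0) := by
      funext q
      by_cases hq : q.2 ∈ allLe (b * x) n
      · rw [Set.indicator_of_mem hq, Set.indicator_of_mem (by exact hq)]
      · rw [Set.indicator_of_notMem hq, Set.indicator_of_notMem (by exact hq)]
    rw [e1]
    have hr := measurable_reflW_pair n
    have hsA : Measurable fun q : (ℝ × ℝ) × (ℕ → ℝ × ℝ) => sumA q.2 n :=
      (measurable_sumA n).comp measurable_snd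
    apply Measurable.indicator
    · apply Measurable.ite (measurableSet_lt measurable_const hr) _ measurable_const
      fun_prop
    · exact measurable_snd (measurableSet_allLe _ _)
  have hmainint : ∑ n ∈ Finset.range N, ∫⁻ w, S.indicator
      (fun w => mainOne μ ν a x (b * x) n w) w ∂π ≤
      ENNReal.ofReal ((1 + ω0) * f * (1 + ω0)) +
        ENNReal.ofReal (Real.exp (-((1 + δ) * (η * x) ^ a))) := by
    rw [← lintegral_finsetSum' _ fun n _ => hmeasM n]
    have hpt : ∀ᵐ w ∂π, ∑ n ∈ Finset.range N, S.indicator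
        (fun w => mainOne μ ν a x (b * x) n w) w ≤
        ENNReal.ofReal ((1 + ω0) * f) * ({w : ℝ × ℝ | w.2 ≤ 2 * εe * x}).indicator
          (fun w => ENNReal.ofReal (Real.exp (2 * (3 / 2 * (a * x ^ (a - 1))) * w.2))) w +
          ENNReal.ofReal (Real.exp (-((1 + δ) * (η * x) ^ a))) := by
      filter_upwards [hπ.ae_ordered] with w hw
      by_cases hwS : w ∈ S
      · have hwS' : w.2 ≤ e * x := hwS
        have hwe : w.2 ≤ 2 * εe * x := by
          refine hwS'.trans ?_
          gcongr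
          linarith
        rw [Set.indicator_of_mem (by exact hwe)]
        have e1 : ∑ n ∈ Finset.range N, S.indicator
            (fun w => mainOne μ ν a x (b * x) n w) w =
            ∑ n ∈ Finset.range N, mainOne μ ν a x (b * x) n w := by
          apply Finset.sum_congr rfl
          intro n _
          rw [Set.indicator_of_mem hwS]
        rw [e1]
        refine (hmain w hw.1 hw.2 (hwS'.trans (by gcongr)) N hNu).trans ?_
        rw [← ENNReal.ofReal_mul (by positivity)]
        gcongr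
      · have e1 : ∑ n ∈ Finset.range N, S.indicator
            (fun w => mainOne μ ν a x (b * x) n w) w = 0 := by
          apply Finset.sum_eq_zero
          intro n _
          rw [Set.indicator_of_notMem hwS]
        rw [e1]
        exact zero_le
    refine (lintegral_mono_ae hpt).trans ?_
    rw [lintegral_add_right _ measurable_const, lintegral_const, measure_univ, mul_one,
      lintegral_const_mul' _ _ ENNReal.ofReal_ne_top]
    gcongr
    rw [ENNReal.ofReal_mul (by positivity : 0 ≤ (1 + ω0) * f)]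
    gcongr
    exact hepi π hπ
  have hu := union_upper hπ x (b * x) N
  have hnb := hno b hbpos hbb2 x hxx2 π hπ N hNl
  set G : ℝ := Real.exp (-((1 + δ) * (η * x) ^ a)) with hG
  have hG0 : 0 < G := Real.exp_pos _
  have hsum : ∑ n ∈ Finset.range N, (π.prod (noise μ ν)) (oneBig x (b * x) (b * x) n) ≤
      (ENNReal.ofReal ((1 + ω0) * f * (1 + ω0)) + ENNReal.ofReal G) +
        (N * ENNReal.ofReal Rn + ∑ n ∈ Finset.range N, T n) := by
    refine (Finset.sum_le_sum hone).trans ?_
    rw [Finset.sum_add_distrib, Finset.sum_add_distrib, Finset.sum_const, Finset.card_range,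
      nsmul_eq_mul]
    gcongr
  have hreal : ((1 + ω0) * f * (1 + ω0) + G) + N * Rn +
      C2 * (N + 1) * Real.exp (-(4 * x ^ a)) ≤ (1 + ω) * f := by
    rw [Real.rpow_one] at herr1
    have e3 : x ^ (3 : ℝ) = x ^ 3 := by norm_cast
    rw [e3] at herr2
    have g1 : (1 + ω0) * f * (1 + ω0) ≤ (1 + ω / 2) * f := by
      calc (1 + ω0) * f * (1 + ω0) = ((1 + ω0) * (1 + ω0)) * f := by ring
        _ ≤ _ := by gcongr
    have hN0 : (0 : ℝ) ≤ N := Nat.cast_nonneg N
    have g2 : G ≤ ω / 8 * f := by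
      refine le_trans ?_ herr1
      have g21 : 1 ≤ (C + 1) * x := by linarith
      calc G = 1 * G := by ring
        _ ≤ ((C + 1) * x) * G := by gcongr
        _ = _ := by ring
    have g3 : N * Rn + C2 * (N + 1) * Real.exp (-(4 * x ^ a)) ≤ ω / 8 * f := by
      refine le_trans ?_ herr2
      have hN1 : (1 : ℝ) ≤ N + 1 := by linarith
      have g4 : N * Rn ≤ C1 * (N + 1) ^ 3 * G := by
        rw [hRn]
        calc (N : ℝ) * (C1 * (N + 1) ^ 2 * Real.exp (-(4 * x ^ a)))
            ≤ (N + 1) * (C1 * (N + 1) ^ 2 * G) := by gcongr; linarith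
          _ = _ := by ring
      have g5 : C2 * (N + 1) * Real.exp (-(4 * x ^ a)) ≤ C2 * (N + 1) ^ 3 * G := by
        have : (N + 1 : ℝ) ≤ (N + 1) ^ 3 := by
          calc (N + 1 : ℝ) = (N + 1) * 1 := by ring
            _ ≤ (N + 1) * (N + 1) ^ 2 := by
                gcongr
                nlinarith
            _ = _ := by ring
        gcongr
      have g6 : ((N : ℝ) + 1) ^ 3 ≤ ((C + 1) * x) ^ 3 := by gcongr
      calc N * Rn + C2 * (N + 1) * Real.exp (-(4 * x ^ a))
          ≤ C1 * (N + 1) ^ 3 * G + C2 * (N + 1) ^ 3 * G := add_le_add g4 g5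
        _ = (C1 + C2) * (N + 1) ^ 3 * G := by ring
        _ ≤ (C1 + C2) * ((C + 1) * x) ^ 3 * G := by gcongr
        _ = _ := by ring
    nlinarith
  calc π {w | x < w.1} ≤ _ := hu
    _ ≤ ((ENNReal.ofReal ((1 + ω0) * f * (1 + ω0)) + ENNReal.ofReal G) +
        (N * ENNReal.ofReal Rn + ∑ n ∈ Finset.range N, T n)) +
        ENNReal.ofReal (C2 * (N + 1) * Real.exp (-(4 * x ^ a))) := add_le_add hsum hnb
    _ = ENNReal.ofReal (((1 + ω0) * f * (1 + ω0) + G) + N * Rn +
      C2 * (N + 1) * Real.exp (-(4 * x ^ a))) + ∑ n ∈ Finset.range N, T n := by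
        rw [ENNReal.ofReal_add (by positivity) (by positivity),
          ENNReal.ofReal_add (by positivity) (by positivity),
          ENNReal.ofReal_add (by positivity) (by positivity),
          ENNReal.ofReal_mul (Nat.cast_nonneg N), ENNReal.ofReal_natCast]
        ring
    _ ≤ _ := by
        gcongr

end Pool.Agent.Lib.MP_04add8_pr
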