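import Mathlib
import Pool.Agent.Lib.MP_04add8_pr.Crit.UpperSplit
import Pool.Agent.Lib.MP_04add8_pr.Crit.CritFront
import Pool.Agent.Lib.MP_04add8_pr.Crit.CritNice

open MeasureTheory ProbabilityTheory Filter Topology
open scoped ENNReal

set_option linter.unusedSectionVars false

namespace Pool.Agent.Lib.MP_04add8_pr

variable {a : ℝ} {μ ν : Measure ℝ} [IsProbabilityMeasure μ] [IsProbabilityMeasure ν]

/-- **Upper bound** on the critical curve. -/
theorem upper_crit (ha0 : 0 < a) (ha1 : a < 1)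
    (hμ : ∀ x, 0 ≤ x → μ (Set.Ioi x) = ENNReal.ofReal (Real.exp (-(x ^ a))))
    (hν : ν (Set.Iio 0) = 0) (hνi : Integrable (fun t : ℝ => t) ν)
    (hm : 0 < ∫ t, t ∂ν)
    (hgt : (∫ t, t ∂ν) < ∫ s, s ∂μ) (hlt : (∫ s, s ∂μ) < 2 * ∫ t, t ∂ν)
    (h2 : ((∫ s, s ∂μ) / ((∫ s, s ∂μ) - ∫ t, t ∂ν)) ^ a = 2)
    {K : ℕ} (hK : 1 < (K + 1) * (1 - a)) {ω : ℝ} (hω : 0 < ω) :
    ∀ᶠ x : ℝ in atTop, ∀ π : Measure (ℝ × ℝ), IsStationaryKW μ ν π →
      π {w | x < w.1} ≤ ENNReal.ofReal ((1 + ω) * fOne a μ ν K x +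
        (2 * (∫ t, t ∂ν) / (2 * (∫ t, t ∂ν) - ∫ s, s ∂μ) ^ 3 + ω) *
          (Real.exp (-(x ^ a)) / (a * x ^ (a - 1))) ^ 2) := by
  set E := ∫ s, s ∂μ with hE
  set m := ∫ t, t ∂ν with hmdef
  have hD : 0 < 2 * m - E := by linarith
  set K2 := 2 * m / (2 * m - E) ^ 3 with hK2
  have hK20 : 0 < K2 := by positivity
  obtain ⟨e, b0, C, he, hb0, hC, hsplit⟩ := upper_split ha0 ha1 hμ hν hνi hm hgt hlt h2.le hK hω
  obtain ⟨ε, β0, hε, hε2, hβ0, hnice⟩ := crit_nice ha0 ha1 hμ hν hνi hm hgt hlt h2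
    (show 0 < ω / 2 by positivity)
  obtain ⟨β1, hβ1, hfront⟩ := crit_front ha0 ha1 hμ hν hνi hm hgt hlt h2 hε hε2 he
  set β := min (min b0 β0) β1 with hβ
  have hβpos : 0 < β := lt_min (lt_min hb0 hβ0) hβ1
  have hβb0 : β ≤ b0 := (min_le_left _ _).trans (min_le_left _ _)
  have hββ0 : β ≤ β0 := (min_le_left _ _).trans (min_le_right _ _)
  have hββ1 : β ≤ β1 := min_le_right _ _
  obtain ⟨δ, hδ, hf⟩ := hfront β hβpos hββ1
  filter_upwards [hsplit β hβpos hβb0, hnice β hβpos hββ0, hf C,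
    small_err ha0 hδ C 1 (show 0 < ω / 2 by positivity), eventually_gt_atTop 0]
    with x hsplit hnice hf herr hx
  intro π hπ
  have hp : IsProbabilityMeasure π := hπ.1
  obtain ⟨N, hN, hs⟩ := hsplit
  have hs' := hs π hπ
  rw [← hE, ← hmdef, ← hK2] at hnice
  set Q := Real.exp (-(x ^ a)) / (a * x ^ (a - 1)) with hQ
  have hQ0 : 0 < Q := by positivity
  set M := ⌊ε * x⌋₊ + 1 with hM
  have hMu : (M : ℝ) ≤ ε * x + 1 := by
    rw [hM]; push_cast
    have := Nat.floor_le (show 0 ≤ ε * x by positivity)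
    linarith
  have hn := hnice π hπ M hMu
  have hf0 : 0 < fOne a μ ν K x := fOne_pos ha0 hgt hm hlt hx
  set P := π.prod (noise μ ν) with hP
  set Gn : ℕ → ℝ≥0∞ := fun n => P (oneBig x (β * x) (β * x) n ∩
          {q | q.1.1 ≤ ε * x ∧ (1 - ε) * x ≤ q.1.2 ∧ (1 - ε) * x ≤ (q.2 0).1}) with hGn
  set G := ENNReal.ofReal (Real.exp (-((2 + δ) * x ^ a))) with hG
  have hone : ∀ n ∈ Finset.range N, P (oneBig x (β * x) (β * x) n ∩ {q | e * x < q.1.2}) ≤
      G + (if n < M then Gn n else 0) := by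
    intro n hnN
    have hnC : (n : ℝ) ≤ C * x := by
      have : (n : ℝ) ≤ N := by exact_mod_cast (Finset.mem_range.mp hnN).le
      linarith
    by_cases hnε : (n : ℝ) ≤ ε * x
    · have hnM : n < M := by
        rw [hM]
        exact Nat.lt_succ_of_le (Nat.le_floor hnε)
      rw [if_pos hnM]
      refine le_trans (measure_mono ?_) ((measure_union_le _ _).trans
        (add_le_add (hf π hπ n hnC) (le_refl (Gn n))))
      intro q hq
      by_cases hq2 : q.1.1 ≤ ε * x ∧ (1 - ε) * x ≤ q.1.2 ∧ (1 - ε) * x ≤ (q.2 0).1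
      · exact Or.inr ⟨hq.1, hq2⟩
      · refine Or.inl ⟨hq.1, hq.2, ?_⟩
        intro h
        exact hq2 ⟨h.1, h.2.1, h.2.2.1⟩
    · refine le_trans ?_ le_self_add
      refine le_trans (measure_mono ?_) (hf π hπ n hnC)
      intro q hq
      exact ⟨hq.1, hq.2, fun h => hnε h.2.2.2⟩
  have hsum : ∑ n ∈ Finset.range N, P (oneBig x (β * x) (β * x) n ∩ {q | e * x < q.1.2}) ≤
      N * G + ∑ n ∈ Finset.range M, Gn n := by
    refine (Finset.sum_le_sum hone).trans ?_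
    rw [Finset.sum_add_distrib, Finset.sum_const, Finset.card_range, nsmul_eq_mul]
    gcongr
    rw [← Finset.sum_filter]
    apply Finset.sum_le_sum_of_subset
    intro i hi
    rw [Finset.mem_filter] at hi
    exact Finset.mem_range.mpr hi.2
  calc π {w | x < w.1} ≤ _ := hs'
    _ ≤ ENNReal.ofReal ((1 + ω) * fOne a μ ν K x) +
        (N * G + ENNReal.ofReal ((K2 + ω / 2) * Q ^ 2)) := by
        gcongr
        exact hsum.trans (by gcongr)
    _ ≤ ENNReal.ofReal ((1 + ω) * fOne a μ ν K x) +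
        (ENNReal.ofReal (ω / 2 * Q ^ 2) + ENNReal.ofReal ((K2 + ω / 2) * Q ^ 2)) := by
        gcongr
        rw [hG, ← ENNReal.ofReal_natCast N, ← ENNReal.ofReal_mul (Nat.cast_nonneg N)]
        apply ENNReal.ofReal_le_ofReal
        refine le_trans ?_ herr
        rw [Real.rpow_one]
        gcongr
    _ = _ := by
        rw [← ENNReal.ofReal_add (by positivity) (by positivity),
          ← ENNReal.ofReal_add (by positivity) (by positivity)]
        congr 1
        ring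

end Pool.Agent.Lib.MP_04add8_pr
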