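import Mathlib
import Pool.Agent.Lib.MP_04add8_pr.Crit.UpperCrit
import Pool.Agent.Lib.MP_04add8_pr.Crit.LowerCrit

open MeasureTheory ProbabilityTheory Filter Topology
open scoped ENNReal

set_option linter.unusedSectionVars false

namespace Pool.Agent.Lib.MP_04add8_pr

variable {a : ℝ} {μ ν : Measure ℝ} [IsProbabilityMeasure μ] [IsProbabilityMeasure ν]

lemma tendsto_fTwo (ha0 : 0 < a) (ha1 : a < 1)
    (hμ : ∀ x, 0 ≤ x → μ (Set.Ioi x) = ENNReal.ofReal (Real.exp (-(x ^ a)))) :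
    Tendsto (fun x : ℝ => fTwo μ ν x / (Real.exp (-(x ^ a)) / (a * x ^ (a - 1))) ^ 2) atTop
      (𝓝 (2 * (∫ t, t ∂ν) / (2 * (∫ t, t ∂ν) - ∫ s, s ∂μ) ^ 3)) := by
  have h := (integratedTail_asymp ha0 ha1 hμ).pow 2
  have h2 := h.const_mul (2 * (∫ t, t ∂ν) / (2 * (∫ t, t ∂ν) - ∫ s, s ∂μ) ^ 3)
  rw [one_pow, mul_one] at h2
  refine h2.congr fun x => ?_
  unfold fTwo
  rw [div_pow]
  ring

/-- exact asymptotics on the critical curve -/
theorem exact_critical (ha0 : 0 < a) (ha1 : a < 1)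
    (hμ : ∀ x, 0 ≤ x → μ (Set.Ioi x) = ENNReal.ofReal (Real.exp (-(x ^ a))))
    (hν : ν (Set.Iio 0) = 0) (hνi : Integrable (fun t : ℝ => t) ν)
    (hm : 0 < ∫ t, t ∂ν)
    (hgt : (∫ t, t ∂ν) < ∫ s, s ∂μ) (hlt : (∫ s, s ∂μ) < 2 * ∫ t, t ∂ν)
    (h2 : ((∫ s, s ∂μ) / ((∫ s, s ∂μ) - ∫ t, t ∂ν)) ^ a = 2)
    {K : ℕ} (hK : 1 < (K + 1) * (1 - a))
    {π : Measure (ℝ × ℝ)} (hπ : IsStationaryKW μ ν π) :
    Tendsto (fun x : ℝ => π.real {w | x < w.1} / (fOne a μ ν K x + fTwo μ ν x))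
      atTop (𝓝 1) := by
  have hp : IsProbabilityMeasure π := hπ.1
  have hT := tendsto_fTwo (ν := ν) ha0 ha1 hμ
  set E := ∫ s, s ∂μ with hE
  set m := ∫ t, t ∂ν with hmdef
  have hD : 0 < 2 * m - E := by linarith
  set K2 := 2 * m / (2 * m - E) ^ 3 with hK2
  have hK20 : 0 < K2 := by positivity
  rw [Metric.tendsto_atTop']
  intro η hη
  -- the slack
  obtain ⟨ω, hω, hω1, hωK, hωη, hωη1⟩ : ∃ ω : ℝ, 0 < ω ∧ ω < 1 ∧ ω < K2 ∧ ω ≤ η / 2 ∧
      4 * ω ≤ η * K2 := by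
    refine ⟨min (min (1 / 2) (K2 / 2)) (min (η / 2) (η * K2 / 4)), ?_, ?_, ?_, ?_, ?_⟩
    · exact lt_min (lt_min (by norm_num) (by positivity)) (lt_min (by positivity) (by positivity))
    · exact lt_of_le_of_lt ((min_le_left _ _).trans (min_le_left _ _)) (by norm_num)
    · exact lt_of_le_of_lt ((min_le_left _ _).trans (min_le_right _ _)) (by linarith)
    · exact (min_le_right _ _).trans (min_le_left _ _)
    · have : min (min (1 / 2) (K2 / 2)) (min (η / 2) (η * K2 / 4)) ≤ η * K2 / 4 :=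
        (min_le_right _ _).trans (min_le_right _ _)
      linarith
  have hu := upper_crit ha0 ha1 hμ hν hνi hm hgt hlt h2 hK hω
  have hl := lower_crit ha0 ha1 hμ hν hνi hm hgt hlt hK hω hω1 hωK
  -- `fTwo` against `Q ^ 2`
  have hT1 : ∀ᶠ x : ℝ in atTop, (K2 + ω) / (1 + η / 2) ≤
      fTwo μ ν x / (Real.exp (-(x ^ a)) / (a * x ^ (a - 1))) ^ 2 := by
    apply hT.eventually_const_le
    rw [div_lt_iff₀ (by positivity)]
    nlinarith
  have hT2 : ∀ᶠ x : ℝ in atTop,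
      (1 - η / 2) * (fTwo μ ν x / (Real.exp (-(x ^ a)) / (a * x ^ (a - 1))) ^ 2) ≤ K2 - ω := by
    apply (hT.const_mul (1 - η / 2)).eventually_le_const
    nlinarith
  obtain ⟨x0, hx0⟩ := eventually_atTop.mp
    ((hu.and hl).and ((hT1.and hT2).and (eventually_gt_atTop 0)))
  refine ⟨x0, ?_⟩
  intro x hx
  obtain ⟨⟨hu', hl'⟩, ⟨hT1', hT2'⟩, hxpos⟩ := hx0 x hx.le
  have hu'' := hu' π hπ
  have hl'' := hl' π hπ
  rw [← hE, ← hmdef, ← hK2] at hu'' hl''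
  set Q := Real.exp (-(x ^ a)) / (a * x ^ (a - 1)) with hQ
  have hQ0 : 0 < Q := by positivity
  have hf1 : 0 < fOne a μ ν K x := fOne_pos ha0 hgt hm hlt hxpos
  rw [le_div_iff₀ (by positivity), div_mul_eq_mul_div, div_le_iff₀ (by positivity)] at hT1'
  rw [mul_div_assoc', div_le_iff₀ (by positivity)] at hT2'
  have hf2 : 0 < fTwo μ ν x := by
    have : 0 < (K2 + ω) * Q ^ 2 := by positivity
    have h3 : 0 < fTwo μ ν x * (1 + η / 2) := lt_of_lt_of_le this hT1'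
    by_contra hcon
    push Not at hcon
    have : fTwo μ ν x * (1 + η / 2) ≤ 0 := mul_nonpos_of_nonpos_of_nonneg hcon (by positivity)
    linarith
  have hf : 0 < fOne a μ ν K x + fTwo μ ν x := by positivity
  have e1 : π.real {w | x < w.1} ≤ (1 + ω) * fOne a μ ν K x + (K2 + ω) * Q ^ 2 := by
    rw [measureReal_def]
    exact ENNReal.toReal_le_of_le_ofReal (by positivity) hu''
  have e2 : (1 - ω) * fOne a μ ν K x + (K2 - ω) * Q ^ 2 ≤ π.real {w | x < w.1} := by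
    rw [measureReal_def]
    exact (ENNReal.ofReal_le_iff_le_toReal (measure_ne_top _ _)).mp hl''
  rw [Real.dist_eq, abs_lt]
  constructor
  · rw [lt_sub_iff_add_lt, lt_div_iff₀ hf]
    nlinarith
  · rw [sub_lt_iff_lt_add, div_lt_iff₀ hf]
    nlinarith

/-- exact asymptotics for all loads -/
theorem exact_all (ha0 : 0 < a) (ha1 : a < 1)
    (hμ : ∀ x, 0 ≤ x → μ (Set.Ioi x) = ENNReal.ofReal (Real.exp (-(x ^ a))))
    (hν : ν (Set.Iio 0) = 0) (hνi : Integrable (fun t : ℝ => t) ν)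
    (hm : 0 < ∫ t, t ∂ν)
    (hgt : (∫ t, t ∂ν) < ∫ s, s ∂μ) (hlt : (∫ s, s ∂μ) < 2 * ∫ t, t ∂ν)
    {K : ℕ} (hK : 1 < (K + 1) * (1 - a))
    {π : Measure (ℝ × ℝ)} (hπ : IsStationaryKW μ ν π) :
    Tendsto (fun x : ℝ => π.real {w | x < w.1} / (fOne a μ ν K x + fTwo μ ν x))
      atTop (𝓝 1) := by
  by_cases h2 : ((∫ s, s ∂μ) / ((∫ s, s ∂μ) - ∫ t, t ∂ν)) ^ a = 2
  · exact exact_critical ha0 ha1 hμ hν hνi hm hgt hlt h2 hK hπ
  · exact exact_off_critical ha0 ha1 hμ hν hνi hm hgt hlt h2 hK hπ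

end Pool.Agent.Lib.MP_04add8_pr
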