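import Mathlib
import Pool.Agent.Lib.MP_04add8_pr.Crit.BetaTwo

open MeasureTheory ProbabilityTheory Filter Topology Asymptotics
open scoped ENNReal

set_option linter.unusedSectionVars false

namespace Pool.Agent.Lib.MP_04add8_pr

variable {a : ℝ} {μ ν : Measure ℝ} [IsProbabilityMeasure μ] [IsProbabilityMeasure ν]

lemma rateB_le {β : ℝ → ℝ} (hβ : ∀ θ, 0 ≤ β θ) (ha0 : 0 < a) (ha1 : a < 1) {x θ : ℝ}
    (hx : 0 ≤ x) (hθ : 0 < θ) : rateB a β x ≤ wG a θ + x * (θ + β θ) := by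
  unfold rateB
  apply csInf_le
  · refine ⟨0, ?_⟩
    rintro y ⟨t, ht, rfl⟩
    have ht : 0 < t := ht
    have h1 : 0 ≤ wG a t := by
      unfold wG
      have : 0 < 1 - a := by linarith
      positivity
    have := hβ t
    simp only
    positivity
  · exact ⟨θ, hθ, rfl⟩

/-- the limit of `rateB a x - (η x) ^ a` for `a ≤ 1 / 2` -/
theorem rate_second (ha0 : 0 < a) (ha2 : a ≤ 1 / 2)
    (hμ : ∀ x, 0 ≤ x → μ (Set.Ioi x) = ENNReal.ofReal (Real.exp (-(x ^ a))))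
    (hν : ν (Set.Iio 0) = 0) (hνi : Integrable (fun t : ℝ => t) ν)
    (hν2 : Integrable (fun t : ℝ => t ^ 2) ν)
    (hm : 0 < ∫ t, t ∂ν)
    (hgt : (∫ t, t ∂ν) < ∫ s, s ∂μ) (hlt : (∫ s, s ∂μ) < 2 * ∫ t, t ∂ν)
    {η : ℝ} (hη : η = (∫ s, s ∂μ) / ((∫ s, s ∂μ) - ∫ t, t ∂ν)) {κ : ℝ}
    (hκ : κ = (((∫ s, s ^ 2 ∂μ) - (∫ s, s ∂μ) ^ 2) * (η - 1) ^ 2 +
        ((∫ t, t ^ 2 ∂ν) - (∫ t, t ∂ν) ^ 2) * η ^ 2) /
          (2 * ((∫ s, s ∂μ) - ∫ t, t ∂ν))) :
    Tendsto (fun x : ℝ => rateB a (cramerRoot μ ν 2) x - (η * x) ^ a) atTop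
      (𝓝 (-(κ * (if a = 1 / 2 then 1 / (4 * η) else 0)))) := by
  have ha1 : a < 1 := by linarith
  have hη0 : 0 < η := by rw [hη]; exact div_pos (by linarith) (by linarith)
  have hη1 : 1 < η := by
    rw [hη, one_lt_div (by linarith)]; linarith
  have hd : 0 < (∫ s, s ∂μ) - ∫ t, t ∂ν := by linarith
  have hsec := BetaTwo.beta_second ha0 ha1 hμ hν hνi hν2 hm hgt hlt hη
  rw [neg_div, ← hκ] at hsec
  set β := cramerRoot μ ν 2 with hβ
  have hβ0 : ∀ θ, 0 ≤ β θ := fun θ => cramerRoot_nonneg 2 θ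
  set h : ℝ → ℝ := fun x => a * (η * x) ^ (a - 1) with hh
  have hκ0 : 0 ≤ κ := by
    rw [hκ]
    have v1 : 0 ≤ (∫ s, s ^ 2 ∂μ) - (∫ s, s ∂μ) ^ 2 := by
      have h2 : MemLp (fun s : ℝ => s) 2 μ := by
        refine (memLp_two_iff_integrable_sq (by fun_prop)).mpr ?_
        exact weibull_integrable_pow ha0 hμ 2 (by norm_num)
      have := variance_eq_sub h2
      have hv := variance_nonneg (fun s : ℝ => s) μ
      rw [this] at hv
      simpa using hv
    have v2 : 0 ≤ (∫ t, t ^ 2 ∂ν) - (∫ t, t ∂ν) ^ 2 := by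
      have h2 : MemLp (fun t : ℝ => t) 2 ν :=
        (memLp_two_iff_integrable_sq (by fun_prop)).mpr hν2
      have := variance_eq_sub h2
      have hv := variance_nonneg (fun s : ℝ => s) ν
      rw [this] at hv
      simpa using hv
    positivity
  -- behaviour of `h`
  have hh0 : ∀ᶠ x : ℝ in atTop, 0 < h x := by
    filter_upwards [eventually_gt_atTop 0] with x hx
    rw [hh]; positivity
  have hhlim : Tendsto h atTop (𝓝[>] 0) := by
    apply tendsto_nhdsWithin_of_tendsto_nhds_of_eventually_within _ _ hh0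
    have h1 : Tendsto (fun x : ℝ => η * x) atTop atTop :=
      tendsto_id.const_mul_atTop hη0
    exact (tendsto_hazard (a := a) ha1).comp h1
  -- `x h ^ 2`
  have hxh : Tendsto (fun x : ℝ => x * h x ^ 2) atTop
      (𝓝 (if a = 1 / 2 then 1 / (4 * η) else 0)) := by
    have e : ∀ x : ℝ, 0 < x → x * h x ^ 2 = a ^ 2 * η ^ (2 * (a - 1)) * x ^ (2 * a - 1) := by
      intro x hx
      rw [hh]
      simp only
      rw [Real.mul_rpow hη0.le hx.le, mul_pow, mul_pow, ← Real.rpow_natCast (η ^ (a - 1)),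
        ← Real.rpow_natCast (x ^ (a - 1)), ← Real.rpow_mul hη0.le, ← Real.rpow_mul hx.le]
      have e1 : x ^ (2 * a - 1) = x * x ^ ((a - 1) * (2 : ℕ)) := by
        nth_rewrite 2 [← Real.rpow_one x]
        rw [← Real.rpow_add hx]
        congr 1
        push_cast
        ring
      rw [e1]
      have e2 : (a - 1) * ((2 : ℕ) : ℝ) = 2 * (a - 1) := by push_cast; ring
      rw [e2]
      ring
    split_ifs with h12
    · have : (fun x : ℝ => x * h x ^ 2) =ᶠ[atTop] fun _ => 1 / (4 * η) := by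
        filter_upwards [eventually_gt_atTop 0] with x hx
        rw [e x hx, h12]
        norm_num
        rw [Real.rpow_neg_one]
        field_simp
      exact (tendsto_const_nhds).congr' this.symm
    · have hlt2 : a < 1 / 2 := lt_of_le_of_ne ha2 h12
      have h1 := (tendsto_rpow_neg_atTop (y := 1 - 2 * a) (by linarith)).const_mul
        (a ^ 2 * η ^ (2 * (a - 1)))
      rw [mul_zero] at h1
      refine h1.congr' ?_
      filter_upwards [eventually_gt_atTop 0] with x hx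
      rw [e x hx]
      congr 2
      ring
  set c0 : ℝ := if a = 1 / 2 then 1 / (4 * η) else 0 with hc0
  have hc00 : 0 ≤ c0 := by
    rw [hc0]; split_ifs <;> positivity
  have hwXh : ∀ x : ℝ, 0 < x → wG a (h x) + x * (η * h x) = (η * x) ^ a := by
    intro x hx
    have hhx : 0 < h x := by rw [hh]; positivity
    rw [wG_eq ha0 ha1 hhx]
    have hX : wX a (h x) = η * x := by
      unfold wX
      rw [hh]
      simp only
      have e1 : a / (a * (η * x) ^ (a - 1)) = (η * x) ^ (1 - a) := by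
        rw [div_mul_eq_div_div, div_self ha0.ne', one_div, ← Real.rpow_neg (by positivity)]
        congr 1; ring
      rw [e1, ← Real.rpow_mul (by positivity), mul_one_div_cancel (by linarith), Real.rpow_one]
    rw [hX]
    ring
  -- upper bound
  have hup : Tendsto (fun x : ℝ => x * h x ^ 2 * ((h x + β (h x) - η * h x) / h x ^ 2)) atTop
      (𝓝 (c0 * (-κ))) := hxh.mul (hsec.comp hhlim)
  have hup' : ∀ᶠ x : ℝ in atTop, rateB a β x - (η * x) ^ a ≤
      x * h x ^ 2 * ((h x + β (h x) - η * h x) / h x ^ 2) := by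
    filter_upwards [eventually_gt_atTop 0, hh0] with x hx hhx
    have h1 := rateB_le hβ0 ha0 ha1 hx.le hhx
    have h2 := hwXh x hx
    have h3 : x * h x ^ 2 * ((h x + β (h x) - η * h x) / h x ^ 2) =
        x * (h x + β (h x) - η * h x) := by field_simp
    rw [h3]
    linarith
  -- the final value
  have hfin : -(κ * c0) = c0 * (-κ) := by ring
  rw [hfin, Metric.tendsto_atTop']
  intro ε hε
  -- slack
  obtain ⟨ω, hω, hω1⟩ : ∃ ω : ℝ, 0 < ω ∧ (κ + ω) * (1 + ω) ^ 2 * (c0 + ω) ≤ κ * c0 + ε / 2 := by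
    have h1 : Tendsto (fun y : ℝ => (κ + y) * (1 + y) ^ 2 * (c0 + y)) (𝓝[>] 0)
        (𝓝 ((κ + 0) * (1 + 0) ^ 2 * (c0 + 0))) := by
      apply Tendsto.mono_left _ nhdsWithin_le_nhds
      have : Continuous fun y : ℝ => (κ + y) * (1 + y) ^ 2 * (c0 + y) := by fun_prop
      exact this.tendsto 0
    have h2 : (κ + 0) * (1 + 0) ^ 2 * (c0 + 0) < κ * c0 + ε / 2 := by
      norm_num; linarith
    obtain ⟨y, hy1, hy2⟩ := ((h1.eventually_lt_const h2).and self_mem_nhdsWithin).exists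
    exact ⟨y, hy2, hy1.le⟩
  obtain ⟨β1, hβ1⟩ := beta_expand ha0 ha1 hμ hν hνi hm hgt hlt (K := 2) (by norm_num)
  have hlimβ := beta_limit ha0 ha1 hμ hν hνi hm hgt hlt (K := 2) (by norm_num)
  rw [← hη] at hlimβ
  have hopt := opt_exists ha0 ha1 hη1 hβ0 hlimβ hβ1 hω
  have hsec1 : ∀ᶠ θ : ℝ in 𝓝[>] 0, -(κ + ω) ≤ (θ + β θ - η * θ) / θ ^ 2 :=
    hsec.eventually_const_le (by linarith)
  obtain ⟨θ1, hθ1, hsub⟩ := (mem_nhdsGT_iff_exists_Ioo_subset).1 hsec1
  have hθ1 : 0 < θ1 := hθ1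
  have hhsmall : ∀ᶠ x : ℝ in atTop, (1 + ω) * h x < θ1 := by
    have h1 : Tendsto (fun x => (1 + ω) * h x) atTop (𝓝 ((1 + ω) * 0)) :=
      (hhlim.mono_right nhdsWithin_le_nhds).const_mul _
    rw [mul_zero] at h1
    exact h1.eventually_lt_const hθ1
  have hxh1 : ∀ᶠ x : ℝ in atTop, x * h x ^ 2 ≤ c0 + ω :=
    hxh.eventually_le_const (by linarith)
  have hup1 : ∀ᶠ x : ℝ in atTop, x * h x ^ 2 * ((h x + β (h x) - η * h x) / h x ^ 2) ≤
      c0 * (-κ) + ε / 2 := hup.eventually_le_const (by linarith)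
  obtain ⟨x0, hx0⟩ := eventually_atTop.mp ((hopt.and (hhsmall.and hxh1)).and
    ((hup'.and hup1).and ((eventually_gt_atTop 0).and hh0)))
  refine ⟨x0, ?_⟩
  intro x hx
  obtain ⟨⟨hopt, hhs, hxh1⟩, ⟨hup', hup1⟩, hxpos, hhx⟩ := hx0 x hx.le
  obtain ⟨θ, hθ, habs, -, hR, -, -⟩ := hopt
  have hθle : θ ≤ (1 + ω) * h x := by
    have := (abs_le.mp habs).2
    change θ - h x ≤ ω * h x at this
    linarith
  have hlow : (η * x) ^ a - x * ((κ + ω) * θ ^ 2) ≤ rateB a β x := by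
    rw [hR]
    have h1 := rpow_le_wG ha0 ha1 hθ (show 0 ≤ η * x by positivity)
    have h2 : -(κ + ω) ≤ (θ + β θ - η * θ) / θ ^ 2 := hsub ⟨hθ, by linarith⟩
    rw [le_div_iff₀ (by positivity)] at h2
    have h3 : x * (-(κ + ω) * θ ^ 2) ≤ x * (θ + β θ - η * θ) := by gcongr
    nlinarith
  have hθ2 : x * ((κ + ω) * θ ^ 2) ≤ κ * c0 + ε / 2 := by
    calc x * ((κ + ω) * θ ^ 2) ≤ x * ((κ + ω) * ((1 + ω) * h x) ^ 2) := by gcongr
      _ = (κ + ω) * (1 + ω) ^ 2 * (x * h x ^ 2) := by ring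
      _ ≤ (κ + ω) * (1 + ω) ^ 2 * (c0 + ω) := by gcongr
      _ ≤ _ := hω1
  rw [Real.dist_eq, abs_lt]
  constructor
  · linarith
  · linarith

end Pool.Agent.Lib.MP_04add8_pr
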