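import Mathlib
import Pool.Agent.Lib.MP_04add8_pr.Crit.RateTwo

open MeasureTheory ProbabilityTheory Filter Topology Asymptotics
open scoped ENNReal

set_option linter.unusedSectionVars false

namespace Pool.Agent.Lib.MP_04add8_pr

variable {a : ℝ} {μ ν : Measure ℝ} [IsProbabilityMeasure μ] [IsProbabilityMeasure ν]

/-- Whitt's formula for `a ≤ 1 / 2` in the one-big-job regime -/
theorem whitt_true (ha0 : 0 < a) (ha2 : a ≤ 1 / 2)
    (hμ : ∀ x, 0 ≤ x → μ (Set.Ioi x) = ENNReal.ofReal (Real.exp (-(x ^ a))))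
    (hν : ν (Set.Iio 0) = 0) (hνi : Integrable (fun t : ℝ => t) ν)
    (hν2 : Integrable (fun t : ℝ => t ^ 2) ν)
    (hm : 0 < ∫ t, t ∂ν)
    (hgt : (∫ t, t ∂ν) < ∫ s, s ∂μ) (hlt : (∫ s, s ∂μ) < 2 * ∫ t, t ∂ν)
    {η : ℝ} (hη : η = (∫ s, s ∂μ) / ((∫ s, s ∂μ) - ∫ t, t ∂ν)) (h2 : η ^ a < 2) {κ : ℝ}
    (hκ : κ = (((∫ s, s ^ 2 ∂μ) - (∫ s, s ∂μ) ^ 2) * (η - 1) ^ 2 +
        ((∫ t, t ^ 2 ∂ν) - (∫ t, t ∂ν) ^ 2) * η ^ 2) /
          (2 * ((∫ s, s ∂μ) - ∫ t, t ∂ν)))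
    {π : Measure (ℝ × ℝ)} (hπ : IsStationaryKW μ ν π) :
    Tendsto (fun x : ℝ => π.real {w | x < w.1} /
      (Real.exp (κ * (if a = 1 / 2 then 1 / (4 * η) else 0)) /
        (2 * (∫ t, t ∂ν) - ∫ s, s ∂μ) * integratedTail μ (η * x))) atTop (𝓝 1) := by
  have ha1 : a < 1 := by linarith
  have hη0 : 0 < η := by rw [hη]; exact div_pos (by linarith) (by linarith)
  have hD : 0 < 2 * (∫ t, t ∂ν) - ∫ s, s ∂μ := by linarith
  have hK : (1 : ℝ) < ((2 : ℕ) + 1) * (1 - a) := by push_cast; linarith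
  have h1 := one_big_job ha0 ha1 hμ hν hνi hm hgt hlt (by rw [← hη]; exact h2) hK hπ
  have hr := rate_second ha0 ha2 hμ hν hνi hν2 hm hgt hlt hη hκ
  set c0 : ℝ := if a = 1 / 2 then 1 / (4 * η) else 0 with hc0
  have hi : Tendsto (fun x : ℝ => η * x) atTop atTop := tendsto_id.const_mul_atTop hη0
  have hI := (integratedTail_asymp ha0 ha1 hμ).comp hi
  have he : Tendsto (fun x : ℝ => Real.exp (-(rateB a (cramerRoot μ ν 2) x - (η * x) ^ a)))
      atTop (𝓝 (Real.exp (-(-(κ * c0))))) :=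
    (Real.continuous_exp.tendsto _).comp hr.neg
  rw [neg_neg] at he
  have hprod := (h1.mul (he.div_const (Real.exp (κ * c0)))).div hI (by norm_num)
  rw [div_self (Real.exp_pos _).ne', mul_one, div_one] at hprod
  refine hprod.congr' ?_
  filter_upwards [eventually_gt_atTop 0] with x hx
  rw [Pi.div_apply]
  simp only [Function.comp]
  unfold fOne
  rw [← hη]
  have e1 : Real.exp (-(rateB a (cramerRoot μ ν 2) x)) =
      Real.exp (-(rateB a (cramerRoot μ ν 2) x - (η * x) ^ a)) * Real.exp (-((η * x) ^ a)) := by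
    rw [← Real.exp_add]; congr 1; ring
  rw [e1]
  have p1 : 0 < (η * x) ^ (a - 1) := by positivity
  generalize integratedTail μ (η * x) = J
  generalize π.real {w | x < w.1} = P
  generalize hA : Real.exp (-(rateB a (cramerRoot μ ν 2) x - (η * x) ^ a)) = A
  have hA0 : 0 < A := by rw [← hA]; exact Real.exp_pos _
  generalize hB : Real.exp (-((η * x) ^ a)) = B
  have hB0 : 0 < B := by rw [← hB]; exact Real.exp_pos _
  generalize hC : Real.exp (κ * c0) = C
  have hC0 : 0 < C := by rw [← hC]; exact Real.exp_pos _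
  generalize (η * x) ^ (a - 1) = X at p1 ⊢
  by_cases hJ : J = 0
  · simp [hJ]
  · field_simp

end Pool.Agent.Lib.MP_04add8_pr
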